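import Pool.Agent.Helper76.OB.Defs
import Pool.Agent.Helper35.Primes

set_option autoImplicit false

/-!
# OB module MER: Mertens' product, upper bound

`log ∏_{p ≤ y} (1 - 1/p)⁻¹ ≤ ∑_{p ≤ y} (1/p + 1/(p(p-1))) ≤ ∑_{p ≤ y} 1/p + 2` and
`∑_{p ≤ y} 1/p ≤ log log y + C` (partial summation from `∑_{p ≤ n} log p/p ≤ log n + C`,
`Pool.Agent.Helper35.mertens_upper`; `Pool.Agent.Helper27.IS.sum_upper` is NOT sharp enough (it has
`C log log y`); the constant in front of `log log y` must be `1`.)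
Partial summation: with `A(t) = ∑_{p ≤ t} log p/p ≤ log t + C`:
`∑_{p ≤ y} 1/p = A(y)/log y + ∑_{n=2}^{y-1} A(n) (1/log n - 1/log(n+1))
 ≤ (1 + C/log y) + ∑_{n<y} (1 + C/log n)... `; write the sum as
`∑_{n=2}^{y-1} log n (1/log n - 1/log(n+1)) = ∑ (log(n+1) - log n)/log(n+1) ≤ log log y - log log 2`
because `1 - a/b ≤ log(b/a)`; the `C` part telescopes to `≤ C/log 2`.
-/

open Filter Classical

namespace Pool.Agent.Helper76.OB

private lemma MER_prm_succ (n : ℕ) (f : ℕ → ℝ) :
    ∑ p ∈ Pool.Agent.Helper35.prm 0 (n + 1), f p =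
      ∑ p ∈ Pool.Agent.Helper35.prm 0 n, f p + if (n + 1).Prime then f (n + 1) else 0 := by
  unfold Pool.Agent.Helper35.prm
  rw [Finset.sum_filter, Finset.sum_filter, Finset.sum_Ioc_succ_top (Nat.zero_le n)]

private lemma MER_PR_succ (n : ℕ) (hn : 1 ≤ n) (f : ℕ → ℝ) :
    ∑ p ∈ PR 1 (n + 1), f p = ∑ p ∈ PR 1 n, f p + if (n + 1).Prime then f (n + 1) else 0 := by
  unfold PR
  rw [Finset.sum_filter, Finset.sum_filter, Finset.sum_Ioc_succ_top hn]

private lemma MER_prm_two : Pool.Agent.Helper35.prm 0 2 = {2} := by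
  decide

private lemma MER_PR_two : PR 1 2 = {2} := by
  ext p
  rw [mem_PR, Finset.mem_singleton]
  constructor
  · rintro ⟨⟨h1, h2⟩, _⟩
    omega
  · rintro rfl
    exact ⟨⟨by norm_num, le_refl _⟩, Nat.prime_two⟩

private lemma MER_main (n : ℕ) (hn : 2 ≤ n) :
    ∑ p ∈ PR 1 n, 1 / ((p : ℝ) - 1) ≤
      (∑ p ∈ Pool.Agent.Helper35.prm 0 n, Real.log p / p) / Real.log n +
        (Real.log (Real.log n) - Real.log (Real.log 2)) +
        (2 / Real.log 2 - 2 / Real.log n) + (1 - 1 / (n : ℝ)) := by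
  induction n, hn using Nat.le_induction with
  | base =>
    have hl : Real.log 2 ≠ 0 := (Real.log_pos (by norm_num)).ne'
    rw [MER_PR_two, MER_prm_two, Finset.sum_singleton, Finset.sum_singleton]
    push_cast
    have : Real.log 2 / 2 / Real.log 2 = 1 / 2 := by field_simp
    rw [this]
    norm_num
  | succ n hn ih =>
    have hn0 : (0 : ℝ) < n := by exact_mod_cast (by omega : 0 < n)
    have hl : 0 < Real.log n := Real.log_pos (by exact_mod_cast (by omega : 1 < n))
    have hl1 : Real.log n < Real.log ((n : ℝ) + 1) := Real.log_lt_log hn0 (by linarith)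
    have hl0 : 0 < Real.log ((n : ℝ) + 1) := hl.trans hl1
    rw [MER_PR_succ n (by omega), MER_prm_succ]
    set A : ℝ := ∑ p ∈ Pool.Agent.Helper35.prm 0 n, Real.log p / p with hA
    have hAu : A ≤ Real.log n + 2 := Pool.Agent.Helper35.mertens_upper n (by omega)
    have hstep : (A - 2) * (1 / Real.log n - 1 / Real.log ((n : ℝ) + 1)) ≤
        Real.log (Real.log ((n : ℝ) + 1)) - Real.log (Real.log n) := by
      have h1 : 0 ≤ 1 / Real.log n - 1 / Real.log ((n : ℝ) + 1) :=
        sub_nonneg.2 (one_div_le_one_div_of_le hl hl1.le)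
      have h2 : (A - 2) * (1 / Real.log n - 1 / Real.log ((n : ℝ) + 1)) ≤
          Real.log n * (1 / Real.log n - 1 / Real.log ((n : ℝ) + 1)) :=
        mul_le_mul_of_nonneg_right (by linarith) h1
      have h3 : Real.log n * (1 / Real.log n - 1 / Real.log ((n : ℝ) + 1)) =
          1 - Real.log n / Real.log ((n : ℝ) + 1) := by
        field_simp
      have h4 : Real.log (Real.log n / Real.log ((n : ℝ) + 1)) ≤
          Real.log n / Real.log ((n : ℝ) + 1) - 1 :=
        Real.log_le_sub_one_of_pos (by positivity)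
      rw [Real.log_div hl.ne' hl0.ne'] at h4
      linarith
    have hexp : (A - 2) * (1 / Real.log n - 1 / Real.log ((n : ℝ) + 1)) =
        A / Real.log n - A / Real.log ((n : ℝ) + 1) - 2 / Real.log n +
          2 / Real.log ((n : ℝ) + 1) := by ring
    rw [hexp] at hstep
    push_cast
    have hfrac : 1 / (n : ℝ) = 1 / ((n : ℝ) + 1) + (1 / (n : ℝ) - 1 / ((n : ℝ) + 1)) := by ring
    have hpos : 0 ≤ 1 / (n : ℝ) - 1 / ((n : ℝ) + 1) :=
      sub_nonneg.2 (one_div_le_one_div_of_le hn0 (by linarith))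
    by_cases hp : (n + 1).Prime
    · rw [if_pos hp, if_pos hp]
      have h5 : (A + Real.log ((n : ℝ) + 1) / ((n : ℝ) + 1)) / Real.log ((n : ℝ) + 1) =
          A / Real.log ((n : ℝ) + 1) + 1 / ((n : ℝ) + 1) := by
        field_simp
      rw [h5, add_sub_cancel_right]
      linarith
    · rw [if_neg hp, if_neg hp, add_zero, add_zero]
      linarith

theorem mertens_product : ∃ C : ℝ, 0 < C ∧ ∀ y : ℕ, 2 ≤ y →
    ∏ p ∈ PR 1 y, (1 - 1 / (p : ℝ))⁻¹ ≤ C * Real.log y := by
  refine ⟨Real.exp (2 + 4 / Real.log 2 - Real.log (Real.log 2)), Real.exp_pos _, ?_⟩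
  intro y hy
  have hl2 : 0 < Real.log 2 := Real.log_pos (by norm_num)
  have hy0 : (0 : ℝ) < y := by exact_mod_cast (by omega : 0 < y)
  have hly : Real.log 2 ≤ Real.log y := Real.log_le_log (by norm_num) (by exact_mod_cast hy)
  have hl : 0 < Real.log y := hl2.trans_le hly
  have h1 : ∏ p ∈ PR 1 y, (1 - 1 / (p : ℝ))⁻¹ ≤ Real.exp (∑ p ∈ PR 1 y, 1 / ((p : ℝ) - 1)) := by
    rw [Real.exp_sum]
    refine Finset.prod_le_prod ?_ ?_
    · intro p hp
      rw [mem_PR] at hp
      have hp1 : (1 : ℝ) < p := by exact_mod_cast hp.1.1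
      have : 1 / (p : ℝ) < 1 := by rw [div_lt_one (by linarith)]; exact hp1
      exact inv_nonneg.2 (by linarith)
    · intro p hp
      rw [mem_PR] at hp
      have hp1 : (1 : ℝ) < p := by exact_mod_cast hp.1.1
      have h2 : (1 - 1 / (p : ℝ))⁻¹ = 1 / ((p : ℝ) - 1) + 1 := by
        have h3 : (p : ℝ) - 1 ≠ 0 := by linarith
        have h4 : (p : ℝ) ≠ 0 := by linarith
        have h5 : 1 - 1 / (p : ℝ) = ((p : ℝ) - 1) / p := by field_simp
        rw [h5, inv_div]
        field_simp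
        ring
      rw [h2]
      exact Real.add_one_le_exp _
  refine h1.trans ?_
  rw [← Real.exp_log hl]
  rw [← Real.exp_add, Real.exp_le_exp]
  have h2 := MER_main y hy
  have h3 := Pool.Agent.Helper35.mertens_upper y (by omega)
  have h4 : (∑ p ∈ Pool.Agent.Helper35.prm 0 y, Real.log p / p) / Real.log y ≤
      1 + 2 / Real.log y := by
    rw [div_le_iff₀ hl, add_mul, div_mul_cancel₀ _ hl.ne', one_mul]
    exact h3
  have h5 : 2 / Real.log y ≤ 2 / Real.log 2 :=
    div_le_div_of_nonneg_left (by norm_num) hl2 hly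
  have h6 : 0 ≤ 1 / (y : ℝ) := by positivity
  have h7 : 4 / Real.log 2 = 2 / Real.log 2 + 2 / Real.log 2 := by ring
  have h8 : 0 ≤ 2 / Real.log y := by positivity
  linarith

end Pool.Agent.Helper76.OB
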