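import Pool.Agent.Helper76.OB.Defs
import Pool.Agent.Helper4.ST.Selberg

set_option autoImplicit false

/-!
# OB module LSA: sums of `1/φ(u)` over squarefree `u` prime to `v`
-/

open Filter Classical

namespace Pool.Agent.Helper76.OB

lemma totient_sqfree {d : ℕ} (hd : Squarefree d) :
    (1 : ℝ) / (Nat.totient d : ℝ) = ∏ p ∈ d.primeFactors, (1 / ((p : ℝ) - 1)) := by
  have hd0 : d ≠ 0 := hd.ne_zero
  have h1 := Nat.totient_mul_prod_primeFactors d
  rw [Nat.prod_primeFactors_of_squarefree hd] at h1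
  have h2 : Nat.totient d = ∏ p ∈ d.primeFactors, (p - 1) := by
    have h3 : Nat.totient d * d = (∏ p ∈ d.primeFactors, (p - 1)) * d := by rw [h1, mul_comm]
    exact Nat.eq_of_mul_eq_mul_right (Nat.pos_of_ne_zero hd0) h3
  rw [h2]
  push_cast
  rw [one_div, ← Finset.prod_inv_distrib]
  apply Finset.prod_congr rfl
  intro p hp
  have := (Nat.prime_of_mem_primeFactors hp).one_le
  rw [one_div, Nat.cast_sub this, Nat.cast_one]

theorem sum_coprime (v R : ℕ) (hv : 1 ≤ v) :
    ((Nat.totient v : ℝ) / v) * (Real.log (R + 1) / 2) ≤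
      ∑ u ∈ (Finset.Icc 1 R).filter (fun u => Squarefree u ∧ u.Coprime v),
        (1 : ℝ) / (Nat.totient u : ℝ) := by
  set C : ℝ := ∑ u ∈ (Finset.Icc 1 R).filter (fun u => Squarefree u ∧ u.Coprime v),
        (1 : ℝ) / (Nat.totient u : ℝ) with hC
  have hC0 : 0 ≤ C := Finset.sum_nonneg fun u _ => by positivity
  have hvr : (0 : ℝ) < v := by exact_mod_cast hv
  have hφ : (0 : ℝ) < Nat.totient v := by exact_mod_cast Nat.totient_pos.2 hv
  -- the sum over squarefree divisors
  have hD : ∑ d ∈ v.divisors.filter Squarefree, (1 : ℝ) / (Nat.totient d : ℝ) ≤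
      (v : ℝ) / Nat.totient v := by
    have h1 : ∑ d ∈ v.divisors.filter Squarefree, (1 : ℝ) / (Nat.totient d : ℝ) ≤
        ∑ S ∈ v.primeFactors.powerset, ∏ p ∈ S, (1 / ((p : ℝ) - 1)) := by
      have h2 : ∑ d ∈ v.divisors.filter Squarefree, (1 : ℝ) / (Nat.totient d : ℝ) =
          ∑ S ∈ (v.divisors.filter Squarefree).image Nat.primeFactors,
            ∏ p ∈ S, (1 / ((p : ℝ) - 1)) := by
        rw [Finset.sum_image]
        · apply Finset.sum_congr rfl
          intro d hd
          exact totient_sqfree (Finset.mem_filter.1 hd).2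
        · intro a ha b hb hab
          have ha' := (Finset.mem_filter.1 ha).2
          have hb' := (Finset.mem_filter.1 hb).2
          rw [← Nat.prod_primeFactors_of_squarefree ha', ← Nat.prod_primeFactors_of_squarefree hb',
            hab]
      rw [h2]
      apply Finset.sum_le_sum_of_subset_of_nonneg
      · intro S hS
        obtain ⟨d, hd, rfl⟩ := Finset.mem_image.1 hS
        rw [Finset.mem_powerset]
        have := Nat.mem_divisors.1 (Finset.mem_filter.1 hd).1
        exact Nat.primeFactors_mono this.1 this.2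
      · intro S hS _
        apply Finset.prod_nonneg
        intro p hp
        have h3 := (Nat.prime_of_mem_primeFactors ((Finset.mem_powerset.1 hS) hp)).two_le
        have : (2:ℝ) ≤ p := by exact_mod_cast h3
        have h4 : (0:ℝ) ≤ (p:ℝ) - 1 := by linarith
        positivity
    refine h1.trans (le_of_eq ?_)
    rw [← Finset.prod_one_add]
    have h5 := Nat.totient_mul_prod_primeFactors v
    have h6 : ((∏ p ∈ v.primeFactors, (p - 1) : ℕ) : ℝ) = ∏ p ∈ v.primeFactors, ((p : ℝ) - 1) := by
      push_cast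
      apply Finset.prod_congr rfl
      intro p hp
      have := (Nat.prime_of_mem_primeFactors hp).one_le
      rw [Nat.cast_sub this, Nat.cast_one]
    have h7 : (0 : ℝ) < ∏ p ∈ v.primeFactors, ((p : ℝ) - 1) := by
      apply Finset.prod_pos
      intro p hp
      have h3 := (Nat.prime_of_mem_primeFactors hp).two_le
      have : (2:ℝ) ≤ p := by exact_mod_cast h3
      linarith
    have h8 : (Nat.totient v : ℝ) * ∏ p ∈ v.primeFactors, (p : ℝ) =
        v * ∏ p ∈ v.primeFactors, ((p : ℝ) - 1) := by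
      have e1 : ((∏ p ∈ v.primeFactors, p : ℕ) : ℝ) = ∏ p ∈ v.primeFactors, (p : ℝ) := by
        push_cast; rfl
      rw [← h6, ← e1, ← Nat.cast_mul, ← Nat.cast_mul, h5]
    have h9 : ∏ p ∈ v.primeFactors, (1 + 1 / ((p : ℝ) - 1)) =
        (∏ p ∈ v.primeFactors, (p : ℝ)) / ∏ p ∈ v.primeFactors, ((p : ℝ) - 1) := by
      rw [← Finset.prod_div_distrib]
      apply Finset.prod_congr rfl
      intro p hp
      have h3 := (Nat.prime_of_mem_primeFactors hp).two_le
      have : (2:ℝ) ≤ p := by exact_mod_cast h3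
      have h4 : (p:ℝ) - 1 ≠ 0 := by linarith
      field_simp
      ring
    rw [h9, div_eq_div_iff h7.ne' hφ.ne']
    linarith
  -- factor `u = gcd(u,v) * (u / gcd(u,v))`
  have hmain : Pool.Agent.Helper4.ST.Selberg.L R ≤ ((v : ℝ) / Nat.totient v) * C := by
    have hL : Pool.Agent.Helper4.ST.Selberg.L R =
        ∑ u ∈ (Finset.Icc 1 R).filter Squarefree, (1 : ℝ) / (Nat.totient u : ℝ) := by
      unfold Pool.Agent.Helper4.ST.Selberg.L
      rw [Finset.sum_filter]
      apply Finset.sum_congr rfl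
      intro u _
      split_ifs with h
      · rw [ArithmeticFunction.moebius_apply_of_squarefree h]
        push_cast
        rw [← pow_mul, mul_comm, pow_mul]
        norm_num
      · rw [ArithmeticFunction.moebius_eq_zero_of_not_squarefree h]
        simp
    rw [hL]
    have hkey : ∑ u ∈ (Finset.Icc 1 R).filter Squarefree, (1 : ℝ) / (Nat.totient u : ℝ) ≤
        ∑ x ∈ (v.divisors.filter Squarefree) ×ˢ
          ((Finset.Icc 1 R).filter (fun u => Squarefree u ∧ u.Coprime v)),
          (1 : ℝ) / (Nat.totient x.1 : ℝ) * (1 / (Nat.totient x.2 : ℝ)) := by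
      have hfac : ∀ u ∈ (Finset.Icc 1 R).filter Squarefree,
          Nat.gcd u v * (u / Nat.gcd u v) = u ∧ Nat.Coprime (Nat.gcd u v) (u / Nat.gcd u v) ∧
          Squarefree (Nat.gcd u v) ∧ Squarefree (u / Nat.gcd u v) ∧
          Nat.Coprime (u / Nat.gcd u v) v ∧ 1 ≤ u / Nat.gcd u v ∧ u / Nat.gcd u v ≤ R := by
        intro u hu
        rw [Finset.mem_filter, Finset.mem_Icc] at hu
        have hg : Nat.gcd u v * (u / Nat.gcd u v) = u := Nat.mul_div_cancel' (Nat.gcd_dvd_left u v)
        have hsq := hu.2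
        rw [← hg, Nat.squarefree_mul_iff] at hsq
        refine ⟨hg, hsq.1, hsq.2.1, hsq.2.2, ?_, ?_, ?_⟩
        · apply Nat.coprime_of_dvd
          intro p hp h2 h3
          have h4 : p ∣ u := h2.trans (Nat.div_dvd_of_dvd (Nat.gcd_dvd_left u v))
          have h5 : p ∣ Nat.gcd u v := Nat.dvd_gcd h4 h3
          exact hp.one_lt.ne' (Nat.dvd_one.1 (hsq.1 ▸ Nat.dvd_gcd h5 h2))
        · exact Nat.div_pos (Nat.le_of_dvd (by omega) (Nat.gcd_dvd_left u v))
            (Nat.gcd_pos_of_pos_left v (by omega))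
        · exact (Nat.div_le_self _ _).trans hu.1.2
      have hval : ∀ u ∈ (Finset.Icc 1 R).filter Squarefree, (1 : ℝ) / (Nat.totient u : ℝ) =
          (1 : ℝ) / (Nat.totient (Nat.gcd u v) : ℝ) * (1 / (Nat.totient (u / Nat.gcd u v) : ℝ)) := by
        intro u hu
        obtain ⟨h1, h2, _⟩ := hfac u hu
        have h3 := Nat.totient_mul h2
        rw [h1] at h3
        rw [h3]
        push_cast
        rw [one_div_mul_one_div]
      rw [Finset.sum_congr rfl hval]
      have hinj : Set.InjOn (fun u => (Nat.gcd u v, u / Nat.gcd u v))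
          ((Finset.Icc 1 R).filter Squarefree : Finset ℕ) := by
        intro a ha b hb hab
        simp only [Prod.mk.injEq] at hab
        rw [← (hfac a ha).1, ← (hfac b hb).1, hab.2, hab.1]
      have him : ∑ u ∈ (Finset.Icc 1 R).filter Squarefree,
          (1 : ℝ) / (Nat.totient (Nat.gcd u v) : ℝ) * (1 / (Nat.totient (u / Nat.gcd u v) : ℝ)) =
          ∑ x ∈ ((Finset.Icc 1 R).filter Squarefree).image (fun u => (Nat.gcd u v, u / Nat.gcd u v)),
            (1 : ℝ) / (Nat.totient x.1 : ℝ) * (1 / (Nat.totient x.2 : ℝ)) := by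
        rw [Finset.sum_image hinj]
      rw [him]
      apply Finset.sum_le_sum_of_subset_of_nonneg
      · intro x hx
        obtain ⟨u, hu, rfl⟩ := Finset.mem_image.1 hx
        obtain ⟨h1, h2, h3, h4, h5, h6, h7⟩ := hfac u hu
        rw [Finset.mem_product, Finset.mem_filter, Finset.mem_filter, Finset.mem_Icc,
          Nat.mem_divisors]
        exact ⟨⟨⟨Nat.gcd_dvd_right u v, by omega⟩, h3⟩, ⟨h6, h7⟩, h4, h5⟩
      · intro x _ _
        positivity
    refine hkey.trans ?_
    rw [Finset.sum_product]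
    simp only
    rw [← Finset.sum_mul_sum]
    exact mul_le_mul_of_nonneg_right hD hC0
  have hge := Pool.Agent.Helper4.ST.Selberg.L_ge R
  have h1 : ((Nat.totient v : ℝ) / v) * (Real.log (R + 1) / 2) ≤
      ((Nat.totient v : ℝ) / v) * (((v : ℝ) / Nat.totient v) * C) := by
    apply mul_le_mul_of_nonneg_left (hge.trans hmain)
    positivity
  refine h1.trans (le_of_eq ?_)
  field_simp

end Pool.Agent.Helper76.OB
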