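import Pool.Agent.Helper76.OB.Defs

set_option autoImplicit false

/-!
# OB module PRB: finite bit vectors of an independent family of events

`μ(F ∩ P = T) = μ(⋂_{p∈T} E_p ∩ ⋂_{p∈P∖T} E_pᶜ) = ∏ = wt T` (`ProbabilityTheory.iIndepSet` is
`iIndep` of the σ-algebras generated by `{E p}`, which contain `E p` and `(E p)ᶜ`:
`iIndep.meas_biInter`). Sum over `T ⊆ P` with `A T`.

`PT_union`: for disjoint `P1, P2` the subsets of `P1 ∪ P2` are `T0 ∪ T1`, and the weights multiply.
-/

open Filter Classical MeasureTheory ProbabilityTheory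

namespace Pool.Agent.Helper76.OB

theorem prob_bits {Ω : Type*} [MeasurableSpace Ω] (μ : Measure Ω) [IsProbabilityMeasure μ]
    (E : ℕ → Set Ω) (hE : ∀ p, MeasurableSet (E p)) (hind : iIndepSet E μ) (P : Finset ℕ)
    (A : Finset ℕ → Prop) :
    μ.real {ω | A (P.filter (fun p => ω ∈ E p))} = PT (fun p => μ.real (E p)) P A ∧
      MeasurableSet {ω | A (P.filter (fun p => ω ∈ E p))} := by
  set S : Finset ℕ → Set Ω := fun T => ⋂ p ∈ P, (if p ∈ T then E p else (E p)ᶜ) with hS
  have hSeq : ∀ T, T ⊆ P → S T = {ω | P.filter (fun p => ω ∈ E p) = T} := by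
    intro T hT
    ext ω
    simp only [hS, Set.mem_iInter, Set.mem_setOf_eq]
    constructor
    · intro h
      ext p
      simp only [Finset.mem_filter]
      constructor
      · rintro ⟨hp, hω⟩
        by_contra hpT
        have := h p hp
        rw [if_neg hpT] at this
        exact this hω
      · intro hpT
        refine ⟨hT hpT, ?_⟩
        have := h p (hT hpT)
        rwa [if_pos hpT] at this
    · intro h p hp
      by_cases hpT : p ∈ T
      · rw [if_pos hpT]
        rw [← h] at hpT
        exact (Finset.mem_filter.1 hpT).2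
      · rw [if_neg hpT]
        intro hω
        apply hpT
        rw [← h]
        exact Finset.mem_filter.2 ⟨hp, hω⟩
  have hSm : ∀ T, MeasurableSet (S T) := by
    intro T
    refine Finset.measurableSet_biInter P (fun p _ => ?_)
    split_ifs
    · exact hE p
    · exact (hE p).compl
  have hSμ : ∀ T, μ.real (S T) = wt (fun p => μ.real (E p)) P T := by
    intro T
    have h1 : μ (S T) = ∏ p ∈ P, μ (if p ∈ T then E p else (E p)ᶜ) := by
      refine iIndep.meas_biInter (μ := μ)
        (m := fun p => MeasurableSpace.generateFrom {E p}) hind ?_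
      intro p _
      have h0 : MeasurableSet[MeasurableSpace.generateFrom {E p}] (E p) :=
        MeasurableSpace.measurableSet_generateFrom rfl
      split_ifs
      · exact h0
      · exact h0.compl
    rw [measureReal_def, h1, ENNReal.toReal_prod, wt]
    refine Finset.prod_congr rfl (fun p _ => ?_)
    split_ifs
    · rfl
    · rw [← measureReal_def, measureReal_compl (hE p)]
      simp
  have hU : {ω | A (P.filter (fun p => ω ∈ E p))} = ⋃ T ∈ P.powerset.filter A, S T := by
    ext ω
    simp only [Set.mem_setOf_eq, Set.mem_iUnion, exists_prop, Finset.mem_filter,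
      Finset.mem_powerset]
    constructor
    · intro h
      refine ⟨P.filter (fun p => ω ∈ E p), ⟨Finset.filter_subset _ _, h⟩, ?_⟩
      rw [hSeq _ (Finset.filter_subset _ _)]
      rfl
    · rintro ⟨T, ⟨hT, hA⟩, hω⟩
      rw [hSeq T hT] at hω
      have : P.filter (fun p => ω ∈ E p) = T := hω
      rw [this]
      exact hA
  constructor
  · rw [hU, measureReal_biUnion_finset]
    · rw [PT]
      exact Finset.sum_congr rfl (fun T _ => hSμ T)
    · intro T hT T' hT' hne
      have hT1 := (Finset.mem_powerset.1 (Finset.mem_filter.1 hT).1)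
      have hT2 := (Finset.mem_powerset.1 (Finset.mem_filter.1 hT').1)
      change Disjoint (S T) (S T')
      rw [hSeq T hT1, hSeq T' hT2, Set.disjoint_left]
      intro ω h1 h2
      exact hne (h1.symm.trans h2)
    · intro T _
      exact hSm T
  · rw [hU]
    exact Finset.measurableSet_biUnion _ (fun T _ => hSm T)

theorem PT_union (ε : ℕ → ℝ) (P1 P2 : Finset ℕ) (hd : Disjoint P1 P2)
    (hε : ∀ p ∈ P1, 0 ≤ ε p ∧ ε p ≤ 1) (A : Finset ℕ → Prop) (r : ℝ)
    (h : ∀ T0 : Finset ℕ, T0 ⊆ P1 → PT ε P2 (fun T1 => A (T0 ∪ T1)) ≤ r) :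
    PT ε (P1 ∪ P2) A ≤ r := by
  have hw : ∀ T0 : Finset ℕ, 0 ≤ wt ε P1 T0 := by
    intro T0
    refine Finset.prod_nonneg (fun p hp => ?_)
    split_ifs
    · exact (hε p hp).1
    · linarith [(hε p hp).2]
  have hsum : ∑ T0 ∈ P1.powerset, wt ε P1 T0 = 1 := by
    have h1 := Finset.prod_add (fun p => ε p) (fun p => 1 - ε p) P1
    have h2 : ∏ p ∈ P1, (ε p + (1 - ε p)) = 1 := by
      refine Finset.prod_eq_one (fun p _ => by ring)
    rw [h2] at h1
    rw [h1]
    refine Finset.sum_congr rfl (fun T hT => ?_)
    have hT' := Finset.mem_powerset.1 hT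
    rw [wt, Finset.prod_ite]
    congr 1
    · refine Finset.prod_congr ?_ (fun _ _ => rfl)
      ext p
      simp only [Finset.mem_filter]
      exact ⟨fun h => h.2, fun h => ⟨hT' h, h⟩⟩
    · refine Finset.prod_congr ?_ (fun _ _ => rfl)
      ext p
      simp only [Finset.mem_filter, Finset.mem_sdiff]
  have hkey : PT ε (P1 ∪ P2) A
      = ∑ T0 ∈ P1.powerset, wt ε P1 T0 * PT ε P2 (fun T1 => A (T0 ∪ T1)) := by
    rw [PT]
    have h1 : ∀ T0 ∈ P1.powerset, wt ε P1 T0 * PT ε P2 (fun T1 => A (T0 ∪ T1))
        = ∑ T1 ∈ P2.powerset, if A (T0 ∪ T1) then wt ε P1 T0 * wt ε P2 T1 else 0 := by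
      intro T0 _
      rw [PT, Finset.mul_sum, Finset.sum_filter]
    rw [Finset.sum_congr rfl h1, ← Finset.sum_product', Finset.sum_filter]
    symm
    refine Finset.sum_bij' (fun x _ => x.1 ∪ x.2) (fun T _ => (T ∩ P1, T ∩ P2)) ?_ ?_ ?_ ?_ ?_
    · rintro ⟨T0, T1⟩ hx
      simp only [Finset.mem_product, Finset.mem_powerset] at hx ⊢
      exact Finset.union_subset_union hx.1 hx.2
    · intro T _
      simp only [Finset.mem_product, Finset.mem_powerset]
      exact ⟨Finset.inter_subset_right, Finset.inter_subset_right⟩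
    · rintro ⟨T0, T1⟩ hx
      simp only [Finset.mem_product, Finset.mem_powerset] at hx
      have ha : (T0 ∪ T1) ∩ P1 = T0 := by
        ext p
        simp only [Finset.mem_inter, Finset.mem_union]
        constructor
        · rintro ⟨h0 | h1, hp⟩
          · exact h0
          · exact absurd (hx.2 h1) (Finset.disjoint_left.1 hd hp)
        · intro h0
          exact ⟨Or.inl h0, hx.1 h0⟩
      have hb : (T0 ∪ T1) ∩ P2 = T1 := by
        ext p
        simp only [Finset.mem_inter, Finset.mem_union]
        constructor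
        · rintro ⟨h0 | h1, hp⟩
          · exact absurd hp (Finset.disjoint_left.1 hd (hx.1 h0))
          · exact h1
        · intro h1
          exact ⟨Or.inr h1, hx.2 h1⟩
      simp only [ha, hb]
    · intro T hT
      have hT' := Finset.mem_powerset.1 hT
      simp only
      rw [← Finset.inter_union_distrib_left]
      exact Finset.inter_eq_left.2 hT'
    · rintro ⟨T0, T1⟩ hx
      simp only [Finset.mem_product, Finset.mem_powerset] at hx
      simp only
      split_ifs with hA
      · rw [wt, wt, wt, Finset.prod_union hd]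
        congr 1
        · refine Finset.prod_congr rfl (fun p hp => ?_)
          have : p ∈ T0 ∪ T1 ↔ p ∈ T0 := by
            simp only [Finset.mem_union]
            exact ⟨fun h => h.elim id
              (fun h1 => absurd (hx.2 h1) (Finset.disjoint_left.1 hd hp)), Or.inl⟩
          simp only [this]
        · refine Finset.prod_congr rfl (fun p hp => ?_)
          have : p ∈ T0 ∪ T1 ↔ p ∈ T1 := by
            simp only [Finset.mem_union]
            exact ⟨fun h => h.elim
              (fun h0 => absurd hp (Finset.disjoint_left.1 hd (hx.1 h0))) id, Or.inr⟩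
          simp only [this]
      · rfl
  rw [hkey]
  calc ∑ T0 ∈ P1.powerset, wt ε P1 T0 * PT ε P2 (fun T1 => A (T0 ∪ T1))
      ≤ ∑ T0 ∈ P1.powerset, wt ε P1 T0 * r := by
        refine Finset.sum_le_sum (fun T0 hT0 => ?_)
        exact mul_le_mul_of_nonneg_left (h T0 (Finset.mem_powerset.1 hT0)) (hw T0)
    _ = r := by rw [← Finset.sum_mul, hsum, one_mul]

end Pool.Agent.Helper76.OB
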