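import Pool.Agent.Helper76.OB.MOM
import Pool.Agent.Helper76.OB.PRB

set_option autoImplicit false

/-!
# OB module BCL: almost surely there is an empty window at every large scale `N = 2^(2^k)`

For `N = 2^(2^k)` and `P = PR 2 (√N) = PR 2 y ∪ PR y (√N)`: by `prob_bits`, `PT_union` and `fail_bound`
`μ(no window of (N,2N] is empty for the bits F ∩ P) ≤ (log N)^(-κ) = (2^k log 2)^(-κ)`, summable in `k`.
Borel-Cantelli (`measure_limsup_atTop_eq_zero` / `ae_eventually_notMem`). If the window `W N s j` has no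
survivor of the primes `≤ √N` then it has no element of `Sv F`: every `m ∈ W N s j` is `> N ≥ 2`
(`W_sub`), the primes `p ≤ √N` satisfy `p² ≤ N ≤ m`, and `m ≡ cl T p [MOD p]` with
`T = (PR 2 √N).filter (ω ∈ E ·)` means `p ∣ m - 1` if `p ≠ 2`, `ω ∈ E p`, and `p ∣ m` otherwise.
-/

open Filter Classical MeasureTheory ProbabilityTheory

namespace Pool.Agent.Helper76.OB

private theorem not_mem_Sv {F : Set ℕ} {N s j : ℕ} {T : Finset ℕ} (hj : j < N / s)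
    (hT : ∀ p, p ∈ T ↔ p ∈ PR 2 (Nat.sqrt N) ∧ p ∈ F)
    (hs : ∀ m ∈ W N s j, ¬ Sur T (PR 1 (Nat.sqrt N)) m) : ∀ m ∈ W N s j, m ∉ Sv F := by
  intro m hm hSv
  have hmN := (W_sub hj hm).1
  have h := hs m hm
  unfold Sur at h
  push Not at h
  obtain ⟨p, hp, hmod⟩ := h
  obtain ⟨⟨hp1, hp2⟩, hpp⟩ := mem_PR.1 hp
  have hpN : p ^ 2 ≤ N := by
    rw [pow_two]
    exact (Nat.mul_le_mul hp2 hp2).trans (Nat.sqrt_le N)
  obtain ⟨h1, h2⟩ := hSv.2 p hpp (by omega)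
  by_cases hpT : p ∈ T
  · have h3 := (hT p).1 hpT
    have h4 : 2 < p := (mem_PR.1 h3.1).1.1
    have hcl : cl T p = 1 := by unfold cl; rw [if_pos hpT]
    rw [hcl] at hmod
    have hm2 := hSv.1
    refine h1 ⟨h3.2, by omega⟩ ?_
    exact (Nat.modEq_iff_dvd' (by omega)).1 hmod.symm
  · have hcl : cl T p = 0 := by unfold cl; rw [if_neg hpT]
    rw [hcl] at hmod
    refine h2 ?_ ((Nat.modEq_zero_iff_dvd).1 hmod)
    rintro ⟨h3, h4⟩
    exact hpT ((hT p).2 ⟨mem_PR.2 ⟨⟨by omega, hp2⟩, hpp⟩, h3⟩)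

private theorem PR_union {a b c : ℕ} (hab : a ≤ b) (hbc : b ≤ c) : PR a c = PR a b ∪ PR b c := by
  ext p
  rw [Finset.mem_union, mem_PR, mem_PR, mem_PR]
  constructor
  · rintro ⟨⟨h1, h2⟩, h3⟩
    rcases Nat.lt_or_ge b p with h | h
    · exact Or.inr ⟨⟨h, h2⟩, h3⟩
    · exact Or.inl ⟨⟨h1, h⟩, h3⟩
  · rintro (⟨⟨h1, h2⟩, h3⟩ | ⟨⟨h1, h2⟩, h3⟩)
    · exact ⟨⟨h1, by omega⟩, h3⟩
    · exact ⟨⟨by omega, h2⟩, h3⟩

private theorem PR_disjoint {a b c : ℕ} : Disjoint (PR a b) (PR b c) := by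
  rw [Finset.disjoint_left]
  intro p h1 h2
  rw [mem_PR] at h1 h2
  omega

private theorem scale_summable {κ : ℝ} (hκ : 0 < κ) (K : ℕ) :
    Summable (fun k : ℕ => (Real.log ((2 ^ (2 ^ (k + K)) : ℕ) : ℝ)) ^ (-κ)) := by
  have h2 : (0 : ℝ) < Real.log 2 := Real.log_pos (by norm_num)
  have e : ∀ k : ℕ, (Real.log ((2 ^ (2 ^ (k + K)) : ℕ) : ℝ)) ^ (-κ) =
      ((2 : ℝ) ^ (-κ)) ^ k * ((2 : ℝ) ^ K * Real.log 2) ^ (-κ) := by
    intro k
    push_cast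
    rw [Real.log_pow]
    push_cast
    rw [pow_add, mul_assoc, Real.mul_rpow (by positivity) (by positivity)]
    congr 1
    rw [← Real.rpow_natCast, ← Real.rpow_mul (by norm_num), mul_comm, Real.rpow_mul (by norm_num),
      Real.rpow_natCast]
  simp only [e]
  apply Summable.mul_right
  apply summable_geometric_of_lt_one (by positivity)
  exact Real.rpow_lt_one_of_one_lt_of_neg (by norm_num) (by linarith)

theorem ae_empty {Ω : Type*} [MeasurableSpace Ω] (μ : Measure Ω) [IsProbabilityMeasure μ]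
    (E : ℕ → Set Ω) (hE : ∀ p, MeasurableSet (E p)) (hind : iIndepSet E μ)
    (η θ δ B c : ℝ) (hη : 0 < η) (hηθ : η < θ) (hθ : θ < 1) (hδ : 0 < δ) (hB : 0 < B)
    (hc : 0 < c) (h : 3 - 2 * θ + δ < η * B)
    (hε : ∀ᶠ p : ℕ in atTop, p.Prime →
      (Real.log p) ^ B / p ≤ μ.real (E p) ∧ μ.real (E p) ≤ (p : ℝ) ^ (-c)) :
    ∀ᵐ ω ∂μ, ∀ᶠ k : ℕ in atTop, ∃ j < (2 ^ (2 ^ k)) / sN θ (2 ^ (2 ^ k)),
      ∀ m ∈ W (2 ^ (2 ^ k)) (sN θ (2 ^ (2 ^ k))) j, m ∉ Sv {p | ω ∈ E p} := by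
  obtain ⟨κ, hκ, hf⟩ := fail_bound η θ δ B c hη hηθ hθ hδ hB hc h (fun p => μ.real (E p)) hε
  have hN : Tendsto (fun k : ℕ => (2 ^ (2 ^ k) : ℕ)) atTop atTop :=
    (tendsto_pow_atTop_atTop_of_one_lt (by norm_num : 1 < 2)).comp
      (tendsto_pow_atTop_atTop_of_one_lt (by norm_num : 1 < 2))
  obtain ⟨K, hK⟩ := eventually_atTop.1 (hN.eventually hf)
  -- the bad events
  obtain ⟨Bad, hBad⟩ : ∃ Bad : ℕ → Set Ω, ∀ k, Bad k = {ω | ¬ Emp (2 ^ (2 ^ k))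
      (sN θ (2 ^ (2 ^ k))) ((PR 2 (Nat.sqrt (2 ^ (2 ^ k)))).filter (fun p => ω ∈ E p))} :=
    ⟨_, fun _ => rfl⟩
  have hle : ∀ k, K ≤ k → μ (Bad k) ≤
      ENNReal.ofReal ((Real.log ((2 ^ (2 ^ k) : ℕ) : ℝ)) ^ (-κ)) := by
    intro k hk
    obtain ⟨h1, h2, h3⟩ := hK k hk
    have h4 := (prob_bits μ E hE hind (PR 2 (Nat.sqrt (2 ^ (2 ^ k))))
      (fun T => ¬ Emp (2 ^ (2 ^ k)) (sN θ (2 ^ (2 ^ k))) T)).1
    rw [← hBad k] at h4
    have h5 : PT (fun p => μ.real (E p)) (PR 2 (Nat.sqrt (2 ^ (2 ^ k))))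
        (fun T => ¬ Emp (2 ^ (2 ^ k)) (sN θ (2 ^ (2 ^ k))) T) ≤
        (Real.log ((2 ^ (2 ^ k) : ℕ) : ℝ)) ^ (-κ) := by
      rw [PR_union h2 h1]
      exact PT_union (fun p => μ.real (E p)) _ _ PR_disjoint
        (fun p _ => ⟨measureReal_nonneg, measureReal_le_one⟩) _ _ h3
    rw [← h4] at h5
    rw [← ofReal_measureReal]
    exact ENNReal.ofReal_le_ofReal h5
  have hsum : ∑' k, μ (Bad (k + K)) ≠ ⊤ := by
    refine ne_top_of_le_ne_top (scale_summable hκ K).tsum_ofReal_ne_top ?_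
    exact ENNReal.tsum_le_tsum fun k => hle (k + K) (by omega)
  filter_upwards [ae_eventually_notMem hsum] with ω hω
  obtain ⟨K', hK'⟩ := eventually_atTop.1 hω
  refine eventually_atTop.2 ⟨K' + K, fun k hk => ?_⟩
  have h6 := hK' (k - K) (by omega)
  rw [Nat.sub_add_cancel (by omega), hBad] at h6
  simp only [Set.mem_setOf_eq, not_not] at h6
  obtain ⟨j, hj, hW⟩ := h6
  refine ⟨j, hj, not_mem_Sv hj (T := (PR 2 (Nat.sqrt (2 ^ (2 ^ k)))).filter (fun p => ω ∈ E p))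
    (fun p => ?_) hW⟩
  rw [Finset.mem_filter]
  rfl

end Pool.Agent.Helper76.OB
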