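import Pool.Agent.Helper76.OB.LSV
import Pool.Agent.Helper76.OB.LSA

set_option autoImplicit false

/-!
# OB module BTG: Brun-Titchmarsh with a general modulus

Primes `ℓ ≤ x`, `ℓ ≡ a (mod q)`, `a < q`: `ℓ = a + q k`, `0 ≤ k ≤ x/q`. Let `X = Nat.sqrt (x/q)`. Those with `ℓ > X`
have `k` outside one class mod each prime `p ≤ X`, `p ∤ q`. `arith_large_sieve` with `M = 0`,
`N = x/q`, `ω(p) = 1` if `p ∤ q`, `ω(p) = 0` if `p ∣ q`:
`LS ω X ≥ ∑_{u ≤ X, squarefree, (u,q)=1} 1/φ(u) ≥ (φ(q)/q) log(X+1)/2` (`sum_coprime`). So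
`#{k} ≤ 15 (x/q + 1) (q/φ(q)) 2/log(X+1) ≤ C x/(φ(q) log x)` since `x/q ≥ x^(1/4)`. The primes `ℓ ≤ X`
in the class: at most `X ≤ √(x/q)`, which is `≤ C x/(q log x)`.
-/

open Filter Classical

namespace Pool.Agent.Helper76.OB

/-- one class away from the primes dividing `q` -/
private noncomputable def omq (q p : ℕ) : ℕ := if p ∣ q then 0 else 1

private lemma LS_ge (q X : ℕ) (hq : 1 ≤ q) :
    ((Nat.totient q : ℝ) / q) * (Real.log (X + 1) / 2) ≤ LS (omq q) X := by
  refine (sum_coprime q X hq).trans ?_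
  unfold LS
  have h1 : (Finset.Icc 1 X).filter (fun u => Squarefree u ∧ u.Coprime q) ⊆
      (Finset.Icc 1 X).filter Squarefree := by
    intro u hu
    rw [Finset.mem_filter] at hu ⊢
    exact ⟨hu.1, hu.2.1⟩
  have h0 : ∀ (u p : ℕ), p ∈ u.primeFactors → (0 : ℝ) ≤ (omq q p : ℝ) / ((p : ℝ) - omq q p) := by
    intro u p hp
    have hp2 : (2 : ℝ) ≤ p := by exact_mod_cast (Nat.prime_of_mem_primeFactors hp).two_le
    unfold omq
    split_ifs
    · simp
    · have : (0 : ℝ) < (p : ℝ) - (1 : ℕ) := by
        push_cast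
        linarith
      positivity
  calc ∑ u ∈ (Finset.Icc 1 X).filter (fun u => Squarefree u ∧ u.Coprime q),
        (1 : ℝ) / (Nat.totient u : ℝ)
      = ∑ u ∈ (Finset.Icc 1 X).filter (fun u => Squarefree u ∧ u.Coprime q),
        ∏ p ∈ u.primeFactors, (omq q p : ℝ) / ((p : ℝ) - omq q p) := by
        refine Finset.sum_congr rfl fun u hu => ?_
        rw [Finset.mem_filter, Finset.mem_Icc] at hu
        obtain ⟨⟨hu1, -⟩, hsq, hcop⟩ := hu
        have hprod : ∏ p ∈ u.primeFactors, p = u := Nat.prod_primeFactors_of_squarefree hsq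
        have htot : (Nat.totient u : ℝ) = ∏ p ∈ u.primeFactors, ((p : ℝ) - 1) := by
          have h2 := Nat.totient_mul_prod_primeFactors u
          rw [hprod] at h2
          have h3 : Nat.totient u = ∏ p ∈ u.primeFactors, (p - 1) := by
            have h4 : Nat.totient u * u = (∏ p ∈ u.primeFactors, (p - 1)) * u := by
              rw [h2, mul_comm]
            exact Nat.eq_of_mul_eq_mul_right (by omega) h4
          rw [h3]
          push_cast
          refine Finset.prod_congr rfl fun p hp => ?_
          rw [Nat.cast_sub (Nat.prime_of_mem_primeFactors hp).one_le]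
          simp
        rw [htot, one_div, ← Finset.prod_inv_distrib]
        refine Finset.prod_congr rfl fun p hp => ?_
        have hpq : ¬ p ∣ q := by
          intro hpq
          have hpp := Nat.prime_of_mem_primeFactors hp
          have h5 : p ∣ Nat.gcd u q := Nat.dvd_gcd (Nat.dvd_of_mem_primeFactors hp) hpq
          rw [hcop] at h5
          exact hpp.one_lt.ne' (Nat.dvd_one.mp h5)
        unfold omq
        rw [if_neg hpq]
        push_cast
        rw [one_div]
    _ ≤ _ := Finset.sum_le_sum_of_subset_of_nonneg h1 fun u _ _ =>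
        Finset.prod_nonneg fun p hp => h0 u p hp

theorem brun_titchmarsh : ∃ C : ℝ, 0 < C ∧ ∀ x q a : ℕ, 2 ≤ x → 1 ≤ q → q ^ 4 ≤ x ^ 3 →
    (((Finset.Icc 1 x).filter (fun l : ℕ => l.Prime ∧ l ≡ a [MOD q])).card : ℝ) ≤
      C * x / ((Nat.totient q : ℝ) * Real.log x) := by
  refine ⟨488, by norm_num, ?_⟩
  intro x q a hx hq hqx
  set S := (Finset.Icc 1 x).filter (fun l : ℕ => l.Prime ∧ l ≡ a [MOD q]) with hS
  set N := x / q with hN
  set X := Nat.sqrt N with hX
  have hx0 : (0 : ℝ) < x := by exact_mod_cast (by omega : 0 < x)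
  have hq0 : (0 : ℝ) < q := by exact_mod_cast (by omega : 0 < q)
  have hφ0 : (0 : ℝ) < Nat.totient q := by exact_mod_cast Nat.totient_pos.mpr (by omega)
  have hφq : (Nat.totient q : ℝ) ≤ q := by exact_mod_cast Nat.totient_le q
  have hlogx : 0 < Real.log x := Real.log_pos (by exact_mod_cast (by omega : 1 < x))
  have hqx' : q ≤ x := by
    by_contra hc
    have h1 : x ^ 3 < q ^ 3 := Nat.pow_lt_pow_left (by omega) (by norm_num)
    have h2 : q ^ 3 ≤ q ^ 4 := Nat.pow_le_pow_right hq (by norm_num)
    omega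
  have hy1 : (1 : ℝ) ≤ (x : ℝ) / q := by
    rw [le_div_iff₀ hq0, one_mul]
    exact_mod_cast hqx'
  have hNle : (N : ℝ) ≤ (x : ℝ) / q := Nat.cast_div_le
  have hNlt : (x : ℝ) / q < N + 1 := by
    rw [div_lt_iff₀ hq0]
    have : x < (N + 1) * q := by
      have h1 := Nat.div_add_mod x q
      have h2 := Nat.mod_lt x hq
      calc x = q * (x / q) + x % q := h1.symm
        _ < q * (x / q) + q := by omega
        _ = (N + 1) * q := by rw [hN]; ring
    exact_mod_cast this
  have hlogy : Real.log x / 4 ≤ Real.log ((x : ℝ) / q) := by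
    rw [Real.log_div hx0.ne' hq0.ne']
    have h1 : (q : ℝ) ^ 4 ≤ (x : ℝ) ^ 3 := by exact_mod_cast hqx
    have h2 := Real.log_le_log (by positivity) h1
    rw [Real.log_pow, Real.log_pow] at h2
    push_cast at h2
    linarith
  have hX1 : (x : ℝ) / q ≤ ((X : ℝ) + 1) ^ 2 := by
    have h1 : N < (X + 1) * (X + 1) := Nat.lt_succ_sqrt N
    have h2 : (N : ℝ) + 1 ≤ ((X : ℝ) + 1) * ((X : ℝ) + 1) := by exact_mod_cast h1
    nlinarith
  have hlogX : Real.log x / 8 ≤ Real.log ((X : ℝ) + 1) := by
    have h1 := Real.log_le_log (by positivity) hX1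
    rw [Real.log_pow] at h1
    push_cast at h1
    linarith
  have hXsq : (X : ℝ) ^ 2 ≤ N := by
    have h1 : X * X ≤ N := Nat.sqrt_le N
    rw [sq]
    exact_mod_cast h1
  -- small primes
  set S1 := S.filter (fun l => l ≤ X) with hS1
  set S2 := S.filter (fun l => ¬ l ≤ X) with hS2
  have hcard : S.card = S1.card + S2.card := (Finset.card_filter_add_card_filter_not _).symm
  have hS1c : (S1.card : ℝ) ≤ 8 * x / ((Nat.totient q : ℝ) * Real.log x) := by
    have h1 : S1.card ≤ X := by
      calc S1.card ≤ (Finset.Icc 1 X).card := by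
            refine Finset.card_le_card fun l hl => ?_
            rw [hS1, Finset.mem_filter, hS, Finset.mem_filter, Finset.mem_Icc] at hl
            rw [Finset.mem_Icc]
            exact ⟨hl.1.1.1, hl.2⟩
        _ = X := by simp
    have h2 : (S1.card : ℝ) ≤ X := by exact_mod_cast h1
    refine h2.trans ?_
    rw [le_div_iff₀ (by positivity)]
    have h3 : (X : ℝ) ≤ Real.sqrt ((x : ℝ) / q) := by
      apply Real.le_sqrt_of_sq_le
      linarith
    have h4 : Real.log ((x : ℝ) / q) ≤ 2 * Real.sqrt ((x : ℝ) / q) := by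
      have h5 := Real.log_le_sub_one_of_pos (Real.sqrt_pos.mpr (show (0 : ℝ) < (x : ℝ) / q by positivity))
      rw [Real.log_sqrt (by positivity)] at h5
      linarith
    have h5 : Real.log x ≤ 8 * Real.sqrt ((x : ℝ) / q) := by linarith
    have h6 := Real.mul_self_sqrt (show (0 : ℝ) ≤ (x : ℝ) / q by positivity)
    calc (X : ℝ) * ((Nat.totient q : ℝ) * Real.log x)
        = (Nat.totient q : ℝ) * (X * Real.log x) := by ring
      _ ≤ (q : ℝ) * (Real.sqrt ((x : ℝ) / q) * (8 * Real.sqrt ((x : ℝ) / q))) := by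
          refine mul_le_mul hφq ?_ (by positivity) hq0.le
          exact mul_le_mul h3 h5 hlogx.le (Real.sqrt_nonneg _)
      _ = 8 * ((q : ℝ) * (Real.sqrt ((x : ℝ) / q) * Real.sqrt ((x : ℝ) / q))) := by ring
      _ = 8 * x := by
          rw [h6]
          field_simp
  -- large primes
  have hmodS : ∀ l ∈ S2, l = a % q + q * (l / q) ∧ l.Prime ∧ l ≤ x ∧ X < l := by
    intro l hl
    rw [hS2, Finset.mem_filter, hS, Finset.mem_filter, Finset.mem_Icc] at hl
    obtain ⟨⟨⟨-, h1⟩, h2, h3⟩, h4⟩ := hl
    refine ⟨?_, h2, h1, not_le.mp h4⟩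
    have h5 : l % q = a % q := h3
    rw [← h5]
    exact (Nat.mod_add_div l q).symm
  set A := S2.image (fun l => l / q) with hA
  have hAcard : A.card = S2.card := by
    refine Finset.card_image_of_injOn ?_
    intro l hl m hm hlm
    have h1 := (hmodS l hl).1
    have h2 := (hmodS m hm).1
    have h3 : l / q = m / q := hlm
    rw [h1, h2, h3]
  have hAsub : A ⊆ Finset.Icc 0 (0 + N) := by
    intro k hk
    rw [hA, Finset.mem_image] at hk
    obtain ⟨l, hl, rfl⟩ := hk
    rw [Finset.mem_Icc]
    refine ⟨Nat.zero_le _, ?_⟩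
    rw [zero_add, hN]
    exact Nat.div_le_div_right (hmodS l hl).2.2.1
  have hls := arith_large_sieve X 0 N A hAsub (omq q) ?_ ?_
  · have hLS := LS_ge q X hq
    have hA0 : (0 : ℝ) ≤ (A.card : ℝ) := Nat.cast_nonneg _
    have h1 : (A.card : ℝ) * (((Nat.totient q : ℝ) / q) * (Real.log (X + 1) / 2)) ≤
        30 * ((x : ℝ) / q) := by
      have h2 := mul_le_mul_of_nonneg_left hLS hA0
      linarith
    have h2 : (A.card : ℝ) * (((Nat.totient q : ℝ) / q) * (Real.log x / 16)) ≤
        30 * ((x : ℝ) / q) := by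
      refine le_trans ?_ h1
      refine mul_le_mul_of_nonneg_left ?_ hA0
      refine mul_le_mul_of_nonneg_left ?_ (by positivity)
      linarith
    have h3 : (A.card : ℝ) ≤ 480 * x / ((Nat.totient q : ℝ) * Real.log x) := by
      rw [le_div_iff₀ (by positivity)]
      have h4 := mul_le_mul_of_nonneg_right h2 (show (0 : ℝ) ≤ 16 * q by positivity)
      have h5 : (A.card : ℝ) * (((Nat.totient q : ℝ) / q) * (Real.log x / 16)) * (16 * q) =
          (A.card : ℝ) * ((Nat.totient q : ℝ) * Real.log x) := by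
        field_simp
      have h6 : 30 * ((x : ℝ) / q) * (16 * q) = 480 * x := by
        field_simp
        ring
      linarith
    have h4 : (S.card : ℝ) = S1.card + A.card := by
      rw [hAcard, hcard]
      push_cast
      ring
    rw [h4]
    calc (S1.card : ℝ) + A.card ≤ 8 * x / ((Nat.totient q : ℝ) * Real.log x) +
          480 * x / ((Nat.totient q : ℝ) * Real.log x) := add_le_add hS1c h3
      _ = 488 * x / ((Nat.totient q : ℝ) * Real.log x) := by
          rw [← add_div]
          ring
  · intro p hp _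
    unfold omq
    split_ifs
    · exact hp.pos
    · exact hp.one_lt
  · intro p hp hpX
    have hrange : A.image (fun n => n % p) ⊆ Finset.range p := by
      intro k hk
      rw [Finset.mem_image] at hk
      obtain ⟨n, -, rfl⟩ := hk
      exact Finset.mem_range.mpr (Nat.mod_lt _ hp.pos)
    unfold omq
    split_ifs with hpq
    · calc (A.image (fun n => n % p)).card + 0 ≤ (Finset.range p).card :=
            Finset.card_le_card hrange
        _ = p := Finset.card_range p
    · have hfact : Fact p.Prime := ⟨hp⟩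
      have hqp : (q : ZMod p) ≠ 0 := by
        intro h
        exact hpq ((ZMod.natCast_eq_zero_iff q p).mp h)
      set k0 : ℕ := (-((a % q : ℕ) : ZMod p) / (q : ZMod p)).val with hk0
      have hk0p : k0 < p := ZMod.val_lt _
      have hmiss : k0 ∉ A.image (fun n => n % p) := by
        intro hk
        rw [Finset.mem_image] at hk
        obtain ⟨n, hn, hnk⟩ := hk
        rw [hA, Finset.mem_image] at hn
        obtain ⟨l, hl, hln⟩ := hn
        obtain ⟨h1, h2, -, h4⟩ := hmodS l hl
        have h5 : ((n : ℕ) : ZMod p) = -((a % q : ℕ) : ZMod p) / (q : ZMod p) := by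
          rw [← ZMod.natCast_mod n p, hnk, hk0, ZMod.natCast_zmod_val]
        have h6 : ((l : ℕ) : ZMod p) = 0 := by
          rw [h1, hln]
          push_cast
          rw [h5]
          field_simp
          ring
        have h7 : p ∣ l := (ZMod.natCast_eq_zero_iff l p).mp h6
        have h8 : p = l := (Nat.prime_dvd_prime_iff_eq hp h2).mp h7
        omega
      have h9 : A.image (fun n => n % p) ⊆ (Finset.range p).erase k0 := by
        intro k hk
        rw [Finset.mem_erase]
        refine ⟨?_, hrange hk⟩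
        rintro rfl
        exact hmiss hk
      have h10 := Finset.card_le_card h9
      rw [Finset.card_erase_of_mem (Finset.mem_range.mpr hk0p), Finset.card_range] at h10
      have := hp.pos
      omega

end Pool.Agent.Helper76.OB
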