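import Pool.Agent.Helper76.OB.MER

set_option autoImplicit false

/-!
# OB module ROU: reciprocals of squarefree numbers without prime factors `≤ y`

Every `n ≤ V` is `n = a b` with `a` composed of primes `≤ y` and `b` free of primes `≤ y`, so
`log (V+1) ≤ ∑_{n ≤ V} 1/n ≤ (∑_{a y-smooth} 1/a) (∑_{b ≤ V, b y-rough} 1/b)
  ≤ ∏_{p ≤ y} (1-1/p)⁻¹ ∑_b 1/b ≤ C log y ∑_b 1/b` (`mertens_product`; the smooth sum is an Euler
product: `EulerProduct...smoothNumbers...` in Mathlib, or by induction on the primes for the sum over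
`a ≤ V`). Write `b = v d²`, `v` squarefree (and rough): `∑_b 1/b ≤ (∑_d 1/d²) ∑_v 1/v ≤ 2 ∑_v 1/v`.
-/

open Filter Classical

namespace Pool.Agent.Helper76.OB

private theorem decomp1 (y n : ℕ) (hn : n ≠ 0) :
    ∃ a b : ℕ, a ∈ Nat.smoothNumbers (y + 1) ∧ (∀ p : ℕ, p.Prime → p ∣ b → y < p) ∧
      a * b = n := by
  revert hn
  induction n using Nat.recOnMul with
  | zero => intro h; exact absurd rfl h
  | one =>
    intro _
    refine ⟨1, 1, ?_, ?_, rfl⟩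
    · rw [Nat.mem_smoothNumbers']
      intro p hp hd
      exact absurd (Nat.dvd_one.1 hd) hp.one_lt.ne'
    · intro p hp hd
      exact absurd (Nat.dvd_one.1 hd) hp.one_lt.ne'
  | prime q hq =>
    intro _
    by_cases h : q ≤ y
    · refine ⟨q, 1, ?_, ?_, mul_one q⟩
      · rw [Nat.mem_smoothNumbers']
        intro p hp hd
        rw [(Nat.prime_dvd_prime_iff_eq hp hq).1 hd]
        omega
      · intro p hp hd
        exact absurd (Nat.dvd_one.1 hd) hp.one_lt.ne'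
    · refine ⟨1, q, ?_, ?_, one_mul q⟩
      · rw [Nat.mem_smoothNumbers']
        intro p hp hd
        exact absurd (Nat.dvd_one.1 hd) hp.one_lt.ne'
      · intro p hp hd
        rw [(Nat.prime_dvd_prime_iff_eq hp hq).1 hd]
        omega
  | mul m n ihm ihn =>
    intro hmn
    obtain ⟨a, b, ha, hb, hab⟩ := ihm (left_ne_zero_of_mul hmn)
    obtain ⟨a', b', ha', hb', hab'⟩ := ihn (right_ne_zero_of_mul hmn)
    refine ⟨a * a', b * b', Nat.mul_mem_smoothNumbers ha ha', ?_, ?_⟩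
    · intro p hp hd
      rcases (Nat.Prime.dvd_mul hp).1 hd with h | h
      · exact hb p hp h
      · exact hb' p hp h
    · rw [← hab, ← hab']
      ring

private theorem decomp2 (y n : ℕ) (hn : n ≠ 0) :
    ∃ x : ℕ × ℕ × ℕ, x.1 ∈ Nat.smoothNumbers (y + 1) ∧ Squarefree x.2.1 ∧
      (∀ p : ℕ, p.Prime → p ∣ x.2.1 → y < p) ∧ x.1 * (x.2.1 * x.2.2 ^ 2) = n := by
  obtain ⟨a, b, ha, hb, hab⟩ := decomp1 y n hn
  obtain ⟨v, d, hvd, hv⟩ := Nat.sq_mul_squarefree b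
  refine ⟨(a, v, d), ha, hv, ?_, ?_⟩
  · intro p hp hd
    refine hb p hp ?_
    rw [← hvd]
    exact Dvd.dvd.mul_left hd _
  · rw [← hab, ← hvd]
    ring

private noncomputable def invHom : ℕ →* ℝ where
  toFun n := (n : ℝ)⁻¹
  map_one' := by simp
  map_mul' a b := by
    push_cast
    exact mul_inv _ _

private theorem smooth_sum (y : ℕ) (S : Finset ℕ) (hS : ∀ a ∈ S, a ∈ Nat.smoothNumbers (y + 1)) :
    ∑ a ∈ S, (1 : ℝ) / a ≤ ∏ p ∈ PR 1 y, (1 - 1 / (p : ℝ))⁻¹ := by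
  have hlt : ∀ {p : ℕ}, p.Prime → ‖invHom p‖ < 1 := by
    intro p hp
    show ‖(p : ℝ)⁻¹‖ < 1
    rw [norm_inv, Real.norm_natCast]
    exact inv_lt_one_of_one_lt₀ (by exact_mod_cast hp.one_lt)
  have h := (EulerProduct.summable_and_hasSum_smoothNumbers_prod_primesBelow_geometric hlt
    (y + 1)).2
  have hprod : ∏ p ∈ (y + 1).primesBelow, (1 - invHom p)⁻¹ =
      ∏ p ∈ PR 1 y, (1 - 1 / (p : ℝ))⁻¹ := by
    apply Finset.prod_congr
    · ext p
      rw [Nat.mem_primesBelow, mem_PR]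
      constructor
      · rintro ⟨h1, h2⟩
        exact ⟨⟨h2.one_lt, by omega⟩, h2⟩
      · rintro ⟨⟨h1, h3⟩, h2⟩
        exact ⟨by omega, h2⟩
    · intro p _
      show (1 - (p : ℝ)⁻¹)⁻¹ = _
      rw [one_div]
  rw [hprod] at h
  have h2 : ∑ a ∈ S, (1 : ℝ) / a =
      ∑ m ∈ S.subtype (fun a => a ∈ Nat.smoothNumbers (y + 1)), invHom m := by
    rw [← Finset.sum_subtype_of_mem (fun a : ℕ => (1 : ℝ) / a) hS]
    apply Finset.sum_congr rfl
    intro m _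
    show _ = ((m : ℕ) : ℝ)⁻¹
    rw [one_div]
  rw [h2]
  refine sum_le_hasSum _ (fun m _ => ?_) h
  show 0 ≤ ((m : ℕ) : ℝ)⁻¹
  positivity

theorem rough_sum : ∃ c : ℝ, 0 < c ∧ ∀ y V : ℕ, 2 ≤ y → y ≤ V →
    c * Real.log V / Real.log y ≤
      ∑ v ∈ (Finset.Icc 1 V).filter (fun v => Squarefree v ∧ ∀ p : ℕ, p.Prime → p ∣ v → y < p),
        (1 : ℝ) / v := by
  obtain ⟨C, hC, hM⟩ := mertens_product
  refine ⟨1 / (2 * C), by positivity, ?_⟩
  intro y V hy hyV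
  set R := (Finset.Icc 1 V).filter
    (fun v => Squarefree v ∧ ∀ p : ℕ, p.Prime → p ∣ v → y < p) with hR
  have hlogy : 0 < Real.log y := Real.log_pos (by exact_mod_cast (by omega : 1 < y))
  have hex : ∀ n : ℕ, ∃ x : ℕ × ℕ × ℕ, n ≠ 0 → x.1 ∈ Nat.smoothNumbers (y + 1) ∧
      Squarefree x.2.1 ∧ (∀ p : ℕ, p.Prime → p ∣ x.2.1 → y < p) ∧
      x.1 * (x.2.1 * x.2.2 ^ 2) = n := by
    intro n
    by_cases hn : n = 0
    · exact ⟨(0, 0, 0), fun h => absurd hn h⟩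
    · obtain ⟨x, hx⟩ := decomp2 y n hn
      exact ⟨x, fun _ => hx⟩
  choose g hg using hex
  set S := (Finset.Icc 1 V).filter (fun a => a ∈ Nat.smoothNumbers (y + 1)) with hSdef
  set D := Finset.Ioo 0 (V + 1) with hD
  have hmem : ∀ n ∈ Finset.Icc 1 V, g n ∈ S ×ˢ (R ×ˢ D) := by
    intro n hn
    rw [Finset.mem_Icc] at hn
    obtain ⟨h1, h2, h3, h4⟩ := hg n (by omega)
    have hn0 : 0 < n := by omega
    have d1 : (g n).1 ∣ n := Dvd.intro _ h4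
    have d2 : (g n).2.1 * (g n).2.2 ^ 2 ∣ n := Dvd.intro_left _ h4
    have d3 : (g n).2.1 ∣ n := (Dvd.intro _ rfl : (g n).2.1 ∣ (g n).2.1 * (g n).2.2 ^ 2).trans d2
    have d4 : (g n).2.2 ∣ n := by
      refine Dvd.dvd.trans ?_ d2
      exact Dvd.dvd.mul_left (dvd_pow_self _ two_ne_zero) _
    have p1 := Nat.pos_of_dvd_of_pos d1 hn0
    have p3 := Nat.pos_of_dvd_of_pos d3 hn0
    have p4 := Nat.pos_of_dvd_of_pos d4 hn0
    have l1 := Nat.le_of_dvd hn0 d1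
    have l3 := Nat.le_of_dvd hn0 d3
    have l4 := Nat.le_of_dvd hn0 d4
    rw [Finset.mem_product, Finset.mem_product]
    refine ⟨?_, ?_, ?_⟩
    · rw [hSdef, Finset.mem_filter, Finset.mem_Icc]
      exact ⟨⟨p1, by omega⟩, h1⟩
    · rw [hR, Finset.mem_filter, Finset.mem_Icc]
      exact ⟨⟨p3, by omega⟩, h2, h3⟩
    · rw [hD, Finset.mem_Ioo]
      exact ⟨p4, by omega⟩
  have hval : ∀ n ∈ Finset.Icc 1 V, ((n : ℝ))⁻¹ =
      (1 / ((g n).1 : ℝ)) * ((1 / ((g n).2.1 : ℝ)) * (((g n).2.2 : ℝ) ^ 2)⁻¹) := by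
    intro n hn
    rw [Finset.mem_Icc] at hn
    obtain ⟨-, -, -, h4⟩ := hg n (by omega)
    have h5 : ((g n).1 : ℝ) * (((g n).2.1 : ℝ) * ((g n).2.2 : ℝ) ^ 2) = n := by exact_mod_cast h4
    rw [← h5, mul_inv, mul_inv, one_div, one_div]
  have hinj : Set.InjOn g (Finset.Icc 1 V : Finset ℕ) := by
    intro n hn m hm hnm
    rw [Finset.mem_coe, Finset.mem_Icc] at hn hm
    obtain ⟨-, -, -, h4⟩ := hg n (by omega)
    obtain ⟨-, -, -, h4'⟩ := hg m (by omega)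
    rw [← h4, ← h4', hnm]
  have hsum : ∑ n ∈ Finset.Icc 1 V, ((n : ℝ))⁻¹ ≤
      (∑ a ∈ S, (1 : ℝ) / a) * ((∑ v ∈ R, (1 : ℝ) / v) * ∑ d ∈ D, ((d : ℝ) ^ 2)⁻¹) := by
    have hprod : ∑ x ∈ S ×ˢ (R ×ˢ D), (1 / (x.1 : ℝ)) * ((1 / (x.2.1 : ℝ)) *
        (((x.2.2 : ℕ) : ℝ) ^ 2)⁻¹) =
        (∑ a ∈ S, (1 : ℝ) / a) * ((∑ v ∈ R, (1 : ℝ) / v) * ∑ d ∈ D, ((d : ℝ) ^ 2)⁻¹) := by
      rw [Finset.sum_product]
      simp only [← Finset.mul_sum]
      rw [← Finset.sum_mul]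
      congr 1
      rw [Finset.sum_product]
      simp only [← Finset.mul_sum]
      rw [← Finset.sum_mul]
    rw [← hprod, Finset.sum_congr rfl hval]
    rw [← Finset.sum_image (g := g) (f := fun x : ℕ × ℕ × ℕ => (1 / (x.1 : ℝ)) *
      ((1 / (x.2.1 : ℝ)) * (((x.2.2 : ℕ) : ℝ) ^ 2)⁻¹)) hinj]
    apply Finset.sum_le_sum_of_subset_of_nonneg
    · intro x hx
      obtain ⟨n, hn, rfl⟩ := Finset.mem_image.1 hx
      exact hmem n hn
    · intro x _ _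
      positivity
  have hD2 : ∑ d ∈ D, ((d : ℝ) ^ 2)⁻¹ ≤ 2 := by
    have := sum_Ioo_inv_sq_le (α := ℝ) 0 (V + 1)
    simpa using this
  have hSle : ∑ a ∈ S, (1 : ℝ) / a ≤ C * Real.log y :=
    (smooth_sum y S fun a ha => (Finset.mem_filter.1 ha).2).trans (hM y hy)
  have hR0 : 0 ≤ ∑ v ∈ R, (1 : ℝ) / v := Finset.sum_nonneg fun v _ => by positivity
  have hD0 : 0 ≤ ∑ d ∈ D, ((d : ℝ) ^ 2)⁻¹ := Finset.sum_nonneg fun v _ => by positivity
  have hharm : Real.log V ≤ ∑ n ∈ Finset.Icc 1 V, ((n : ℝ))⁻¹ := by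
    have h := log_add_one_le_harmonic V
    rw [harmonic_eq_sum_Icc] at h
    push_cast at h
    refine le_trans ?_ h
    apply Real.log_le_log
    · exact_mod_cast (by omega : 0 < V)
    · linarith
  have hfin : Real.log V ≤ (C * Real.log y) * ((∑ v ∈ R, (1 : ℝ) / v) * 2) := by
    refine (hharm.trans hsum).trans ?_
    refine mul_le_mul hSle (mul_le_mul_of_nonneg_left hD2 hR0) (by positivity) (by positivity)
  rw [div_le_iff₀ hlogy, one_div, inv_mul_le_iff₀ (by positivity)]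
  linarith

end Pool.Agent.Helper76.OB
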