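import Pool.Agent.Helper76.OB.LSA
import Pool.Agent.Helper76.OB.ROU

set_option autoImplicit false

/-!
# OB module LSM: lower bound for the large sieve sum

Let `g(p) = ω(p)/(p - ω(p))`, `ω = om y P`. So `g(p) ≥ 1/(p-1)` for all primes and
`g(p) = 2/(p-2) ≥ 2/(p-1)` for `y < p ≤ P` (`p ≥ 3` as `y ≥ 2`). For squarefree `q`:
`∏_{p∣q} g(p) ≥ 2^{#{p ∣ q : y < p ≤ P}}/φ(q) = ∑_{v ∣ q, v composed of primes in (y,P]} 1/φ(q)`.
Hence, with `R = √X` (`Nat.sqrt X`, `P ≤ R`):
`LS ω X ≥ ∑_{v ≤ P, v squarefree, p∣v → y<p} (1/φ(v)) ∑_{u ≤ R, u squarefree, (u,v)=1} 1/φ(u)`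
(the pair `(u,v)` gives `q = u v ≤ R² ≤ X`, squarefree, and for fixed `q` different pairs have different
`v ∣ q`; primes dividing `v ≤ P` are automatically `≤ P`)
`≥ ∑_v (1/φ(v)) (φ(v)/v) log(R+1)/2 ≥ (log X/4) ∑_v 1/v ≥ c log X log P/log y`
by `sum_coprime` and `rough_sum` (`V = P`).
-/

open Filter Classical

namespace Pool.Agent.Helper76.OB

private lemma lsm_tot {q : ℕ} (hq : Squarefree q) :
    (Nat.totient q : ℝ) = ∏ p ∈ q.primeFactors, ((p : ℝ) - 1) := by
  have h1 := Nat.totient_mul_prod_primeFactors q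
  rw [Nat.prod_primeFactors_of_squarefree hq] at h1
  have hq0 : q ≠ 0 := hq.ne_zero
  have h2 : Nat.totient q = ∏ p ∈ q.primeFactors, (p - 1) := by
    apply Nat.eq_of_mul_eq_mul_left (Nat.pos_of_ne_zero hq0)
    rw [← h1, mul_comm]
  rw [h2, Nat.cast_prod]
  refine Finset.prod_congr rfl fun p hp => ?_
  have := (Nat.prime_of_mem_primeFactors hp).one_lt
  rw [Nat.cast_sub (by omega)]
  norm_num

private lemma lsm_pos {q : ℕ} (hq : Squarefree q) :
    0 < ∏ p ∈ q.primeFactors, ((p : ℝ) - 1) := by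
  refine Finset.prod_pos fun p hp => ?_
  have h1 := (Nat.prime_of_mem_primeFactors hp).one_lt
  have : (1 : ℝ) < (p : ℝ) := by exact_mod_cast h1
  linarith

/-- lower bound for the weight of one squarefree number -/
private lemma lsm_wt {y P q : ℕ} (hy : 2 ≤ y) (hq : Squarefree q) :
    (2 : ℝ) ^ (q.primeFactors.filter (fun p => y < p ∧ p ≤ P)).card / (Nat.totient q : ℝ) ≤
      ∏ p ∈ q.primeFactors, (om y P p : ℝ) / ((p : ℝ) - om y P p) := by
  have h1 : (2 : ℝ) ^ (q.primeFactors.filter (fun p => y < p ∧ p ≤ P)).card =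
      ∏ p ∈ q.primeFactors, (if y < p ∧ p ≤ P then (2 : ℝ) else 1) := by
    rw [Finset.prod_ite, Finset.prod_const, Finset.prod_const_one, mul_one]
  rw [h1, lsm_tot hq, ← Finset.prod_div_distrib]
  refine Finset.prod_le_prod ?_ ?_
  · intro p hp
    have h2 : (1 : ℝ) < (p : ℝ) := by exact_mod_cast (Nat.prime_of_mem_primeFactors hp).one_lt
    have h3 : (0 : ℝ) < (p : ℝ) - 1 := by linarith
    split_ifs <;> positivity
  · intro p hp
    have h2 : (1 : ℝ) < (p : ℝ) := by exact_mod_cast (Nat.prime_of_mem_primeFactors hp).one_lt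
    unfold om
    split_ifs with h
    · have h3 : (3 : ℝ) ≤ (p : ℝ) := by exact_mod_cast (by omega : 3 ≤ p)
      push_cast
      apply div_le_div_of_nonneg_left (by norm_num) (by linarith) (by linarith)
    · simp

theorem LS_lower : ∃ c : ℝ, 0 < c ∧ ∀ y P X : ℕ, 2 ≤ y → y ≤ P → P ^ 2 ≤ X →
    c * Real.log X * Real.log P / Real.log y ≤ LS (om y P) X := by
  obtain ⟨c, hc, hrs⟩ := rough_sum
  refine ⟨c / 4, by positivity, fun y P X hy hyP hPX => ?_⟩
  set R := Nat.sqrt X with hR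
  set V := (Finset.Icc 1 P).filter (fun v => Squarefree v ∧ ∀ p : ℕ, p.Prime → p ∣ v → y < p)
    with hV
  set U : ℕ → Finset ℕ := fun v => (Finset.Icc 1 R).filter (fun u => Squarefree u ∧ u.Coprime v)
    with hU
  have hPR : P ≤ R := by
    rw [hR, Nat.le_sqrt']
    exact hPX
  have hX4 : 4 ≤ X := by nlinarith
  -- step 1
  have s1 : ∑ q ∈ (Finset.Icc 1 X).filter Squarefree,
      (2 : ℝ) ^ (q.primeFactors.filter (fun p => y < p ∧ p ≤ P)).card / (Nat.totient q : ℝ) ≤
      LS (om y P) X := by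
    unfold LS
    refine Finset.sum_le_sum fun q hq => ?_
    rw [Finset.mem_filter] at hq
    exact lsm_wt hy hq.2
  -- step 2
  have s2 : ∑ v ∈ V, ∑ u ∈ U v, (1 : ℝ) / (Nat.totient v : ℝ) * (1 / (Nat.totient u : ℝ)) ≤
      ∑ q ∈ (Finset.Icc 1 X).filter Squarefree,
      (2 : ℝ) ^ (q.primeFactors.filter (fun p => y < p ∧ p ≤ P)).card / (Nat.totient q : ℝ) := by
    rw [Finset.sum_sigma']
    have hmem : ∀ x ∈ V.sigma U, (1 ≤ x.1 ∧ x.1 ≤ P) ∧ Squarefree x.1 ∧
        (∀ p : ℕ, p.Prime → p ∣ x.1 → y < p) ∧ (1 ≤ x.2 ∧ x.2 ≤ R) ∧ Squarefree x.2 ∧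
        x.2.Coprime x.1 := by
      intro x hx
      rw [Finset.mem_sigma, hV, Finset.mem_filter, Finset.mem_Icc] at hx
      obtain ⟨⟨h1, h2, h3⟩, h4⟩ := hx
      simp only [hU, Finset.mem_filter, Finset.mem_Icc] at h4
      exact ⟨h1, h2, h3, h4.1, h4.2.1, h4.2.2⟩
    have hmaps : ∀ x ∈ V.sigma U, x.1 * x.2 ∈ (Finset.Icc 1 X).filter Squarefree := by
      intro x hx
      obtain ⟨h1, h2, h3, h4, h5, h6⟩ := hmem x hx
      rw [Finset.mem_filter, Finset.mem_Icc]
      refine ⟨⟨Nat.mul_pos h1.1 h4.1, ?_⟩, (Nat.squarefree_mul h6.symm).mpr ⟨h2, h5⟩⟩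
      calc x.1 * x.2 ≤ R * R := Nat.mul_le_mul (h1.2.trans hPR) h4.2
        _ ≤ X := Nat.sqrt_le X
    rw [← Finset.sum_fiberwise_of_maps_to hmaps]
    refine Finset.sum_le_sum fun q hq => ?_
    rw [Finset.mem_filter] at hq
    have hterm : ∀ x ∈ (V.sigma U).filter (fun x => x.1 * x.2 = q),
        (1 : ℝ) / (Nat.totient x.1 : ℝ) * (1 / (Nat.totient x.2 : ℝ)) =
          1 / (Nat.totient q : ℝ) := by
      intro x hx
      rw [Finset.mem_filter] at hx
      obtain ⟨h1, h2, h3, h4, h5, h6⟩ := hmem x hx.1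
      rw [← hx.2, Nat.totient_mul h6.symm, Nat.cast_mul, one_div_mul_one_div]
    rw [Finset.sum_congr rfl hterm, Finset.sum_const, nsmul_eq_mul, mul_one_div]
    refine div_le_div_of_nonneg_right ?_ (Nat.cast_nonneg _)
    have hcard : ((V.sigma U).filter (fun x => x.1 * x.2 = q)).card ≤
        ((q.primeFactors.filter (fun p => y < p ∧ p ≤ P)).powerset).card := by
      refine Finset.card_le_card_of_injOn (fun x => x.1.primeFactors) ?_ ?_
      · intro x hx
        rw [Finset.mem_coe, Finset.mem_filter] at hx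
        obtain ⟨h1, h2, h3, h4, h5, h6⟩ := hmem x hx.1
        rw [Finset.mem_coe, Finset.mem_powerset]
        intro p hp
        have hpp := Nat.prime_of_mem_primeFactors hp
        have hpd := Nat.dvd_of_mem_primeFactors hp
        rw [Finset.mem_filter, Nat.mem_primeFactors]
        refine ⟨⟨hpp, ?_, hq.2.ne_zero⟩, h3 p hpp hpd, (Nat.le_of_dvd h1.1 hpd).trans h1.2⟩
        rw [← hx.2]
        exact hpd.mul_right _
      · intro x hx x' hx' he
        rw [Finset.mem_coe, Finset.mem_filter] at hx hx'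
        obtain ⟨h1, h2, -⟩ := hmem x hx.1
        obtain ⟨h1', h2', -⟩ := hmem x' hx'.1
        have he' : x.1.primeFactors = x'.1.primeFactors := he
        have e1 : x.1 = x'.1 := by
          rw [← Nat.prod_primeFactors_of_squarefree h2, he',
            Nat.prod_primeFactors_of_squarefree h2']
        have e2 : x.2 = x'.2 := by
          have h7 := hx.2.trans hx'.2.symm
          rw [e1] at h7
          exact Nat.eq_of_mul_eq_mul_left h1'.1 h7
        obtain ⟨a, b⟩ := x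
        obtain ⟨a', b'⟩ := x'
        simp only at e1 e2
        rw [e1, e2]
    rw [Finset.card_powerset] at hcard
    exact_mod_cast hcard
  -- step 3
  have s3 : (∑ v ∈ V, (1 : ℝ) / v) * (Real.log (R + 1) / 2) ≤
      ∑ v ∈ V, ∑ u ∈ U v, (1 : ℝ) / (Nat.totient v : ℝ) * (1 / (Nat.totient u : ℝ)) := by
    rw [Finset.sum_mul]
    refine Finset.sum_le_sum fun v hv => ?_
    rw [hV, Finset.mem_filter, Finset.mem_Icc] at hv
    rw [← Finset.mul_sum]
    have h1 := sum_coprime v R hv.1.1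
    have hφ : (0 : ℝ) < (Nat.totient v : ℝ) := by
      exact_mod_cast Nat.totient_pos.mpr (by omega)
    have hv0 : (0 : ℝ) < (v : ℝ) := by exact_mod_cast (by omega : 0 < v)
    calc (1 : ℝ) / v * (Real.log (R + 1) / 2) =
        1 / (Nat.totient v : ℝ) * (((Nat.totient v : ℝ) / v) * (Real.log (R + 1) / 2)) := by
          field_simp
      _ ≤ _ := mul_le_mul_of_nonneg_left h1 (by positivity)
  have s4 := hrs y P hy hyP
  have hlogX : 0 ≤ Real.log X := Real.log_natCast_nonneg X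
  have s5 : Real.log X / 4 ≤ Real.log (R + 1) / 2 := by
    have h1 : X < (R + 1) * (R + 1) := Nat.lt_succ_sqrt X
    have h2 : (X : ℝ) ≤ ((R : ℝ) + 1) ^ 2 := by
      have : (X : ℝ) < ((R : ℝ) + 1) * ((R : ℝ) + 1) := by exact_mod_cast h1
      nlinarith
    have h3 : Real.log X ≤ Real.log (((R : ℝ) + 1) ^ 2) :=
      Real.log_le_log (by exact_mod_cast (by omega : 0 < X)) h2
    rw [Real.log_pow] at h3
    push_cast at h3
    linarith
  have hs0 : 0 ≤ ∑ v ∈ V, (1 : ℝ) / v := Finset.sum_nonneg fun v _ => by positivity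
  calc c / 4 * Real.log X * Real.log P / Real.log y
      = (c * Real.log P / Real.log y) * (Real.log X / 4) := by ring
    _ ≤ (∑ v ∈ V, (1 : ℝ) / v) * (Real.log X / 4) :=
        mul_le_mul_of_nonneg_right s4 (by linarith)
    _ ≤ (∑ v ∈ V, (1 : ℝ) / v) * (Real.log (R + 1) / 2) :=
        mul_le_mul_of_nonneg_left s5 hs0
    _ ≤ _ := s3.trans (s2.trans s1)

/-- one class everywhere -/
theorem LS_one (X : ℕ) : Real.log (X + 1) / 2 ≤ LS (fun _ => 1) X := by
  have h1 := sum_coprime 1 X le_rfl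
  rw [Nat.totient_one, Nat.cast_one, div_one, one_mul] at h1
  refine h1.trans (le_of_eq ?_)
  unfold LS
  have h2 : (Finset.Icc 1 X).filter (fun u => Squarefree u ∧ u.Coprime 1) =
      (Finset.Icc 1 X).filter Squarefree := by
    ext u
    simp
  rw [h2]
  refine Finset.sum_congr rfl fun q hq => ?_
  rw [Finset.mem_filter] at hq
  rw [lsm_tot hq.2, one_div, ← Finset.prod_inv_distrib]
  refine Finset.prod_congr rfl fun p _ => ?_
  rw [Nat.cast_one, one_div]

end Pool.Agent.Helper76.OB
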