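import Pool.Agent.Helper76.OB.LSV
import Pool.Agent.Helper76.OB.LSM

set_option autoImplicit false

/-!
# OB module CNT: the basic sieve bound

`arith_large_sieve` with `X = √N` (`Nat.sqrt N`), `M = N + 1`, length `N - 1`, `ω = om y P`:
the set `A` of the statement misses, mod `p`,
* for `p ≤ y` the class `cl T0 p` (`0` or `1`),
* for `y < p ≤ P` the classes `0` and `1` (`m ∈ Core`: `p ∤ m`; and `p ∤ m - 1`),
* for `P < p ≤ X` the class `0`.
`P² ≤ √N` follows from `P⁴ ≤ N`; `log (Nat.sqrt N) ≥ c log N` for `N ≥ 16`.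
So `#A ≤ 15 N / LS ≤ C N log y / (log P log N)`.
(`P = y` gives `#Core ≤ C N / log N`.)
-/

open Filter Classical

namespace Pool.Agent.Helper76.OB

/-- A set of residues which misses one class. -/
lemma card_miss_one {p : ℕ} (S : Finset ℕ) (h : ∀ x ∈ S, x < p) {c : ℕ} (hc : c < p)
    (h0 : c ∉ S) : S.card + 1 ≤ p := by
  have h1 : S ⊆ (Finset.range p).erase c := by
    intro x hx
    rw [Finset.mem_erase, Finset.mem_range]
    exact ⟨fun h => h0 (h ▸ hx), h x hx⟩
  have h2 := Finset.card_le_card h1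
  rw [Finset.card_erase_of_mem (Finset.mem_range.mpr hc), Finset.card_range] at h2
  omega

/-- A set of residues which misses two classes. -/
lemma card_miss_two {p : ℕ} (S : Finset ℕ) (h : ∀ x ∈ S, x < p) (hp : 2 ≤ p)
    (h0 : 0 ∉ S) (h1 : 1 ∉ S) : S.card + 2 ≤ p := by
  have h2 : S ⊆ ((Finset.range p).erase 0).erase 1 := by
    intro x hx
    rw [Finset.mem_erase, Finset.mem_erase, Finset.mem_range]
    exact ⟨fun h => h1 (h ▸ hx), fun h => h0 (h ▸ hx), h x hx⟩
  have h3 := Finset.card_le_card h2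
  rw [Finset.card_erase_of_mem, Finset.card_erase_of_mem, Finset.card_range] at h3
  · omega
  · exact Finset.mem_range.mpr (by omega)
  · rw [Finset.mem_erase, Finset.mem_range]
    exact ⟨one_ne_zero, by omega⟩

theorem count_two : ∃ C : ℝ, 0 < C ∧ ∀ N y P : ℕ, ∀ T0 : Finset ℕ, 2 ≤ y → y ≤ P → P ^ 4 ≤ N →
    (((Core N y T0).filter (fun m => ∀ p ∈ PR y P, ¬ p ∣ m - 1)).card : ℝ) ≤
      C * N * Real.log y / (Real.log P * Real.log N) := by
  obtain ⟨c, hc, hLS⟩ := LS_lower
  refine ⟨60 / c, by positivity, ?_⟩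
  intro N y P T0 hy hyP hPN
  have hP2 : 2 ≤ P := hy.trans hyP
  have hN16 : 16 ≤ N := by
    calc 16 = 2 ^ 4 := by norm_num
      _ ≤ P ^ 4 := Nat.pow_le_pow_left hP2 4
      _ ≤ N := hPN
  set X := Nat.sqrt N with hX
  have hPX : P ^ 2 ≤ X := by
    rw [hX, Nat.le_sqrt]
    calc P ^ 2 * P ^ 2 = P ^ 4 := by ring
      _ ≤ N := hPN
  have hPX' : P ≤ X := by
    calc P = P ^ 1 := (pow_one P).symm
      _ ≤ P ^ 2 := Nat.pow_le_pow_right (by omega) (by norm_num)
      _ ≤ X := hPX
  have hX2 : 2 ≤ X := hP2.trans hPX'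
  have hXN : X ^ 2 ≤ N := by
    rw [hX, pow_two]
    exact Nat.sqrt_le N
  have hNX : N < (X + 1) ^ 2 := by
    rw [hX, pow_two]
    exact Nat.lt_succ_sqrt N
  set A := (Core N y T0).filter (fun m => ∀ p ∈ PR y P, ¬ p ∣ m - 1) with hA
  have hmem : ∀ m ∈ A, (N < m ∧ m ≤ 2 * N) ∧ Sur T0 (PR 1 y) m ∧ (∀ p ∈ PR y X, ¬ p ∣ m) ∧
      ∀ p ∈ PR y P, ¬ p ∣ m - 1 := by
    intro m hm
    rw [hA, Finset.mem_filter, Core, Finset.mem_filter, Finset.mem_Ioc] at hm
    exact ⟨hm.1.1, hm.1.2.1, hm.1.2.2, hm.2⟩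
  have hsub : A ⊆ Finset.Icc (N + 1) (N + 1 + (N - 1)) := by
    intro m hm
    obtain ⟨⟨h1, h2⟩, -⟩ := hmem m hm
    rw [Finset.mem_Icc]
    omega
  have key := arith_large_sieve X (N + 1) (N - 1) A hsub (om y P)
    (fun p hp hpX => by
      unfold om
      split_ifs with h
      · omega
      · exact hp.one_lt)
    (fun p hp hpX => by
      have hlt : ∀ x ∈ A.image (fun n => n % p), x < p := by
        intro x hx
        obtain ⟨n, -, rfl⟩ := Finset.mem_image.mp hx
        exact Nat.mod_lt _ hp.pos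
      unfold om
      split_ifs with h
      · refine card_miss_two _ hlt hp.two_le ?_ ?_
        · intro h0
          obtain ⟨n, hn, hn0⟩ := Finset.mem_image.mp h0
          obtain ⟨-, -, h3, -⟩ := hmem n hn
          exact h3 p (mem_PR.mpr ⟨⟨h.1, hpX⟩, hp⟩) (Nat.dvd_of_mod_eq_zero hn0)
        · intro h0
          obtain ⟨n, hn, hn0⟩ := Finset.mem_image.mp h0
          obtain ⟨⟨h1, -⟩, -, -, h4⟩ := hmem n hn
          refine h4 p (mem_PR.mpr ⟨h, hp⟩) ?_
          refine (Nat.modEq_iff_dvd' (by omega)).mp ?_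
          change 1 % p = n % p
          rw [show n % p = 1 from hn0, Nat.mod_eq_of_lt hp.one_lt]
      · by_cases hpy : p ≤ y
        · refine card_miss_one _ hlt (c := cl T0 p) ?_ ?_
          · unfold cl
            split_ifs
            · exact hp.one_lt
            · exact hp.pos
          · intro h0
            obtain ⟨n, hn, hn0⟩ := Finset.mem_image.mp h0
            obtain ⟨-, h2, -, -⟩ := hmem n hn
            refine h2 p (mem_PR.mpr ⟨⟨hp.one_lt, hpy⟩, hp⟩) ?_
            change n % p = cl T0 p % p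
            have hcl : cl T0 p < p := by
              unfold cl
              split_ifs
              · exact hp.one_lt
              · exact hp.pos
            rw [show n % p = cl T0 p from hn0, Nat.mod_eq_of_lt hcl]
        · refine card_miss_one _ hlt (c := 0) hp.pos ?_
          intro h0
          obtain ⟨n, hn, hn0⟩ := Finset.mem_image.mp h0
          obtain ⟨-, -, h3, -⟩ := hmem n hn
          exact h3 p (mem_PR.mpr ⟨⟨by omega, hpX⟩, hp⟩) (Nat.dvd_of_mod_eq_zero hn0))
  have hLS' := hLS y P X hy hyP hPX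
  have hlogy : 0 < Real.log y := Real.log_pos (by exact_mod_cast (by omega : 1 < y))
  have hlogP : 0 < Real.log P := Real.log_pos (by exact_mod_cast (by omega : 1 < P))
  have hlogX : 0 < Real.log X := Real.log_pos (by exact_mod_cast (by omega : 1 < X))
  have hlogN : 0 < Real.log N := Real.log_pos (by exact_mod_cast (by omega : 1 < N))
  have hlogNX : Real.log N ≤ 4 * Real.log X := by
    have h1 : (N : ℝ) ≤ (X : ℝ) ^ 4 := by
      have h2 : X + 1 ≤ X ^ 2 := by nlinarith
      have h3 : (X + 1) ^ 2 ≤ (X ^ 2) ^ 2 := Nat.pow_le_pow_left h2 2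
      have h4 : N ≤ X ^ 4 := by
        calc N ≤ (X + 1) ^ 2 := hNX.le
          _ ≤ (X ^ 2) ^ 2 := h3
          _ = X ^ 4 := by ring
      exact_mod_cast h4
    have h5 := Real.log_le_log (by exact_mod_cast (by omega : 0 < N)) h1
    rwa [Real.log_pow] at h5
  have hN0 : (0 : ℝ) < N := by exact_mod_cast (by omega : 0 < N)
  have hkey : (A.card : ℝ) * LS (om y P) X ≤ 15 * N := by
    have h1 : (X : ℝ) ^ 2 ≤ N := by exact_mod_cast hXN
    have h2 : (((N - 1 : ℕ) : ℝ)) + 1 = N := by
      rw [Nat.cast_sub (by omega)]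
      push_cast
      ring
    rw [h2] at key
    linarith
  have h6 : (A.card : ℝ) * (c * Real.log X * Real.log P / Real.log y) ≤ 15 * N :=
    (mul_le_mul_of_nonneg_left hLS' (Nat.cast_nonneg _)).trans hkey
  have h7 : (A.card : ℝ) * (c * (Real.log N / 4) * Real.log P / Real.log y) ≤ 15 * N := by
    refine le_trans (mul_le_mul_of_nonneg_left ?_ (Nat.cast_nonneg _)) h6
    apply div_le_div_of_nonneg_right _ hlogy.le
    apply mul_le_mul_of_nonneg_right _ hlogP.le
    apply mul_le_mul_of_nonneg_left _ hc.le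
    linarith
  rw [le_div_iff₀ (by positivity)]
  have h8 : (A.card : ℝ) * (Real.log P * Real.log N) =
      ((A.card : ℝ) * (c * (Real.log N / 4) * Real.log P / Real.log y)) * (4 * Real.log y / c) := by
    field_simp
  rw [h8]
  calc _ ≤ 15 * N * (4 * Real.log y / c) := mul_le_mul_of_nonneg_right h7 (by positivity)
    _ = 60 / c * N * Real.log y := by ring

end Pool.Agent.Helper76.OB
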