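import Pool.Agent.Helper76.OB.CNT

set_option autoImplicit false

/-!
# OB module CST: the total cost and the number of uncontrolled core elements

`p1 y m` is the least prime `> y` dividing `m - 1` (`0` if none).

Cost: put the `m` with `0 < p1`, `p1⁸ ≤ N` into the classes `P_i < p1 y m ≤ P_{i+1}`,
`P_i = y^(2^i)`, `i ≥ 0`, `P_i⁸ ≤ N` (so `P_i⁴ ≤ N`), i.e. `2^i ≤ log N/(8 log y)`, so there are at most
`C log log N` classes. In class `i` no prime of `(y, P_i]` divides `m - 1`, so by `count_two` it has at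
most `C N log y/(2^i log y log N)` elements, and each costs `log p1 ≤ 2^(i+1) log y`: total
`≤ 2 C N log y/log N` per class.

Uncontrolled: if `P⁸ ≤ N < (P+1)⁸` then `p1 y m = 0` or `p1⁸ > N` means that no prime in `(y, P]`
divides `m - 1`; `count_two` gives `≤ C N log y/(log P log N)` and `log P ≥ c log N`.
-/

open Filter Classical

namespace Pool.Agent.Helper76.OB

private lemma CST_no_div {y m P : ℕ} (h : p1 y m = 0 ∨ P < p1 y m) :
    ∀ p ∈ PR y P, ¬ p ∣ m - 1 := by
  intro p hp hd
  rw [mem_PR] at hp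
  have hmem : p ∈ {q : ℕ | q.Prime ∧ y < q ∧ q ∣ m - 1} := ⟨hp.2, hp.1.1, hd⟩
  have h1 : p1 y m ≤ p := Nat.sInf_le hmem
  have h2 : p1 y m ∈ {q : ℕ | q.Prime ∧ y < q ∧ q ∣ m - 1} := Nat.sInf_mem ⟨p, hmem⟩
  have h3 : 0 < p1 y m := h2.1.pos
  rcases h with h | h
  · omega
  · omega

private lemma CST_gt {y m : ℕ} (h : 0 < p1 y m) : y < p1 y m := by
  have hne : {p : ℕ | p.Prime ∧ y < p ∧ p ∣ m - 1}.Nonempty := by
    by_contra hc
    rw [Set.not_nonempty_iff_eq_empty] at hc
    rw [p1, hc, Nat.sInf_empty] at h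
    exact lt_irrefl _ h
  exact (Nat.sInf_mem hne).2.1

theorem cost_sum : ∃ C : ℝ, 0 < C ∧ ∀ N y : ℕ, ∀ T0 : Finset ℕ, 2 ≤ y → y ^ 8 ≤ N →
    ∑ m ∈ (Core N y T0).filter (fun m => 0 < p1 y m ∧ (p1 y m) ^ 8 ≤ N), Real.log (p1 y m) ≤
      C * N * Real.log y * Real.log (Real.log N) / Real.log N := by
  obtain ⟨C, hC, hct⟩ := count_two
  refine ⟨6 * C, by positivity, ?_⟩
  intro N y T0 hy hN
  have hy1 : (1 : ℝ) < y := by exact_mod_cast (by omega : 1 < y)
  have hly : Real.log 2 ≤ Real.log y := Real.log_le_log (by norm_num) (by exact_mod_cast hy)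
  have hl2 := Real.log_two_gt_d9
  have hly0 : 0 < Real.log y := by linarith
  have hN256 : 256 ≤ N := by
    calc 256 = 2 ^ 8 := by norm_num
      _ ≤ y ^ 8 := Nat.pow_le_pow_left hy 8
      _ ≤ N := hN
  have hN0 : (0 : ℝ) < N := by exact_mod_cast (by omega : 0 < N)
  have hlN : 8 * Real.log 2 ≤ Real.log N := by
    have h1 : Real.log (2 ^ 8 : ℝ) ≤ Real.log N :=
      Real.log_le_log (by norm_num) (by exact_mod_cast hN256)
    rw [Real.log_pow] at h1
    exact_mod_cast h1
  have hlN0 : 0 < Real.log N := by linarith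
  have hllN : 1 ≤ Real.log (Real.log N) := by
    rw [Real.le_log_iff_exp_le hlN0]
    have := Real.exp_one_lt_d9
    linarith
  set K : ℕ := ⌊Real.log (Real.log N) / Real.log 2⌋₊ with hK
  set S := (Core N y T0).filter (fun m => 0 < p1 y m ∧ (p1 y m) ^ 8 ≤ N) with hS
  set ix : ℕ → ℕ := fun m => Nat.log 2 (Nat.log y (p1 y m - 1)) with hix
  have hlow : ∀ m ∈ S, y ^ (2 ^ ix m) ≤ p1 y m - 1 := by
    intro m hm
    rw [hS, Finset.mem_filter] at hm
    have h1 := CST_gt hm.2.1
    have h2 : Nat.log y (p1 y m - 1) ≠ 0 := by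
      have : 1 ≤ Nat.log y (p1 y m - 1) := by
        rw [Nat.le_log_iff_pow_le (by omega) (by omega)]
        rw [pow_one]; omega
      omega
    have h3 : 2 ^ ix m ≤ Nat.log y (p1 y m - 1) := Nat.pow_log_le_self 2 h2
    rwa [Nat.le_log_iff_pow_le (by omega) (by omega)] at h3
  have hupp : ∀ m ∈ S, p1 y m ≤ y ^ (2 ^ (ix m + 1)) := by
    intro m hm
    rw [hS, Finset.mem_filter] at hm
    have h1 := CST_gt hm.2.1
    have h3 : Nat.log y (p1 y m - 1) < 2 ^ (ix m + 1) := Nat.lt_pow_succ_log_self (by norm_num) _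
    have h4 : p1 y m - 1 < y ^ (2 ^ (ix m + 1)) := by
      by_contra hc
      push Not at hc
      rw [← Nat.le_log_iff_pow_le (by omega) (by omega)] at hc
      omega
    omega
  have hP8 : ∀ m ∈ S, (y ^ (2 ^ ix m)) ^ 8 ≤ N := by
    intro m hm
    have h1 := hlow m hm
    rw [hS, Finset.mem_filter] at hm
    exact (Nat.pow_le_pow_left (h1.trans (Nat.sub_le _ _)) 8).trans hm.2.2
  have hixK : ∀ m ∈ S, ix m ∈ Finset.range (K + 1) := by
    intro m hm
    rw [Finset.mem_range, Nat.lt_succ_iff, hK, Nat.le_floor_iff (by positivity),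
      le_div_iff₀ (by linarith)]
    have h1 : Real.log (((y : ℝ) ^ (2 ^ ix m)) ^ 8) ≤ Real.log N :=
      Real.log_le_log (by positivity) (by exact_mod_cast hP8 m hm)
    rw [Real.log_pow, Real.log_pow] at h1
    push_cast at h1
    have h2 : (2 : ℝ) ^ ix m ≤ Real.log N := by
      have h3 : (0 : ℝ) < 2 ^ ix m := by positivity
      have h4 : (2 : ℝ) ^ ix m * 1 ≤ 2 ^ ix m * (8 * Real.log y) :=
        mul_le_mul_of_nonneg_left (by linarith) h3.le
      linarith
    rw [← Real.log_pow]
    exact Real.log_le_log (by positivity) h2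
  rw [← Finset.sum_fiberwise_of_maps_to hixK]
  have hclass : ∀ i ∈ Finset.range (K + 1), ∑ m ∈ S.filter (fun m => ix m = i),
      Real.log (p1 y m) ≤ 2 * C * N * Real.log y / Real.log N := by
    intro i _
    rcases (S.filter (fun m => ix m = i)).eq_empty_or_nonempty with h0 | ⟨m0, hm0⟩
    · rw [h0, Finset.sum_empty]
      positivity
    · rw [Finset.mem_filter] at hm0
      have hPi8 := hP8 m0 hm0.1
      rw [hm0.2] at hPi8
      have hypos : 0 < y ^ (2 ^ i) := Nat.pow_pos (by omega)
      have hPi4 : (y ^ (2 ^ i)) ^ 4 ≤ N :=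
        (Nat.pow_le_pow_right hypos (by norm_num)).trans hPi8
      have hyPi : y ≤ y ^ (2 ^ i) := by
        calc y = y ^ 1 := (pow_one y).symm
          _ ≤ y ^ (2 ^ i) := Nat.pow_le_pow_right (by omega) Nat.one_le_two_pow
      have h1 := hct N y (y ^ (2 ^ i)) T0 hy hyPi hPi4
      have hsub : S.filter (fun m => ix m = i) ⊆
          (Core N y T0).filter (fun m => ∀ p ∈ PR y (y ^ (2 ^ i)), ¬ p ∣ m - 1) := by
        intro m hm
        rw [Finset.mem_filter] at hm
        simp only [Finset.mem_filter]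
        have hmS := hm.1
        have h2 := hlow m hmS
        rw [hm.2] at h2
        rw [hS, Finset.mem_filter] at hmS
        refine ⟨hmS.1, CST_no_div (Or.inr ?_)⟩
        have := hmS.2.1
        omega
      have h2 : ((S.filter (fun m => ix m = i)).card : ℝ) ≤
          C * N * Real.log y / (2 ^ i * Real.log y * Real.log N) := by
        have h3 : ((S.filter (fun m => ix m = i)).card : ℝ) ≤
            (((Core N y T0).filter (fun m => ∀ p ∈ PR y (y ^ (2 ^ i)), ¬ p ∣ m - 1)).card : ℝ) := by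
          exact_mod_cast Finset.card_le_card hsub
        refine h3.trans ?_
        have h1' : (((Core N y T0).filter
            (fun m => ∀ p ∈ PR y (y ^ (2 ^ i)), ¬ p ∣ m - 1)).card : ℝ) ≤
            C * N * Real.log y / (Real.log ((y ^ (2 ^ i) : ℕ) : ℝ) * Real.log N) := by
          convert h1
        refine h1'.trans (le_of_eq ?_)
        push_cast
        rw [Real.log_pow]
        push_cast
        ring
      have h3 : ∀ m ∈ S.filter (fun m => ix m = i), Real.log (p1 y m) ≤
          2 ^ (i + 1) * Real.log y := by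
        intro m hm
        rw [Finset.mem_filter] at hm
        have h4 := hupp m hm.1
        rw [hm.2] at h4
        have h5 : (0 : ℝ) < p1 y m := by
          have hmS := hm.1
          rw [hS, Finset.mem_filter] at hmS
          exact_mod_cast hmS.2.1
        have h6 : Real.log (p1 y m) ≤ Real.log ((y : ℝ) ^ (2 ^ (i + 1))) :=
          Real.log_le_log h5 (by exact_mod_cast h4)
        rw [Real.log_pow] at h6
        push_cast at h6
        exact h6
      calc ∑ m ∈ S.filter (fun m => ix m = i), Real.log (p1 y m)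
          ≤ ∑ _m ∈ S.filter (fun m => ix m = i), 2 ^ (i + 1) * Real.log y :=
            Finset.sum_le_sum h3
        _ = ((S.filter (fun m => ix m = i)).card : ℝ) * (2 ^ (i + 1) * Real.log y) := by
            rw [Finset.sum_const, nsmul_eq_mul]
        _ ≤ C * N * Real.log y / (2 ^ i * Real.log y * Real.log N) *
              (2 ^ (i + 1) * Real.log y) :=
            mul_le_mul_of_nonneg_right h2 (by positivity)
        _ = 2 * C * N * Real.log y / Real.log N := by
            rw [pow_succ]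
            field_simp
  refine (Finset.sum_le_sum hclass).trans ?_
  rw [Finset.sum_const, Finset.card_range, nsmul_eq_mul]
  have hK1 : ((K + 1 : ℕ) : ℝ) ≤ 3 * Real.log (Real.log N) := by
    have h1 : (K : ℝ) ≤ Real.log (Real.log N) / Real.log 2 := Nat.floor_le (by positivity)
    have h2 : Real.log (Real.log N) / Real.log 2 ≤ 2 * Real.log (Real.log N) := by
      rw [div_le_iff₀ (by linarith)]
      nlinarith
    push_cast
    linarith
  have hpos : 0 ≤ 2 * C * N * Real.log y / Real.log N := by positivity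
  refine (mul_le_mul_of_nonneg_right hK1 hpos).trans (le_of_eq ?_)
  ring

theorem count_bad : ∃ C : ℝ, 0 < C ∧ ∀ N y : ℕ, ∀ T0 : Finset ℕ, 2 ≤ y → y ^ 8 ≤ N →
    (((Core N y T0).filter (fun m => ¬ (0 < p1 y m ∧ (p1 y m) ^ 8 ≤ N))).card : ℝ) ≤
      C * N * Real.log y / (Real.log N) ^ 2 := by
  obtain ⟨C, hC, hct⟩ := count_two
  refine ⟨16 * C, by positivity, ?_⟩
  intro N y T0 hy hN
  have hy1 : (1 : ℝ) < y := by exact_mod_cast (by omega : 1 < y)
  have hly0 : 0 < Real.log y := Real.log_pos hy1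
  have hN1 : 1 < N := by
    have h1 : 2 ^ 8 ≤ y ^ 8 := Nat.pow_le_pow_left hy 8
    have : (2 : ℕ) ^ 8 = 256 := by norm_num
    omega
  have hlN0 : 0 < Real.log N := Real.log_pos (by exact_mod_cast hN1)
  set P : ℕ := Nat.findGreatest (fun P => P ^ 8 ≤ N) N with hP
  have hyN : y ≤ N := le_trans (Nat.le_self_pow (by norm_num) y) hN
  have hP8 : P ^ 8 ≤ N := Nat.findGreatest_spec (P := fun P => P ^ 8 ≤ N) hyN hN
  have hyP : y ≤ P := Nat.le_findGreatest hyN hN
  have hP1 : N < (P + 1) ^ 8 := by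
    by_contra hc
    push Not at hc
    have h1 : P + 1 ≤ N := le_trans (Nat.le_self_pow (by norm_num) _) hc
    have h2 : P + 1 ≤ P := Nat.le_findGreatest h1 hc
    omega
  have hP4 : P ^ 4 ≤ N := (Nat.pow_le_pow_right (by omega) (by norm_num)).trans hP8
  have h1 := hct N y P T0 hy hyP hP4
  have hsub : (Core N y T0).filter (fun m => ¬ (0 < p1 y m ∧ (p1 y m) ^ 8 ≤ N)) ⊆
      (Core N y T0).filter (fun m => ∀ p ∈ PR y P, ¬ p ∣ m - 1) := by
    intro m hm
    rw [Finset.mem_filter] at hm
    refine Finset.mem_filter.2 ⟨hm.1, CST_no_div ?_⟩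
    by_contra hc
    push Not at hc
    exact hm.2 ⟨Nat.pos_of_ne_zero hc.1, (Nat.pow_le_pow_left hc.2 8).trans hP8⟩
  have h2 : (((Core N y T0).filter (fun m => ¬ (0 < p1 y m ∧ (p1 y m) ^ 8 ≤ N))).card : ℝ) ≤
      C * N * Real.log y / (Real.log P * Real.log N) := by
    have h1' : (((Core N y T0).filter (fun m => ∀ p ∈ PR y P, ¬ p ∣ m - 1)).card : ℝ) ≤
        C * N * Real.log y / (Real.log P * Real.log N) := by
      convert h1
    refine le_trans ?_ h1'
    exact_mod_cast Finset.card_le_card hsub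
  have hlP : Real.log N / 16 ≤ Real.log P := by
    have hP0 : (0 : ℝ) < P := by exact_mod_cast (by omega : 0 < P)
    have h3 : Real.log N ≤ Real.log (((P : ℝ) + 1) ^ 8) :=
      Real.log_le_log (by exact_mod_cast (by omega : 0 < N)) (by exact_mod_cast hP1.le)
    have h4 : Real.log ((P : ℝ) + 1) ≤ Real.log ((P : ℝ) ^ 2) := by
      refine Real.log_le_log (by positivity) ?_
      have : (2 : ℝ) ≤ P := by exact_mod_cast (by omega : 2 ≤ P)
      nlinarith
    rw [Real.log_pow] at h3 h4
    push_cast at h3 h4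
    linarith
  refine h2.trans ?_
  have hlP0 : 0 < Real.log P := by linarith [div_pos hlN0 (by norm_num : (0:ℝ) < 16)]
  rw [div_le_div_iff₀ (by positivity) (by positivity)]
  have h5 : Real.log N ^ 2 ≤ 16 * (Real.log P * Real.log N) := by nlinarith
  have h6 : 0 ≤ C * N * Real.log y := by positivity
  calc C * N * Real.log y * Real.log N ^ 2
      ≤ C * N * Real.log y * (16 * (Real.log P * Real.log N)) :=
        mul_le_mul_of_nonneg_left h5 h6
    _ = 16 * C * N * Real.log y * (Real.log P * Real.log N) := by ring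

end Pool.Agent.Helper76.OB
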