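import Pool.Agent.Helper76.OB.Defs

set_option autoImplicit false

/-!
# OB module CYL: second moment method for cylinder events

For `V, U ⊆ P` disjoint: `∑_{T ⊆ P, V ⊆ T, U ∩ T = ∅} wt T = ∏_{p∈V} ε_p ∏_{p∈U} (1-ε_p) =: π(U,V)`
(`Finset.prod_add` / induction on `P`). `K = #G`, `Z(T) = ∑_{j∈G} 1_j(T)/π_j`. Then `∑ wt Z = K`,
`∑ wt Z² = ∑_{i,j} wt(i ∧ j)/(π_i π_j)`, where `wt(i ∧ j) = 0` if `V_i ∩ U_j ≠ ∅` or `U_i ∩ V_j ≠ ∅`, and
`= π(U_i ∪ U_j, V_i ∪ V_j) = π_i π_j ∏_{V_i∩V_j} ε⁻¹ ∏_{U_i∩U_j} (1-ε)⁻¹` otherwise. Finally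
`wt(Z = 0) K² ≤ ∑ wt (Z-K)² = ∑ wt Z² - K²` (`∑_{T ⊆ P} wt = 1`).
-/

open Filter Classical

namespace Pool.Agent.Helper76.OB

/-- the cylinder event -/
def Cy (U V T : Finset ℕ) : Prop := V ⊆ T ∧ Disjoint U T

/-- its weight -/
noncomputable def pC (ε : ℕ → ℝ) (U V : Finset ℕ) : ℝ := (∏ p ∈ V, ε p) * ∏ p ∈ U, (1 - ε p)

theorem cyl_sum (ε : ℕ → ℝ) (P U V : Finset ℕ) (hU : U ⊆ P) (hV : V ⊆ P) (hUV : Disjoint U V) :
    ∑ T ∈ P.powerset, (if Cy U V T then wt ε P T else 0) = pC ε U V := by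
  have h1 : ∀ T ∈ P.powerset, (if Cy U V T then wt ε P T else 0) =
      (∏ p ∈ T, if p ∈ U then 0 else ε p) * ∏ p ∈ P \ T, if p ∈ V then 0 else 1 - ε p := by
    intro T hT
    have hT' := Finset.mem_powerset.1 hT
    by_cases h : Cy U V T
    · rw [if_pos h]
      unfold wt
      rw [← Finset.prod_sdiff hT', mul_comm]
      congr 1
      · refine Finset.prod_congr rfl fun p hp => ?_
        rw [if_pos hp, if_neg (fun hpU => Finset.disjoint_left.1 h.2 hpU hp)]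
      · refine Finset.prod_congr rfl fun p hp => ?_
        have hp' := (Finset.mem_sdiff.1 hp).2
        rw [if_neg hp', if_neg (fun hpV => hp' (h.1 hpV))]
    · rw [if_neg h]
      by_cases hVT : V ⊆ T
      · have hd : ¬ Disjoint U T := fun hd => h ⟨hVT, hd⟩
        obtain ⟨p, hpU, hpT⟩ := Finset.not_disjoint_iff.1 hd
        have h0 : (∏ p ∈ T, if p ∈ U then 0 else ε p) = 0 :=
          Finset.prod_eq_zero (f := fun q => if q ∈ U then 0 else ε q) hpT (if_pos hpU)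
        rw [h0, zero_mul]
      · obtain ⟨p, hpV, hpT⟩ := Finset.not_subset.1 hVT
        have h0 : (∏ p ∈ P \ T, if p ∈ V then 0 else 1 - ε p) = 0 :=
          Finset.prod_eq_zero (f := fun q => if q ∈ V then 0 else 1 - ε q)
            (Finset.mem_sdiff.2 ⟨hV hpV, hpT⟩) (if_pos hpV)
        rw [h0, mul_zero]
  rw [Finset.sum_congr rfl h1, ← Finset.prod_add]
  have h2 : ∀ p ∈ P, ((if p ∈ U then 0 else ε p) + if p ∈ V then 0 else 1 - ε p) =
      (if p ∈ V then ε p else 1) * (if p ∈ U then 1 - ε p else 1) := by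
    intro p _
    by_cases hpU : p ∈ U
    · have hpV : p ∉ V := fun hpV => Finset.disjoint_left.1 hUV hpU hpV
      rw [if_pos hpU, if_neg hpV, if_neg hpV, if_pos hpU]
      ring
    · by_cases hpV : p ∈ V
      · rw [if_neg hpU, if_pos hpV, if_pos hpV, if_neg hpU]
        ring
      · rw [if_neg hpU, if_neg hpV, if_neg hpV, if_neg hpU]
        ring
  rw [Finset.prod_congr rfl h2, Finset.prod_mul_distrib, Finset.prod_ite_mem, Finset.prod_ite_mem,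
    Finset.inter_eq_right.2 hV, Finset.inter_eq_right.2 hU]
  rfl

theorem cyl_wt_nonneg (ε : ℕ → ℝ) (P : Finset ℕ) (hε : ∀ p ∈ P, 0 < ε p ∧ ε p < 1) (T : Finset ℕ) :
    0 ≤ wt ε P T := by
  unfold wt
  refine Finset.prod_nonneg fun p hp => ?_
  have := hε p hp
  split_ifs
  · exact this.1.le
  · linarith [this.2]

theorem cyl_pC_pos (ε : ℕ → ℝ) (P U V : Finset ℕ) (hε : ∀ p ∈ P, 0 < ε p ∧ ε p < 1) (hU : U ⊆ P)
    (hV : V ⊆ P) : 0 < pC ε U V :=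
  mul_pos (Finset.prod_pos fun p hp => (hε p (hV hp)).1)
    (Finset.prod_pos fun p hp => by linarith [(hε p (hU hp)).2])

/-- the pair term -/
theorem cyl_pair_le (ε : ℕ → ℝ) (P U V U' V' : Finset ℕ) (hε : ∀ p ∈ P, 0 < ε p ∧ ε p < 1)
    (hU : U ⊆ P) (hV : V ⊆ P) (hU' : U' ⊆ P) (hV' : V' ⊆ P) :
    ∑ T ∈ P.powerset, (if Cy U V T ∧ Cy U' V' T then wt ε P T else 0) ≤
      pC ε U V * pC ε U' V' *
        ((∏ p ∈ V ∩ V', (ε p)⁻¹) * (∏ p ∈ U ∩ U', (1 - ε p)⁻¹)) := by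
  have hVne : ∏ p ∈ V ∩ V', ε p ≠ 0 := Finset.prod_ne_zero_iff.2 fun p hp =>
    (hε p (hV (Finset.mem_inter.1 hp).1)).1.ne'
  have hUne : ∏ p ∈ U ∩ U', (1 - ε p) ≠ 0 := Finset.prod_ne_zero_iff.2 fun p hp => by
    have := (hε p (hU (Finset.mem_inter.1 hp).1)).2
    intro h
    linarith
  have hR : pC ε U V * pC ε U' V' * ((∏ p ∈ V ∩ V', (ε p)⁻¹) * (∏ p ∈ U ∩ U', (1 - ε p)⁻¹)) =
      pC ε (U ∪ U') (V ∪ V') := by
    unfold pC
    rw [Finset.prod_inv_distrib, Finset.prod_inv_distrib]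
    have h1 := Finset.prod_union_inter (s₁ := V) (s₂ := V') (f := ε)
    have h2 := Finset.prod_union_inter (s₁ := U) (s₂ := U') (f := fun p => 1 - ε p)
    calc (∏ p ∈ V, ε p) * (∏ p ∈ U, (1 - ε p)) * ((∏ p ∈ V', ε p) * ∏ p ∈ U', (1 - ε p)) *
          ((∏ p ∈ V ∩ V', ε p)⁻¹ * (∏ p ∈ U ∩ U', (1 - ε p))⁻¹) =
        ((∏ p ∈ V, ε p) * (∏ p ∈ V', ε p)) * (∏ p ∈ V ∩ V', ε p)⁻¹ *
          (((∏ p ∈ U, (1 - ε p)) * ∏ p ∈ U', (1 - ε p)) * (∏ p ∈ U ∩ U', (1 - ε p))⁻¹) := by ring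
      _ = (∏ p ∈ V ∪ V', ε p) * ∏ p ∈ U ∪ U', (1 - ε p) := by
        rw [← h1, ← h2, mul_inv_cancel_right₀ hVne, mul_inv_cancel_right₀ hUne]
  rw [hR]
  have hcy : ∀ T, (Cy U V T ∧ Cy U' V' T) ↔ Cy (U ∪ U') (V ∪ V') T := by
    intro T
    unfold Cy
    rw [Finset.union_subset_iff, Finset.disjoint_union_left]
    tauto
  simp only [hcy]
  by_cases hd : Disjoint (U ∪ U') (V ∪ V')
  · exact (cyl_sum ε P _ _ (Finset.union_subset hU hU') (Finset.union_subset hV hV') hd).le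
  · rw [Finset.sum_eq_zero]
    · exact (cyl_pC_pos ε P _ _ hε (Finset.union_subset hU hU') (Finset.union_subset hV hV')).le
    · intro T _
      rw [if_neg]
      intro h
      exact hd (Finset.disjoint_left.2 fun p hp hp' => Finset.disjoint_left.1 h.2 hp (h.1 hp'))

theorem second_moment (ε : ℕ → ℝ) (P : Finset ℕ) (hε : ∀ p ∈ P, 0 < ε p ∧ ε p < 1) (G : Finset ℕ)
    (U V : ℕ → Finset ℕ) (hU : ∀ j ∈ G, U j ⊆ P) (hV : ∀ j ∈ G, V j ⊆ P)
    (hUV : ∀ j ∈ G, Disjoint (U j) (V j)) :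
    PT ε P (fun T => ∀ j ∈ G, ¬ (V j ⊆ T ∧ Disjoint (U j) T)) * (G.card : ℝ) ^ 2 ≤
      ∑ i ∈ G, ∑ j ∈ G, ((∏ p ∈ V i ∩ V j, (ε p)⁻¹) * (∏ p ∈ U i ∩ U j, (1 - ε p)⁻¹) - 1) := by
  set K : ℝ := (G.card : ℝ) with hK
  let π : ℕ → ℝ := fun j => pC ε (U j) (V j)
  have hπ : ∀ j ∈ G, 0 < π j := fun j hj => cyl_pC_pos ε P _ _ hε (hU j hj) (hV j hj)
  let x : ℕ → Finset ℕ → ℝ := fun j T => if Cy (U j) (V j) T then 1 else 0
  let Z : Finset ℕ → ℝ := fun T => ∑ j ∈ G, x j T / π j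
  have hw1 : ∑ T ∈ P.powerset, wt ε P T = 1 := by
    have h := cyl_sum ε P ∅ ∅ (Finset.empty_subset _) (Finset.empty_subset _)
      (Finset.disjoint_empty_left _)
    have h2 : ∀ T ∈ P.powerset, (if Cy ∅ ∅ T then wt ε P T else 0) = wt ε P T := fun T _ =>
      if_pos ⟨Finset.empty_subset _, Finset.disjoint_empty_left _⟩
    rw [Finset.sum_congr rfl h2] at h
    rw [h]
    simp [pC]
  have hwx : ∀ j ∈ G, ∑ T ∈ P.powerset, wt ε P T * x j T = π j := by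
    intro j hj
    change _ = pC ε (U j) (V j)
    rw [← cyl_sum ε P (U j) (V j) (hU j hj) (hV j hj) (hUV j hj)]
    refine Finset.sum_congr rfl fun T _ => ?_
    change wt ε P T * (if Cy (U j) (V j) T then 1 else 0) = _
    rw [mul_ite, mul_one, mul_zero]
  have hwZ : ∑ T ∈ P.powerset, wt ε P T * Z T = K := by
    have h1 : ∀ T ∈ P.powerset, wt ε P T * Z T = ∑ j ∈ G, wt ε P T * x j T / π j := by
      intro T _
      change wt ε P T * ∑ j ∈ G, x j T / π j = _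
      rw [Finset.mul_sum]
      exact Finset.sum_congr rfl fun j _ => by ring
    rw [Finset.sum_congr rfl h1, Finset.sum_comm]
    have h2 : ∀ j ∈ G, ∑ T ∈ P.powerset, wt ε P T * x j T / π j = 1 := by
      intro j hj
      rw [← Finset.sum_div, hwx j hj, div_self (hπ j hj).ne']
    rw [Finset.sum_congr rfl h2, Finset.sum_const, nsmul_eq_mul, mul_one]
  have hwZ2 : ∑ T ∈ P.powerset, wt ε P T * Z T ^ 2 ≤
      ∑ i ∈ G, ∑ j ∈ G, ((∏ p ∈ V i ∩ V j, (ε p)⁻¹) * (∏ p ∈ U i ∩ U j, (1 - ε p)⁻¹)) := by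
    have h1 : ∀ T ∈ P.powerset, wt ε P T * Z T ^ 2 =
        ∑ i ∈ G, ∑ j ∈ G, wt ε P T * (x i T * x j T) / (π i * π j) := by
      intro T _
      change wt ε P T * (∑ j ∈ G, x j T / π j) ^ 2 = _
      rw [sq, Finset.sum_mul_sum, Finset.mul_sum]
      refine Finset.sum_congr rfl fun i _ => ?_
      rw [Finset.mul_sum]
      refine Finset.sum_congr rfl fun j _ => ?_
      rw [div_mul_div_comm]
      ring
    rw [Finset.sum_congr rfl h1, Finset.sum_comm]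
    refine Finset.sum_le_sum fun i hi => ?_
    rw [Finset.sum_comm]
    refine Finset.sum_le_sum fun j hj => ?_
    rw [← Finset.sum_div, div_le_iff₀ (mul_pos (hπ i hi) (hπ j hj))]
    have h3 := cyl_pair_le ε P (U i) (V i) (U j) (V j) hε (hU i hi) (hV i hi) (hU j hj) (hV j hj)
    have h4 : ∑ T ∈ P.powerset, wt ε P T * (x i T * x j T) =
        ∑ T ∈ P.powerset, (if Cy (U i) (V i) T ∧ Cy (U j) (V j) T then wt ε P T else 0) := by
      refine Finset.sum_congr rfl fun T _ => ?_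
      change wt ε P T * ((if Cy (U i) (V i) T then 1 else 0) *
        (if Cy (U j) (V j) T then 1 else 0)) = _
      by_cases h5 : Cy (U i) (V i) T <;> by_cases h6 : Cy (U j) (V j) T <;> simp [h5, h6]
    rw [h4]
    refine h3.trans (le_of_eq ?_)
    change π i * π j * _ = _ * (π i * π j)
    ring
  have hkey' : ∀ A : Finset ℕ → Prop, (∀ T, A T → Z T = 0) → PT ε P A * K ^ 2 ≤
      ∑ T ∈ P.powerset, wt ε P T * (Z T - K) ^ 2 := by
    intro A hA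
    unfold PT
    rw [Finset.sum_mul]
    refine (Finset.sum_le_sum (g := fun T => wt ε P T * (Z T - K) ^ 2) fun T hT => ?_).trans
      (Finset.sum_le_sum_of_subset_of_nonneg (Finset.filter_subset _ _) fun T _ _ =>
        mul_nonneg (cyl_wt_nonneg ε P hε T) (sq_nonneg _))
    rw [hA T (Finset.mem_filter.1 hT).2, zero_sub, neg_sq]
  have hkey : PT ε P (fun T => ∀ j ∈ G, ¬ (V j ⊆ T ∧ Disjoint (U j) T)) * K ^ 2 ≤
      ∑ T ∈ P.powerset, wt ε P T * (Z T - K) ^ 2 := by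
    refine hkey' _ fun T hT => ?_
    refine Finset.sum_eq_zero fun j hj => ?_
    have h1 : x j T = 0 := if_neg (hT j hj)
    rw [h1, zero_div]
  refine hkey.trans ?_
  have h1 : ∀ T ∈ P.powerset, wt ε P T * (Z T - K) ^ 2 =
      wt ε P T * Z T ^ 2 - 2 * K * (wt ε P T * Z T) + K ^ 2 * wt ε P T := fun T _ => by ring
  rw [Finset.sum_congr rfl h1, Finset.sum_add_distrib, Finset.sum_sub_distrib, ← Finset.mul_sum,
    ← Finset.mul_sum, hwZ, hw1]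
  have h2 : ∑ i ∈ G, ∑ j ∈ G,
      ((∏ p ∈ V i ∩ V j, (ε p)⁻¹) * (∏ p ∈ U i ∩ U j, (1 - ε p)⁻¹) - 1) =
      (∑ i ∈ G, ∑ j ∈ G, ((∏ p ∈ V i ∩ V j, (ε p)⁻¹) * (∏ p ∈ U i ∩ U j, (1 - ε p)⁻¹))) -
        K ^ 2 := by
    simp only [Finset.sum_sub_distrib, Finset.sum_const, nsmul_eq_mul, mul_one]
    rw [sq]
  rw [h2]
  nlinarith [hwZ2]

end Pool.Agent.Helper76.OB
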