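import Mathlib

set_option autoImplicit false

/-!
# OB: the sieve of Eratosthenes with sparse random one-class modifications (MP_7b323f_nt)

Common definitions of the project.
-/

open Filter Classical

namespace Pool.Agent.Helper76.OB

/-- The sieve of Eratosthenes in which, for the odd primes `p ∈ F`, the residue class `1` is removed
instead of the residue class `0`. -/
def Sv (F : Set ℕ) : Set ℕ :=
  {n | 2 ≤ n ∧ ∀ p : ℕ, p.Prime → p ^ 2 ≤ n →
    ((p ∈ F ∧ p ≠ 2) → ¬ p ∣ n - 1) ∧ (¬ (p ∈ F ∧ p ≠ 2) → ¬ p ∣ n)}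

/-- primes in `(a, b]` -/
noncomputable def PR (a b : ℕ) : Finset ℕ := (Finset.Ioc a b).filter Nat.Prime

/-- the class removed at `p` with bit vector `T`: `1` if `p ∈ T`, otherwise `0` -/
noncomputable def cl (T : Finset ℕ) (p : ℕ) : ℕ := if p ∈ T then 1 else 0

/-- `m` survives the primes of `P` with bit vector `T` -/
def Sur (T P : Finset ℕ) (m : ℕ) : Prop := ∀ p ∈ P, ¬ m ≡ cl T p [MOD p]

/-- product weight of the bit vector `T ⊆ P` -/
noncomputable def wt (ε : ℕ → ℝ) (P T : Finset ℕ) : ℝ := ∏ p ∈ P, if p ∈ T then ε p else 1 - ε p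

/-- total weight of the bit vectors `T ⊆ P` with property `A` -/
noncomputable def PT (ε : ℕ → ℝ) (P : Finset ℕ) (A : Finset ℕ → Prop) : ℝ :=
  ∑ T ∈ P.powerset.filter A, wt ε P T

/-- the numbers in `(N, 2N]` which survive the primes `≤ y` (bits `T0`) and have no prime factor in
`(y, √N]` -/
noncomputable def Core (N y : ℕ) (T0 : Finset ℕ) : Finset ℕ :=
  (Finset.Ioc N (2 * N)).filter (fun m => Sur T0 (PR 1 y) m ∧ ∀ p ∈ PR y (Nat.sqrt N), ¬ p ∣ m)

/-- smallest prime factor `> y` of `m - 1` (`0` if there is none) -/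
noncomputable def p1 (y m : ℕ) : ℕ := sInf {p : ℕ | p.Prime ∧ y < p ∧ p ∣ m - 1}

/-- window number `j` of length `s` -/
def W (N s j : ℕ) : Finset ℕ := Finset.Ioc (N + j * s) (N + (j + 1) * s)

/-- the core elements of window `j` -/
noncomputable def CW (N s y : ℕ) (T0 : Finset ℕ) (j : ℕ) : Finset ℕ :=
  (Core N y T0).filter (fun m => m ∈ W N s j)

/-- the primes whose bits have to be set in order to empty window `j` -/
noncomputable def VV (N s y : ℕ) (T0 : Finset ℕ) (j : ℕ) : Finset ℕ := (CW N s y T0 j).image (p1 y)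

/-- the primes whose bits must stay unset in order to empty window `j` -/
noncomputable def UU (N s y : ℕ) (T0 : Finset ℕ) (j : ℕ) : Finset ℕ :=
  (PR y (Nat.sqrt N)).filter (fun p => ∃ m ∈ W N s j, Sur T0 (PR 1 y) m ∧ p ∣ m)

/-- window `j` is good: it is one of the first `N / s` windows, all of its core elements `m` have a
prime factor of `m - 1` in `(y, N ^ (1/8)]`, there are at most `v` of them and the total cost of
killing them is at most `log N / 16`. -/
structure Good (N s y : ℕ) (v : ℝ) (T0 : Finset ℕ) (j : ℕ) : Prop where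
  lt : j < N / s
  small : ∀ m ∈ CW N s y T0 j, 0 < p1 y m ∧ (p1 y m) ^ 8 ≤ N
  card_le : ((CW N s y T0 j).card : ℝ) ≤ v
  cost_le : ∑ m ∈ CW N s y T0 j, Real.log (p1 y m) ≤ Real.log N / 16

/-- length of the windows -/
noncomputable def sN (θ : ℝ) (N : ℕ) : ℕ := ⌊(Real.log N) ^ (2 - θ)⌋₊

/-- bound for the small primes -/
noncomputable def yN (η : ℝ) (N : ℕ) : ℕ := ⌊Real.exp ((Real.log N) ^ η)⌋₊

/-- some window of length `s` in `(N, 2N]` has no survivor of the primes `≤ √N` with bits `T` -/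
def Emp (N s : ℕ) (T : Finset ℕ) : Prop :=
  ∃ j < N / s, ∀ m ∈ W N s j, ¬ Sur T (PR 1 (Nat.sqrt N)) m

/-- the lower bound sum of the large sieve: one class for the primes `≤ y` or `> P`, two classes for
the primes in `(y, P]` -/
noncomputable def om (y P p : ℕ) : ℕ := if y < p ∧ p ≤ P then 2 else 1

noncomputable def LS (ω : ℕ → ℕ) (X : ℕ) : ℝ :=
  ∑ q ∈ (Finset.Icc 1 X).filter Squarefree, ∏ p ∈ q.primeFactors, (ω p : ℝ) / ((p : ℝ) - ω p)

lemma mem_PR {a b p : ℕ} : p ∈ PR a b ↔ (a < p ∧ p ≤ b) ∧ p.Prime := by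
  simp [PR]

lemma mem_W {N s j m : ℕ} : m ∈ W N s j ↔ N + j * s < m ∧ m ≤ N + (j + 1) * s := by
  simp [W]

/-- windows with index `< N / s` lie in `(N, 2N]` -/
lemma W_sub {N s j m : ℕ} (hj : j < N / s) (hm : m ∈ W N s j) : N < m ∧ m ≤ 2 * N := by
  rw [mem_W] at hm
  have hs : 0 < s := by
    rcases Nat.eq_zero_or_pos s with rfl | h
    · simp at hj
    · exact h
  have h1 : (j + 1) * s ≤ N := by
    have : (j + 1) * s ≤ (N / s) * s := Nat.mul_le_mul_right s hj
    exact this.trans (Nat.div_mul_le_self N s)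
  constructor
  · have : 0 ≤ j * s := Nat.zero_le _
    omega
  · omega

end Pool.Agent.Helper76.OB
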