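import Pool.Agent.Helper76.OB.BTG
import Pool.Agent.Helper6.PNT

set_option autoImplicit false

/-!
# OB module LOW: `Sv F` contains a positive proportion of the primes if `∑_{p∈F} 1/p < ∞`

A prime `q ≤ x` is in `Sv F` iff no odd `p ∈ F`, prime, `p² ≤ q`, divides `q - 1` (for the other primes
`p² ≤ q` one has `p ∤ q` automatically). Choose `K` with `∑_{p∈F prime, p>K} 1/(p-1) ≤ 1/(4 C)` (`C` from
`brun_titchmarsh`), `M = ∏_{3≤p≤K} p` (or any number divisible by all odd primes `≤ K` and odd), and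
count the primes `q ≤ x` with `q ≡ -1 (mod M)`: by `Pool.Agent.Helper6.pi_ap_nat` (PNT in progressions)
there are `~ x/(φ(M) log x)` of them. For odd `p ≤ K` the prime `p` does not divide `q - 1 ≡ -2`. Those with
`q ≡ 1 (mod p)` for some `p ∈ F`, `p > K`, `p ≤ √x`: they lie in one class mod `M p`
(`(M p)⁴ ≤ x³` for large `x`), by `brun_titchmarsh` at most `C x/(φ(M) (p-1) log x)`. The sum over these `p`
is at most a quarter of the main term.
-/

open Filter Classical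

namespace Pool.Agent.Helper76.OB

lemma prime_mem_Sv {F : Set ℕ} {q : ℕ} (hq : q.Prime)
    (h : ∀ p : ℕ, p.Prime → p ≠ 2 → p ∈ F → p ^ 2 ≤ q → ¬ p ∣ q - 1) : q ∈ Sv F := by
  refine ⟨hq.two_le, fun p hp hpq => ⟨fun h1 => h p hp h1.2 h1.1 hpq, fun _ hd => ?_⟩⟩
  have h1 := (Nat.prime_dvd_prime_iff_eq hp hq).1 hd
  subst h1
  have h2 := hp.two_le
  nlinarith

/-- the primes `q ≡ -1 (mod M)`, `q ≡ 1 (mod p)`, `q ≤ x` -/
lemma low_class {C : ℝ}
    (hBT : ∀ x q a : ℕ, 2 ≤ x → 1 ≤ q → q ^ 4 ≤ x ^ 3 →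
      (((Finset.Icc 1 x).filter (fun l : ℕ => l.Prime ∧ l ≡ a [MOD q])).card : ℝ) ≤
      C * x / ((Nat.totient q : ℝ) * Real.log x))
    {M p x : ℕ} (hM : 0 < M) (hp : p.Prime) (hMp : Nat.Coprime M p) (hx : M ^ 4 ≤ x) (hx2 : 2 ≤ x)
    (hpx : p ^ 2 ≤ x) :
    (((Finset.Icc 1 x).filter (fun l : ℕ => l.Prime ∧ M ∣ l + 1 ∧ p ∣ l - 1)).card : ℝ) ≤
      C * x / ((Nat.totient M : ℝ) * ((p : ℝ) - 1) * Real.log x) := by
  obtain ⟨a, ha1, ha2⟩ := Nat.chineseRemainder hMp (M - 1) 1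
  have h1 : 1 ≤ M * p := Nat.succ_le_of_lt (Nat.mul_pos hM hp.pos)
  have h2 : (M * p) ^ 4 ≤ x ^ 3 := by
    calc (M * p) ^ 4 = M ^ 4 * (p ^ 2) ^ 2 := by ring
      _ ≤ x * x ^ 2 := Nat.mul_le_mul hx (Nat.pow_le_pow_left hpx 2)
      _ = x ^ 3 := by ring
  have h3 := hBT x (M * p) a hx2 h1 h2
  have h4 : ((Nat.totient (M * p) : ℕ) : ℝ) = (Nat.totient M : ℝ) * ((p : ℝ) - 1) := by
    rw [Nat.totient_mul hMp, Nat.totient_prime hp, Nat.cast_mul, Nat.cast_sub hp.one_le,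
      Nat.cast_one]
  rw [h4] at h3
  refine le_trans ?_ h3
  have hsub : (Finset.Icc 1 x).filter (fun l : ℕ => l.Prime ∧ M ∣ l + 1 ∧ p ∣ l - 1) ⊆
      (Finset.Icc 1 x).filter (fun l : ℕ => l.Prime ∧ l ≡ a [MOD M * p]) := by
    intro l hl
    rw [Finset.mem_filter] at hl ⊢
    obtain ⟨hl1, hl2, hl3, hl4⟩ := hl
    refine ⟨hl1, hl2, ?_⟩
    rw [← Nat.modEq_and_modEq_iff_modEq_mul hMp]
    constructor
    · refine Nat.ModEq.trans ?_ ha1.symm
      have e1 : l + 1 ≡ M - 1 + 1 [MOD M] := by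
        rw [Nat.sub_add_cancel hM]
        exact ((Nat.modEq_zero_iff_dvd).2 hl3).trans ((Nat.modEq_zero_iff_dvd).2 dvd_rfl).symm
      exact Nat.ModEq.add_right_cancel' 1 e1
    · refine Nat.ModEq.trans ?_ ha2.symm
      exact ((Nat.modEq_iff_dvd' hl2.one_le).2 hl4).symm
  exact_mod_cast Finset.card_le_card hsub

theorem lower_count (F : Set ℕ) (hF : Summable (fun p : ℕ => if p ∈ F ∧ p.Prime then (1 : ℝ) / p else 0)) :
    ∃ κ : ℝ, 0 < κ ∧ ∀ᶠ x : ℕ in atTop, κ * x / Real.log x ≤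
      (((Finset.Icc 1 x).filter (fun q => q.Prime ∧ q ∈ Sv F)).card : ℝ) := by
  obtain ⟨C, hC, hBT⟩ := brun_titchmarsh
  obtain ⟨s, hs⟩ := summable_iff_vanishing_norm.1 hF (1 / (8 * C)) (by positivity)
  set K : ℕ := s.sup id with hK
  set M : ℕ := ∏ p ∈ (Finset.Icc 3 K).filter Nat.Prime, p with hM
  have hMpos : 0 < M := Finset.prod_pos (fun p hp => (Finset.mem_filter.1 hp).2.pos)
  have : NeZero M := ⟨hMpos.ne'⟩
  have hφ : (0:ℝ) < (Nat.totient M : ℝ) := by exact_mod_cast Nat.totient_pos.2 hMpos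
  have hdvd : ∀ p : ℕ, p.Prime → p ≠ 2 → p ≤ K → p ∣ M := by
    intro p hp h2 hpK
    refine Finset.dvd_prod_of_mem _ (Finset.mem_filter.2 ⟨Finset.mem_Icc.2 ⟨?_, hpK⟩, hp⟩)
    have := hp.two_le
    omega
  have hcop : ∀ p : ℕ, p.Prime → K < p → Nat.Coprime M p := by
    intro p hp hpK
    refine Nat.Coprime.prod_left (fun r hr => ?_)
    rw [Finset.mem_filter, Finset.mem_Icc] at hr
    exact (Nat.coprime_primes hr.2 hp).2 (by omega)
  have hap := Pool.Agent.Helper6.pi_ap_nat (q := M) (a := -1) (isUnit_one.neg)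
  have hlow : ∀ᶠ x : ℕ in atTop, (3 / 4) / (Nat.totient M : ℝ) < ((((Finset.range (x + 1)).filter
      (fun p : ℕ => p.Prime ∧ (p : ZMod M) = -1)).card : ℝ) * Real.log x) / x := by
    refine hap.eventually_const_lt ?_
    exact div_lt_div_of_pos_right (by norm_num) hφ
  refine ⟨1 / (2 * Nat.totient M), by positivity, ?_⟩
  filter_upwards [hlow, eventually_ge_atTop (M ^ 4), eventually_ge_atTop 2] with x h1 h2 h3
  have hx0 : (0:ℝ) < x := by exact_mod_cast (by omega : 0 < x)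
  have hlog : 0 < Real.log x := Real.log_pos (by exact_mod_cast (by omega : 1 < x))
  -- the good and the bad primes
  set A := (Finset.Icc 1 x).filter (fun l : ℕ => l.Prime ∧ M ∣ l + 1) with hA
  set T := (Finset.Ioc K (Nat.sqrt x)).filter (fun p : ℕ => p.Prime ∧ p ∈ F) with hT
  have hcardA : (3 / 4) / (Nat.totient M : ℝ) * x / Real.log x < (A.card : ℝ) := by
    have e1 : (Finset.range (x + 1)).filter (fun p : ℕ => p.Prime ∧ (p : ZMod M) = -1) = A := by
      ext l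
      rw [hA, Finset.mem_filter, Finset.mem_filter, Finset.mem_range, Finset.mem_Icc]
      have e2 : (l : ZMod M) = -1 ↔ M ∣ l + 1 := by
        rw [← ZMod.natCast_eq_zero_iff]
        push_cast
        exact eq_neg_iff_add_eq_zero
      rw [e2]
      constructor
      · rintro ⟨h, h', h''⟩
        exact ⟨⟨h'.one_le, by omega⟩, h', h''⟩
      · rintro ⟨h, h', h''⟩
        exact ⟨by omega, h', h''⟩
    rw [e1, lt_div_iff₀ hx0] at h1
    rw [div_lt_iff₀ hlog]
    exact h1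
  have hbad : (((A.filter (fun q => q ∉ Sv F)).card : ℕ) : ℝ) ≤
      ∑ p ∈ T, C * x / ((Nat.totient M : ℝ) * ((p : ℝ) - 1) * Real.log x) := by
    have hsub : A.filter (fun q => q ∉ Sv F) ⊆ T.biUnion (fun p =>
        (Finset.Icc 1 x).filter (fun l : ℕ => l.Prime ∧ M ∣ l + 1 ∧ p ∣ l - 1)) := by
      intro q hq
      rw [Finset.mem_filter, hA, Finset.mem_filter] at hq
      obtain ⟨⟨hq1, hq2, hq3⟩, hq4⟩ := hq
      have hex : ∃ p : ℕ, p.Prime ∧ p ≠ 2 ∧ p ∈ F ∧ p ^ 2 ≤ q ∧ p ∣ q - 1 := by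
        by_contra hcon
        push Not at hcon
        exact hq4 (prime_mem_Sv hq2 (fun p hp h2 hpF hpq => hcon p hp h2 hpF hpq))
      obtain ⟨p, hp, hp2, hpF, hpq, hpd⟩ := hex
      have hqx : q ≤ x := (Finset.mem_Icc.1 hq1).2
      have hpK : K < p := by
        by_contra hle
        have h5 : p ∣ q + 1 := (hdvd p hp hp2 (by omega)).trans hq3
        have h6 : p ∣ (q + 1) - (q - 1) := Nat.dvd_sub h5 hpd
        have h7 : (q + 1) - (q - 1) = 2 := by
          have := hq2.two_le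
          omega
        rw [h7] at h6
        exact hp2 ((Nat.prime_dvd_prime_iff_eq hp Nat.prime_two).1 h6)
      rw [Finset.mem_biUnion]
      refine ⟨p, ?_, Finset.mem_filter.2 ⟨hq1, hq2, hq3, hpd⟩⟩
      rw [hT, Finset.mem_filter, Finset.mem_Ioc]
      refine ⟨⟨hpK, Nat.le_sqrt'.2 (hpq.trans hqx)⟩, hp, hpF⟩
    calc (((A.filter (fun q => q ∉ Sv F)).card : ℕ) : ℝ)
        ≤ (((T.biUnion (fun p => (Finset.Icc 1 x).filter
            (fun l : ℕ => l.Prime ∧ M ∣ l + 1 ∧ p ∣ l - 1))).card : ℕ) : ℝ) := by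
          exact_mod_cast Finset.card_le_card hsub
      _ ≤ ((∑ p ∈ T, ((Finset.Icc 1 x).filter
            (fun l : ℕ => l.Prime ∧ M ∣ l + 1 ∧ p ∣ l - 1)).card : ℕ) : ℝ) := by
          exact_mod_cast Finset.card_biUnion_le
      _ = ∑ p ∈ T, ((((Finset.Icc 1 x).filter
            (fun l : ℕ => l.Prime ∧ M ∣ l + 1 ∧ p ∣ l - 1)).card : ℕ) : ℝ) := by
          push_cast
          rfl
      _ ≤ ∑ p ∈ T, C * x / ((Nat.totient M : ℝ) * ((p : ℝ) - 1) * Real.log x) := by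
          refine Finset.sum_le_sum (fun p hp => ?_)
          rw [hT, Finset.mem_filter, Finset.mem_Ioc] at hp
          exact low_class hBT hMpos hp.2.1 (hcop p hp.2.1 hp.1.1) h2 h3 (Nat.le_sqrt'.1 hp.1.2)
  have hsumT : ∑ p ∈ T, C * x / ((Nat.totient M : ℝ) * ((p : ℝ) - 1) * Real.log x) ≤
      (1 / 4) / (Nat.totient M : ℝ) * x / Real.log x := by
    have hdisj : Disjoint T s := by
      rw [Finset.disjoint_left]
      intro p hp hps
      rw [hT, Finset.mem_filter, Finset.mem_Ioc] at hp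
      have : p ≤ K := Finset.le_sup (f := id) hps
      omega
    have h5 := hs T hdisj
    have h6 : ∑ p ∈ T, (if p ∈ F ∧ p.Prime then (1 : ℝ) / p else 0) ≤ 1 / (8 * C) :=
      (le_abs_self _).trans (by rw [← Real.norm_eq_abs]; exact h5.le)
    calc ∑ p ∈ T, C * x / ((Nat.totient M : ℝ) * ((p : ℝ) - 1) * Real.log x)
        ≤ ∑ p ∈ T, (2 * C * x / ((Nat.totient M : ℝ) * Real.log x))
            * (if p ∈ F ∧ p.Prime then (1 : ℝ) / p else 0) := by
          refine Finset.sum_le_sum (fun p hp => ?_)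
          rw [hT, Finset.mem_filter, Finset.mem_Ioc] at hp
          rw [if_pos ⟨hp.2.2, hp.2.1⟩]
          have hp2 : (2:ℝ) ≤ p := by exact_mod_cast hp.2.1.two_le
          have hp1 : (0:ℝ) < (p:ℝ) - 1 := by linarith
          rw [div_mul_div_comm, mul_one, div_le_div_iff₀ (by positivity) (by positivity)]
          have h7 : (p : ℝ) ≤ 2 * ((p:ℝ) - 1) := by linarith
          have h8 : 0 ≤ C * x * ((Nat.totient M : ℝ) * Real.log x) := by positivity
          nlinarith [mul_le_mul_of_nonneg_left h7 h8]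
      _ = (2 * C * x / ((Nat.totient M : ℝ) * Real.log x))
            * ∑ p ∈ T, (if p ∈ F ∧ p.Prime then (1 : ℝ) / p else 0) := by
          rw [Finset.mul_sum]
      _ ≤ (2 * C * x / ((Nat.totient M : ℝ) * Real.log x)) * (1 / (8 * C)) :=
          mul_le_mul_of_nonneg_left h6 (by positivity)
      _ = (1 / 4) / (Nat.totient M : ℝ) * x / Real.log x := by
          field_simp
          ring
  have hcard : (A.card : ℝ) = ((A.filter (fun q => q ∈ Sv F)).card : ℝ)
      + ((A.filter (fun q => q ∉ Sv F)).card : ℝ) := by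
    rw [← Nat.cast_add, Finset.card_filter_add_card_filter_not]
  have hfin : ((A.filter (fun q => q ∈ Sv F)).card : ℝ) ≤
      (((Finset.Icc 1 x).filter (fun q => q.Prime ∧ q ∈ Sv F)).card : ℝ) := by
    have : A.filter (fun q => q ∈ Sv F) ⊆
        (Finset.Icc 1 x).filter (fun q => q.Prime ∧ q ∈ Sv F) := by
      intro q hq
      rw [Finset.mem_filter, hA, Finset.mem_filter] at hq
      exact Finset.mem_filter.2 ⟨hq.1.1, hq.1.2.1, hq.2⟩
    exact_mod_cast Finset.card_le_card this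
  have hmain : 1 / (2 * (Nat.totient M : ℝ)) * x / Real.log x
      = (3 / 4) / (Nat.totient M : ℝ) * x / Real.log x
        - (1 / 4) / (Nat.totient M : ℝ) * x / Real.log x := by
    field_simp
    ring
  rw [hmain]
  linarith

end Pool.Agent.Helper76.OB
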