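import Pool.Agent.Helper76.OB.Defs

set_option autoImplicit false

/-!
# OB module SUF: almost surely `∑_{p∈F} 1/p < ∞`

`∫ ∑_p 1_{E_p}/p = ∑_p μ(E_p)/p < ∞` (`lintegral_tsum` in `ℝ≥0∞`), because
`μ(E_p)/p ≤ p^(-1-c)` for large primes `p`; so the sum is a.s. finite (`ae_lt_top`), hence summable.
-/

open Filter Classical MeasureTheory ProbabilityTheory

namespace Pool.Agent.Helper76.OB

theorem ae_summable {Ω : Type*} [MeasurableSpace Ω] (μ : Measure Ω) [IsProbabilityMeasure μ]
    (E : ℕ → Set Ω) (hE : ∀ p, MeasurableSet (E p)) (c : ℝ) (hc : 0 < c)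
    (hε : ∀ᶠ p : ℕ in atTop, p.Prime → μ.real (E p) ≤ (p : ℝ) ^ (-c)) :
    ∀ᵐ ω ∂μ, Summable (fun p : ℕ => if p ∈ {p | ω ∈ E p} ∧ p.Prime then (1 : ℝ) / p else 0) := by
  -- the expected values
  set a : ℕ → ℝ := fun p => if p.Prime then (1 / (p : ℝ)) * μ.real (E p) else 0 with ha
  have ha0 : ∀ p, 0 ≤ a p := by
    intro p
    rw [ha]
    simp only
    split_ifs
    · positivity
    · exact le_rfl
  have hsum : Summable a := by
    have h1 : Summable (fun p : ℕ => (p : ℝ) ^ (-(1 + c))) :=
      Real.summable_nat_rpow.2 (by linarith)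
    refine Summable.of_norm_bounded_eventually_nat h1 ?_
    filter_upwards [hε, eventually_gt_atTop 0] with p hp hp0
    rw [Real.norm_eq_abs, abs_of_nonneg (ha0 p)]
    rw [ha]
    simp only
    have hpR : (0 : ℝ) < p := by exact_mod_cast hp0
    split_ifs with hpr
    · calc 1 / (p : ℝ) * μ.real (E p) ≤ 1 / (p : ℝ) * (p : ℝ) ^ (-c) :=
            mul_le_mul_of_nonneg_left (hp hpr) (by positivity)
        _ = (p : ℝ) ^ (-(1 + c)) := by
            rw [neg_add, Real.rpow_add hpR, Real.rpow_neg_one, one_div]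
    · positivity
  -- the random series in the extended nonnegative reals
  set g : ℕ → Ω → ENNReal := fun p =>
    (E p).indicator (fun _ => if p.Prime then ENNReal.ofReal (1 / (p : ℝ)) else 0) with hg
  have hgm : ∀ p, Measurable (g p) := fun p => measurable_const.indicator (hE p)
  have hgi : ∀ p, ∫⁻ ω, g p ω ∂μ = ENNReal.ofReal (a p) := by
    intro p
    rw [hg]
    simp only
    rw [lintegral_indicator_const (hE p), ha]
    simp only
    split_ifs
    · rw [ENNReal.ofReal_mul (by positivity), Measure.real, ENNReal.ofReal_toReal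
        (measure_ne_top μ _)]
    · simp
  have hfin : ∫⁻ ω, ∑' p, g p ω ∂μ ≠ ⊤ := by
    rw [lintegral_tsum (fun p => (hgm p).aemeasurable)]
    simp only [hgi]
    exact hsum.tsum_ofReal_ne_top
  have hae := ae_lt_top (Measurable.tsum hgm) hfin
  filter_upwards [hae] with ω hω
  have h1 := ENNReal.summable_toReal hω.ne
  refine h1.congr fun p => ?_
  rw [hg]
  simp only
  by_cases hE' : ω ∈ E p
  · rw [Set.indicator_of_mem hE']
    by_cases hpr : p.Prime
    · rw [if_pos hpr, if_pos ⟨hE', hpr⟩, ENNReal.toReal_ofReal (by positivity)]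
    · rw [if_neg hpr, if_neg (fun h => hpr h.2), ENNReal.toReal_zero]
  · rw [Set.indicator_of_notMem hE', if_neg (fun h => hE' h.1), ENNReal.toReal_zero]

end Pool.Agent.Helper76.OB
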