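import Pool.Agent.Helper76.OB.LSV
import Pool.Agent.Helper76.OB.LSM

set_option autoImplicit false

/-!
# OB module UPP: upper bound for the counting function (any `F`)

`n ∈ Sv F`, `√x < n ≤ x`: `n` survives all primes `p ≤ X := ⌊x^(1/4)⌋` (`p² ≤ √x < n`), i.e. misses one class
mod each such `p`. `arith_large_sieve` with `ω = 1`, `M = 0`, `N = x`:
`#{n} ≤ (X² + 14 (x+1))/LS ≤ 15 (x+1) · 2/log(X+1)`, and `#{n ≤ √x} ≤ √x`.
-/

open Filter Classical

namespace Pool.Agent.Helper76.OB

theorem upper_count : ∃ C : ℝ, 0 < C ∧ ∀ F : Set ℕ, ∀ x : ℕ, 2 ≤ x →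
    (((Finset.Icc 1 x).filter (fun n => n ∈ Sv F)).card : ℝ) ≤ C * x / Real.log x := by
  refine ⟨242, by norm_num, ?_⟩
  intro F x hx
  set S : ℕ := Nat.sqrt x with hS
  set X : ℕ := Nat.sqrt S with hX
  set A : Finset ℕ := (Finset.Icc 1 x).filter (fun n => S < n ∧ n ∈ Sv F) with hA
  have hx1 : (1 : ℝ) < x := by
    have : (2 : ℝ) ≤ x := by exact_mod_cast hx
    linarith
  have hlog : 0 < Real.log x := Real.log_pos hx1
  have hXS : X ^ 2 ≤ S := by
    have := Nat.sqrt_le' S
    simpa [hX] using this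
  have hSx : S ^ 2 ≤ x := by
    have := Nat.sqrt_le' x
    simpa [hS] using this
  have hlt : x < (X + 1) ^ 4 := by
    have h1 : x < (S + 1) ^ 2 := by
      have := Nat.lt_succ_sqrt' x
      simpa [hS] using this
    have h2 : S < (X + 1) ^ 2 := by
      have := Nat.lt_succ_sqrt' S
      simpa [hX] using this
    have h3 : S + 1 ≤ (X + 1) ^ 2 := h2
    calc x < (S + 1) ^ 2 := h1
      _ ≤ ((X + 1) ^ 2) ^ 2 := Nat.pow_le_pow_left h3 2
      _ = (X + 1) ^ 4 := by ring
  -- large sieve
  have hls := arith_large_sieve X 0 x A (by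
    intro n hn
    rw [hA, Finset.mem_filter, Finset.mem_Icc] at hn
    rw [Finset.mem_Icc]
    omega) (fun _ => 1) (fun p hp _ => hp.one_lt) (by
    intro p hp hpX
    have hp2 : p ^ 2 ≤ S := (Nat.pow_le_pow_left hpX 2).trans hXS
    set c : ℕ := if (p ∈ F ∧ p ≠ 2) then 1 else 0 with hc
    have hcp : c < p := by
      rw [hc]
      split_ifs
      · exact hp.one_lt
      · exact hp.pos
    have hsub : A.image (fun n => n % p) ⊆ (Finset.range p).erase c := by
      intro r hr
      rw [Finset.mem_image] at hr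
      obtain ⟨n, hn, rfl⟩ := hr
      rw [hA, Finset.mem_filter, Finset.mem_Icc] at hn
      obtain ⟨⟨hn1, hn2⟩, hn3, hn4⟩ := hn
      rw [Finset.mem_erase, Finset.mem_range]
      refine ⟨?_, Nat.mod_lt _ hp.pos⟩
      obtain ⟨h2n, hn5⟩ := hn4
      obtain ⟨ha, hb⟩ := hn5 p hp (by omega)
      rw [hc]
      split_ifs with hF
      · intro h
        apply ha hF
        have h1 : n % p = 1 % p := by
          rw [h, Nat.mod_eq_of_lt hp.one_lt]
        have h2 : 1 ≡ n [MOD p] := h1.symm
        exact (Nat.modEq_iff_dvd' (by omega)).1 h2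
      · intro h
        exact hb hF (Nat.dvd_of_mod_eq_zero h)
    have hcard := Finset.card_le_card hsub
    rw [Finset.card_erase_of_mem (Finset.mem_range.2 hcp), Finset.card_range] at hcard
    have := hp.pos
    show (A.image (fun n => n % p)).card + 1 ≤ p
    omega)
  have hLS := LS_one X
  have hlogX : Real.log x / 4 ≤ Real.log (X + 1) := by
    have h1 : (x : ℝ) ≤ ((X : ℝ) + 1) ^ 4 := by exact_mod_cast hlt.le
    have h2 : Real.log x ≤ Real.log (((X : ℝ) + 1) ^ 4) := Real.log_le_log (by linarith) h1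
    rw [Real.log_pow] at h2
    push_cast at h2
    linarith
  have hA0 : (0 : ℝ) ≤ A.card := Nat.cast_nonneg _
  have h3 : (A.card : ℝ) * (Real.log x / 8) ≤ 30 * x := by
    have h4 : Real.log x / 8 ≤ LS (fun _ => 1) X := by linarith
    have h5 : (A.card : ℝ) * (Real.log x / 8) ≤ (A.card : ℝ) * LS (fun _ => 1) X :=
      mul_le_mul_of_nonneg_left h4 hA0
    have h6 : ((X : ℝ)) ^ 2 ≤ x := by
      have : X ^ 2 ≤ x := by
        have hSS : S ≤ S ^ 2 := Nat.le_self_pow (by norm_num) S
        omega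
      exact_mod_cast this
    linarith
  have h7 : (A.card : ℝ) ≤ 240 * x / Real.log x := by
    rw [le_div_iff₀ hlog]
    linarith
  -- the small ones
  have hsplit : (Finset.Icc 1 x).filter (fun n => n ∈ Sv F) ⊆ A ∪ Finset.Icc 1 S := by
    intro n hn
    rw [Finset.mem_filter, Finset.mem_Icc] at hn
    rw [Finset.mem_union]
    by_cases h : S < n
    · left
      rw [hA, Finset.mem_filter, Finset.mem_Icc]
      exact ⟨hn.1, h, hn.2⟩
    · right
      rw [Finset.mem_Icc]
      omega
  have hcardle : (((Finset.Icc 1 x).filter (fun n => n ∈ Sv F)).card : ℝ) ≤ A.card + S := by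
    have h8 := (Finset.card_le_card hsplit).trans (Finset.card_union_le _ _)
    rw [Nat.card_Icc] at h8
    have h9 : ((Finset.Icc 1 x).filter (fun n => n ∈ Sv F)).card ≤ A.card + S := by omega
    exact_mod_cast h9
  have hSle : (S : ℝ) ≤ 2 * x / Real.log x := by
    rw [le_div_iff₀ hlog]
    have hsx : (S : ℝ) ≤ Real.sqrt x := by
      apply Real.le_sqrt_of_sq_le
      exact_mod_cast hSx
    have h10 : Real.log x ≤ 2 * Real.sqrt x := by
      have h11 : Real.log (Real.sqrt x) = Real.log x / 2 := Real.log_sqrt (by linarith)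
      have h12 : Real.log (Real.sqrt x) ≤ Real.sqrt x := by
        have h13 : 0 < Real.sqrt x := Real.sqrt_pos.2 (by linarith)
        have := Real.log_le_sub_one_of_pos h13
        linarith
      linarith
    have h14 : Real.sqrt x * Real.sqrt x = x := Real.mul_self_sqrt (by linarith)
    calc (S : ℝ) * Real.log x ≤ Real.sqrt x * (2 * Real.sqrt x) :=
          mul_le_mul hsx h10 hlog.le (Real.sqrt_nonneg _)
      _ = 2 * (Real.sqrt x * Real.sqrt x) := by ring
      _ = 2 * x := by rw [h14]
  calc (((Finset.Icc 1 x).filter (fun n => n ∈ Sv F)).card : ℝ) ≤ A.card + S := hcardle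
    _ ≤ 240 * x / Real.log x + 2 * x / Real.log x := add_le_add h7 hSle
    _ = 242 * x / Real.log x := by ring

end Pool.Agent.Helper76.OB
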