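import Pool.Agent.Helper76.OB.BCL
import Pool.Agent.Helper76.OB.UPP
import Pool.Agent.Helper76.OB.LOW
import Pool.Agent.Helper76.OB.SUF

set_option autoImplicit false

/-!
# OB module FIN: the theorem (architect)

Given `θ > 3/(B+2)`, `B > 1` choose `θ' < min(θ,1)`, `θ' > 3/(B+2)`, then `η < θ'` and `δ > 0` with
`3 - 2θ' + δ < η B` (possible as `3 < θ'(B+2)`). Let `x` be large and `2^(2^(k+1)) ≤ x < 2^(2^(k+2))`,
`N = 2^(2^k)`, so `N² ≤ x < N⁴`. `ae_empty` gives an empty window of length `s = sN θ' N` in `(N, 2N]`.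
`lower_count` and the trivial bound give elements of `Sv F` in `[1,N]` and in `(2N, N²]`. So there are consecutive
elements `a < b ≤ N² ≤ x` with `b - a > s`, `s + 1 > (log N)^(2-θ') ≥ (log x)^(2-θ)` for large `x`.
-/

open Filter Classical MeasureTheory ProbabilityTheory

namespace Pool.Agent.Helper76.OB

lemma eventually_of_scales (P : ℕ → Prop)
    (h : ∀ᶠ k : ℕ in atTop, ∀ x : ℕ, 2 ^ (2 ^ (k + 1)) ≤ x → x < 2 ^ (2 ^ (k + 2)) → P x) :
    ∀ᶠ x : ℕ in atTop, P x := by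
  obtain ⟨K, hK⟩ := eventually_atTop.1 h
  refine eventually_atTop.2 ⟨2 ^ (2 ^ (K + 1)), fun x hx => ?_⟩
  have hx0 : x ≠ 0 := by
    have : 0 < 2 ^ (2 ^ (K + 1)) := by positivity
    omega
  set u := Nat.log 2 x with hu
  have hu1 : 2 ^ (K + 1) ≤ u := by
    rw [hu]
    exact Nat.le_log_of_pow_le (by norm_num) hx
  have hu0 : u ≠ 0 := by
    have : 0 < 2 ^ (K + 1) := by positivity
    omega
  set v := Nat.log 2 u with hv
  have hv1 : K + 1 ≤ v := by
    rw [hv]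
    exact Nat.le_log_of_pow_le (by norm_num) hu1
  obtain ⟨k, hk⟩ : ∃ k, v = k + 1 := ⟨v - 1, by omega⟩
  have h1 : 2 ^ v ≤ u := by rw [hv]; exact Nat.pow_log_le_self 2 hu0
  have h2 : u < 2 ^ (v + 1) := by rw [hv]; exact Nat.lt_pow_succ_log_self (by norm_num) u
  have h3 : 2 ^ u ≤ x := by rw [hu]; exact Nat.pow_log_le_self 2 hx0
  have h4 : x < 2 ^ (u + 1) := by rw [hu]; exact Nat.lt_pow_succ_log_self (by norm_num) x
  apply hK k (by omega) x
  · rw [← hk]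
    exact (Nat.pow_le_pow_right (by norm_num) h1).trans h3
  · refine h4.trans_le (Nat.pow_le_pow_right (by norm_num) ?_)
    have : k + 2 = v + 1 := by omega
    rw [this]
    omega

/-- deterministic part -/
theorem gaps_of_empty (F : Set ℕ) (θ θ' : ℝ) (hθ : 0 < θ') (hθθ : θ' < θ) (hθ' : θ' < 1)
    (κ : ℝ) (hκ : 0 < κ)
    (hlow : ∀ᶠ x : ℕ in atTop, κ * x / Real.log x ≤
      (((Finset.Icc 1 x).filter (fun q => q.Prime ∧ q ∈ Sv F)).card : ℝ))
    (hemp : ∀ᶠ k : ℕ in atTop, ∃ j < (2 ^ (2 ^ k)) / sN θ' (2 ^ (2 ^ k)),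
      ∀ m ∈ W (2 ^ (2 ^ k)) (sN θ' (2 ^ (2 ^ k))) j, m ∉ Sv F) :
    ∀ᶠ x : ℕ in atTop, ∃ a b : ℕ, a < b ∧ b ≤ x ∧ a ∈ Sv F ∧ b ∈ Sv F ∧
      (∀ n, a < n → n < b → n ∉ Sv F) ∧ (Real.log x) ^ (2 - θ) ≤ (b : ℝ) - a := by
  set t : ℝ := max (2 - θ) 0 with ht
  have ht1 : t < 2 - θ' := by
    rw [ht, max_lt_iff]; constructor <;> linarith
  have ht0 : 0 ≤ t := le_max_right _ _
  have ht2 : 2 - θ ≤ t := le_max_left _ _
  -- the scale
  have hN : Tendsto (fun k : ℕ => (2 ^ (2 ^ k) : ℕ)) atTop atTop :=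
    (tendsto_pow_atTop_atTop_of_one_lt (by norm_num : 1 < 2)).comp
      (tendsto_pow_atTop_atTop_of_one_lt (by norm_num : 1 < 2))
  have hN2 : Tendsto (fun k : ℕ => ((2 ^ (2 ^ k)) ^ 2 : ℕ)) atTop atTop :=
    (tendsto_pow_atTop (by norm_num : (2:ℕ) ≠ 0)).comp hN
  have hL : Tendsto (fun k : ℕ => Real.log ((2 ^ (2 ^ k) : ℕ) : ℝ)) atTop atTop :=
    Real.tendsto_log_atTop.comp (tendsto_natCast_atTop_atTop.comp hN)
  have e1 := hN.eventually hlow
  have e2 := hN2.eventually hlow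
  -- `4 log N / κ < N`
  have e3 : ∀ᶠ x : ℝ in atTop, Real.log x ≤ (κ / 8) * x := by
    have := Real.isLittleO_log_id_atTop.def (c := κ / 8) (by positivity)
    filter_upwards [this, eventually_gt_atTop 1] with x hx hx1
    simp only [id, Real.norm_eq_abs] at hx
    rw [abs_of_pos (Real.log_pos hx1), abs_of_pos (by linarith : (0:ℝ) < x)] at hx
    exact hx
  have e3' := (tendsto_natCast_atTop_atTop.comp hN).eventually e3
  have e4 : ∀ᶠ x : ℝ in atTop, (4 : ℝ) ^ t ≤ x ^ (2 - θ' - t) :=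
    (tendsto_rpow_atTop (by linarith : 0 < 2 - θ' - t)).eventually_ge_atTop _
  have e4' := hL.eventually e4
  have e5 := hL.eventually_ge_atTop 1
  apply eventually_of_scales
  filter_upwards [hemp, e1, e2, e3', e4', e5] with k h1 h2 h3 h4 h5 h6 x hx1 hx2
  set N : ℕ := 2 ^ (2 ^ k) with hNdef
  have hNN : 2 ^ (2 ^ (k + 1)) = N ^ 2 := by
    rw [hNdef, ← pow_mul, pow_succ]
  have hNN4 : 2 ^ (2 ^ (k + 2)) = N ^ 4 := by
    rw [hNdef, ← pow_mul]
    congr 1
    rw [pow_add]; norm_num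
  rw [hNN] at hx1
  rw [hNN4] at hx2
  set L : ℝ := Real.log (N : ℝ) with hLdef
  have hN0 : 0 < N := by rw [hNdef]; positivity
  have hNr : (0 : ℝ) < N := by exact_mod_cast hN0
  have hL0 : 0 < L := by linarith
  obtain ⟨j, hj, hW⟩ := h1
  set s : ℕ := sN θ' N with hs
  -- an element below
  have hex1 : ∃ q, q ∈ Sv F ∧ q ≤ N := by
    have hpos : (0 : ℝ) < κ * N / L := by positivity
    have : 0 < ((Finset.Icc 1 N).filter (fun q => q.Prime ∧ q ∈ Sv F)).card := by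
      have h7 : (0:ℝ) < (((Finset.Icc 1 N).filter (fun q => q.Prime ∧ q ∈ Sv F)).card : ℝ) :=
        lt_of_lt_of_le hpos h2
      exact_mod_cast h7
    obtain ⟨q, hq⟩ := Finset.card_pos.1 this
    rw [Finset.mem_filter, Finset.mem_Icc] at hq
    exact ⟨q, hq.2.2, hq.1.2⟩
  -- an element above
  have hex2 : ∃ q, q ∈ Sv F ∧ 2 * N < q ∧ q ≤ N ^ 2 := by
    by_contra hcon
    push Not at hcon
    have hsub : (Finset.Icc 1 (N ^ 2)).filter (fun q => q.Prime ∧ q ∈ Sv F) ⊆ Finset.Icc 1 (2 * N) := by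
      intro q hq
      rw [Finset.mem_filter, Finset.mem_Icc] at hq
      rw [Finset.mem_Icc]
      refine ⟨hq.1.1, ?_⟩
      by_contra h7
      have := hcon q hq.2.2 (by omega)
      omega
    have hcard : (((Finset.Icc 1 (N ^ 2)).filter (fun q => q.Prime ∧ q ∈ Sv F)).card : ℝ) ≤ 2 * N := by
      have := Finset.card_le_card hsub
      rw [Nat.card_Icc, Nat.add_sub_cancel] at this
      exact_mod_cast this
    have h7 : κ * ((N ^ 2 : ℕ) : ℝ) / Real.log ((N ^ 2 : ℕ) : ℝ) ≤ 2 * N := h3.trans hcard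
    have h8 : Real.log ((N ^ 2 : ℕ) : ℝ) = 2 * L := by
      push_cast
      rw [Real.log_pow, ← hLdef]; norm_num
    rw [h8, div_le_iff₀ (by positivity)] at h7
    push_cast at h7
    simp only [Function.comp_apply] at h4
    change L ≤ κ / 8 * N at h4
    have h9 : 2 * (N : ℝ) * (2 * L) ≤ 2 * N * (2 * (κ / 8 * N)) := by gcongr
    have h10 : 0 < κ * (N : ℝ) ^ 2 := by positivity
    nlinarith
  obtain ⟨q1, hq1, hq1N⟩ := hex1
  obtain ⟨q2, hq2, hq2N, hq2N2⟩ := hex2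
  have hWj := fun m hm => W_sub (N := N) (s := s) (j := j) (m := m) hj hm
  -- the last element up to `N + j s`
  set a := Nat.findGreatest (fun n => n ∈ Sv F) (N + j * s) with ha
  have haS : a ∈ Sv F := by
    rw [ha]
    exact Nat.findGreatest_spec (P := fun n => n ∈ Sv F) (m := q1) (by omega) hq1
  have haN : a ≤ N + j * s := by rw [ha]; exact Nat.findGreatest_le _
  have ha_max : ∀ n, a < n → n ≤ N + j * s → n ∉ Sv F := by
    intro n h7 h8
    exact Nat.findGreatest_is_greatest (P := fun n => n ∈ Sv F) h7 h8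
  -- the first element above
  have hjs : (j + 1) * s ≤ N := by
    have : (j + 1) * s ≤ (N / s) * s := Nat.mul_le_mul_right s hj
    exact this.trans (Nat.div_mul_le_self N s)
  have hexb : ∃ n, n ∈ Sv F ∧ N + j * s < n := ⟨q2, hq2, by
    have : j * s ≤ (j + 1) * s := Nat.mul_le_mul_right s (by omega)
    omega⟩
  set b := Nat.find hexb with hb
  have hbS : b ∈ Sv F := (Nat.find_spec hexb).1
  have hbN : N + j * s < b := (Nat.find_spec hexb).2
  have hb_min : ∀ n, n < b → N + j * s < n → n ∉ Sv F := by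
    intro n h7 h8 h9
    exact Nat.find_min hexb h7 ⟨h9, h8⟩
  have hbq : b ≤ q2 := Nat.find_min' hexb ⟨hq2, by
    have : j * s ≤ (j + 1) * s := Nat.mul_le_mul_right s (by omega)
    omega⟩
  have hbW : N + (j + 1) * s < b := by
    by_contra h7
    exact hW b (by rw [mem_W]; exact ⟨hbN, by omega⟩) hbS
  refine ⟨a, b, by omega, by omega, haS, hbS, ?_, ?_⟩
  · intro n h7 h8
    rcases Nat.lt_or_ge (N + j * s) n with h9 | h9
    · exact hb_min n h8 h9
    · exact ha_max n h7 h9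
  · -- length
    have h7 : (s : ℝ) + 1 ≤ (b : ℝ) - a := by
      have h8 : a + s + 1 ≤ b := by
        have h9 : N + (j + 1) * s = N + j * s + s := by ring
        omega
      have : ((a + s + 1 : ℕ) : ℝ) ≤ b := by exact_mod_cast h8
      push_cast at this
      linarith
    have h8 : L ^ (2 - θ') ≤ (s : ℝ) + 1 := by
      rw [hs]
      exact (Nat.lt_floor_add_one _).le
    refine le_trans ?_ (h8.trans h7)
    have hx0 : (0:ℝ) < x := by
      have : 0 < N ^ 2 := by positivity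
      have : 0 < x := by omega
      exact_mod_cast this
    have hlogx1 : L ≤ Real.log x := by
      apply Real.log_le_log hNr
      have h9 : N ≤ x := by
        have : N ≤ N ^ 2 := by nlinarith
        omega
      exact_mod_cast h9
    have hlogx2 : Real.log x ≤ 4 * L := by
      have h9 : (x : ℝ) ≤ (N : ℝ) ^ 4 := by exact_mod_cast hx2.le
      have h10 := Real.log_le_log hx0 h9
      rw [Real.log_pow] at h10
      push_cast at h10
      exact h10
    calc (Real.log x) ^ (2 - θ) ≤ (Real.log x) ^ t :=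
          Real.rpow_le_rpow_of_exponent_le (by linarith) ht2
      _ ≤ (4 * L) ^ t := Real.rpow_le_rpow (by linarith) hlogx2 ht0
      _ = 4 ^ t * L ^ t := Real.mul_rpow (by norm_num) hL0.le
      _ ≤ L ^ (2 - θ' - t) * L ^ t := by gcongr
      _ = L ^ (2 - θ') := by
          rw [← Real.rpow_add hL0]
          ring_nf

theorem main {Ω : Type*} [MeasurableSpace Ω] (μ : Measure Ω) [IsProbabilityMeasure μ]
    (E : ℕ → Set Ω) (hE : ∀ p, MeasurableSet (E p)) (hind : iIndepSet E μ)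
    (B c θ : ℝ) (hB : 1 < B) (hc : 0 < c) (hθ : 3 / (B + 2) < θ)
    (hε : ∀ᶠ p : ℕ in atTop, p.Prime →
      (Real.log p) ^ B / p ≤ μ.real (E p) ∧ μ.real (E p) ≤ (p : ℝ) ^ (-c)) :
    ∀ᵐ ω ∂μ,
      (∃ κ > (0 : ℝ), ∀ᶠ x : ℕ in atTop, κ * x / Real.log x ≤
        (((Finset.Icc 1 x).filter (fun q => q.Prime ∧ q ∈ Sv {p | ω ∈ E p})).card : ℝ)) ∧
      (∃ C : ℝ, ∀ x : ℕ, 2 ≤ x →
        (((Finset.Icc 1 x).filter (fun n => n ∈ Sv {p | ω ∈ E p})).card : ℝ) ≤ C * x / Real.log x) ∧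
      (∀ᶠ x : ℕ in atTop, ∃ a b : ℕ, a < b ∧ b ≤ x ∧ a ∈ Sv {p | ω ∈ E p} ∧ b ∈ Sv {p | ω ∈ E p} ∧
        (∀ n, a < n → n < b → n ∉ Sv {p | ω ∈ E p}) ∧ (Real.log x) ^ (2 - θ) ≤ (b : ℝ) - a) := by
  have h2 : 0 < B + 2 := by linarith
  have h1 : 3 / (B + 2) < 1 := by rw [div_lt_one h2]; linarith
  obtain ⟨θ', hθ1, hθ2⟩ : ∃ θ', 3 / (B + 2) < θ' ∧ θ' < min θ 1 := exists_between (lt_min hθ h1)
  have hθ'0 : 0 < θ' := lt_trans (by positivity) hθ1
  have hθ'1 : θ' < 1 := lt_of_lt_of_le hθ2 (min_le_right _ _)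
  have hθ'θ : θ' < θ := lt_of_lt_of_le hθ2 (min_le_left _ _)
  have h3 : 3 < θ' * (B + 2) := by rwa [div_lt_iff₀ h2] at hθ1
  -- choose `η` and `δ`
  have h4 : (3 - 2 * θ') / B < θ' := by
    rw [div_lt_iff₀ (by linarith)]
    nlinarith
  obtain ⟨η, hη1, hη2⟩ := exists_between (max_lt h4 hθ'0)
  have hη0 : 0 < η := lt_of_le_of_lt (le_max_right _ _) hη1
  have h5 : 3 - 2 * θ' < η * B := by
    have := lt_of_le_of_lt (le_max_left _ _) hη1
    rwa [div_lt_iff₀ (by linarith)] at this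
  obtain ⟨δ, hδ0, hδ1⟩ : ∃ δ : ℝ, 0 < δ ∧ 3 - 2 * θ' + δ < η * B :=
    ⟨(η * B - (3 - 2 * θ')) / 2, by linarith, by linarith⟩
  obtain ⟨C, hC, hup⟩ := upper_count
  have hsum := ae_summable μ E hE c hc (hε.mono fun p hp h => (hp h).2)
  have hemp := ae_empty μ E hE hind η θ' δ B c hη0 hη2 hθ'1 hδ0 (by linarith) hc hδ1 hε
  filter_upwards [hsum, hemp] with ω hω1 hω2
  obtain ⟨κ, hκ, hlow⟩ := lower_count {p | ω ∈ E p} hω1
  exact ⟨⟨κ, hκ, hlow⟩, ⟨C, hup _⟩, gaps_of_empty _ θ θ' hθ'0 hθ'θ hθ'1 κ hκ hlow hω2⟩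

end Pool.Agent.Helper76.OB
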