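import Pool.Agent.Helper76.OB.CST

set_option autoImplicit false

/-!
# OB module GOO: at least half of the windows are good

`L = log N`, `s = ⌊L^(2-θ)⌋`, `y = ⌊exp(L^η)⌋`, `v = L^(1-θ+δ)`, `J = N/s ≥ N/(2s)`.
The windows are disjoint subsets of `(N, 2N]` (`W_sub`). Markov's inequality, three times:
* windows containing an `m ∈ Core` with not `(0 < p1 ∧ p1⁸ ≤ N)`: at most `C N L^η/L²` (`count_bad`);
  divided by `J`: `≤ 2 C s L^(η-2) ≤ 2 C L^(η-θ) → 0`;
* windows with more than `v` core elements: `#Core ≤ C N/L` (`count_two` with `P = y`), so at most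
  `C N/(L v)`; divided by `J`: `≤ 2 C L^(-δ) → 0`;
* windows with all core elements controlled and cost `> L/16`: at most
  `(16/L) C N L^η log L/L`; divided by `J`: `≤ 32 C L^(η-θ) log L → 0`.
So for large `N` at most `J/2` windows are not good. (`η < θ < 1`, so `y ≤ N^(1/8)`, i.e. `y⁸ ≤ N`.)
-/

open Filter Classical

namespace Pool.Agent.Helper76.OB

/-- the windows are disjoint -/
lemma W_unique {N s i j m : ℕ} (hi : m ∈ W N s i) (hj : m ∈ W N s j) : i = j := by
  rw [mem_W] at hi hj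
  by_contra hne
  rcases Nat.lt_or_gt_of_ne hne with h | h
  · have : (i + 1) * s ≤ j * s := Nat.mul_le_mul_right s h
    omega
  · have : (j + 1) * s ≤ i * s := Nat.mul_le_mul_right s h
    omega

/-- a nonnegative function summed over the windows -/
lemma sum_windows (N s y J : ℕ) (T0 : Finset ℕ) (f : ℕ → ℝ) (hf : ∀ m, 0 ≤ f m) :
    ∑ j ∈ Finset.range J, ∑ m ∈ CW N s y T0 j, f m ≤ ∑ m ∈ Core N y T0, f m := by
  have h1 : ∀ j, ∑ m ∈ CW N s y T0 j, f m =
      ∑ m ∈ Core N y T0, if m ∈ W N s j then f m else 0 := by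
    intro j
    rw [CW, Finset.sum_filter]
  simp_rw [h1]
  rw [Finset.sum_comm]
  apply Finset.sum_le_sum
  intro m _
  rw [← Finset.sum_filter, Finset.sum_const, nsmul_eq_mul]
  have hc : ((Finset.range J).filter (fun j => m ∈ W N s j)).card ≤ 1 := by
    rw [Finset.card_le_one]
    intro a ha b hb
    rw [Finset.mem_filter] at ha hb
    exact W_unique ha.2 hb.2
  have hc' : (((Finset.range J).filter (fun j => m ∈ W N s j)).card : ℝ) ≤ 1 := by
    exact_mod_cast hc
  calc (((Finset.range J).filter (fun j => m ∈ W N s j)).card : ℝ) * f m ≤ 1 * f m :=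
        mul_le_mul_of_nonneg_right hc' (hf m)
    _ = f m := one_mul _

/-- Markov's inequality for the windows -/
lemma markov_windows (N s y J : ℕ) (T0 : Finset ℕ) (f : ℕ → ℝ) (hf : ∀ m, 0 ≤ f m) (a : ℝ) :
    (((Finset.range J).filter (fun j => a ≤ ∑ m ∈ CW N s y T0 j, f m)).card : ℝ) * a ≤
      ∑ m ∈ Core N y T0, f m := by
  refine le_trans ?_ (sum_windows N s y J T0 f hf)
  calc (((Finset.range J).filter (fun j => a ≤ ∑ m ∈ CW N s y T0 j, f m)).card : ℝ) * a
      = ∑ j ∈ (Finset.range J).filter (fun j => a ≤ ∑ m ∈ CW N s y T0 j, f m), a := by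
        rw [Finset.sum_const, nsmul_eq_mul]
    _ ≤ ∑ j ∈ (Finset.range J).filter (fun j => a ≤ ∑ m ∈ CW N s y T0 j, f m),
          ∑ m ∈ CW N s y T0 j, f m := by
        apply Finset.sum_le_sum
        intro j hj
        exact (Finset.mem_filter.1 hj).2
    _ ≤ ∑ j ∈ Finset.range J, ∑ m ∈ CW N s y T0 j, f m := by
        apply Finset.sum_le_sum_of_subset_of_nonneg (Finset.filter_subset _ _)
        intro j _ _
        exact Finset.sum_nonneg (fun m _ => hf m)

/-- the conditions on `L = log N` -/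
lemma eventually_cond (η θ δ C0 C1 C3 : ℝ) (hη : 0 < η) (hηθ : η < θ) (hθ : θ < 1) (hδ : 0 < δ) :
    ∀ᶠ x : ℝ in atTop, 1 ≤ x ∧ 8 * x ^ η ≤ x ∧ 2 * x ^ (2 - θ) ≤ Real.exp x ∧
      12 * C1 * x ^ η ≤ x ^ θ ∧ 12 * C0 ≤ x ^ δ ∧ 192 * C3 * Real.log x * x ^ η ≤ x ^ θ := by
  have hb : ∀ᶠ x : ℝ in atTop, 8 * x ^ η ≤ x := by
    have h := (tendsto_rpow_atTop (show 0 < 1 - η by linarith)).eventually_ge_atTop (8 : ℝ)
    filter_upwards [h, eventually_ge_atTop (1 : ℝ)] with x hx hx1
    have hp : 0 ≤ x ^ η := Real.rpow_nonneg (by linarith) _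
    have h3 : x ^ (1 - η) * x ^ η = x := by
      rw [← Real.rpow_add (by linarith)]
      have : 1 - η + η = 1 := by ring
      rw [this, Real.rpow_one]
    calc 8 * x ^ η ≤ x ^ (1 - η) * x ^ η := mul_le_mul_of_nonneg_right hx hp
      _ = x := h3
  have hc : ∀ᶠ x : ℝ in atTop, 2 * x ^ (2 - θ) ≤ Real.exp x := by
    have h := (isLittleO_rpow_exp_atTop (2 - θ)).bound (show (0 : ℝ) < 1 / 2 by norm_num)
    filter_upwards [h, eventually_ge_atTop (1 : ℝ)] with x hx hx1
    rw [Real.norm_of_nonneg (Real.rpow_nonneg (by linarith) _),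
      Real.norm_of_nonneg (Real.exp_pos x).le] at hx
    linarith
  have hd : ∀ᶠ x : ℝ in atTop, 12 * C1 * x ^ η ≤ x ^ θ := by
    have h := (tendsto_rpow_atTop (show 0 < θ - η by linarith)).eventually_ge_atTop (12 * C1)
    filter_upwards [h, eventually_ge_atTop (1 : ℝ)] with x hx hx1
    have hp : 0 ≤ x ^ η := Real.rpow_nonneg (by linarith) _
    have h3 : x ^ (θ - η) * x ^ η = x ^ θ := by
      rw [← Real.rpow_add (by linarith)]
      congr 1
      ring
    calc 12 * C1 * x ^ η ≤ x ^ (θ - η) * x ^ η := mul_le_mul_of_nonneg_right hx hp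
      _ = x ^ θ := h3
  have he : ∀ᶠ x : ℝ in atTop, 12 * C0 ≤ x ^ δ :=
    (tendsto_rpow_atTop hδ).eventually_ge_atTop _
  have hf : ∀ᶠ x : ℝ in atTop, 192 * C3 * Real.log x * x ^ η ≤ x ^ θ := by
    have h := (isLittleO_log_rpow_atTop (show 0 < θ - η by linarith)).bound
      (show (0 : ℝ) < 1 / (192 * |C3| + 1) by positivity)
    filter_upwards [h, eventually_ge_atTop (1 : ℝ)] with x hx hx1
    have hl : 0 ≤ Real.log x := Real.log_nonneg hx1
    rw [Real.norm_of_nonneg hl,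
      Real.norm_of_nonneg (Real.rpow_nonneg (by linarith) _)] at hx
    have hp : 0 ≤ x ^ η := Real.rpow_nonneg (by linarith) _
    rw [one_div, inv_mul_eq_div, le_div_iff₀ (by positivity)] at hx
    have h2 : 192 * C3 * Real.log x ≤ Real.log x * (192 * |C3| + 1) := by
      have := le_abs_self C3
      nlinarith
    have h3 : x ^ (θ - η) * x ^ η = x ^ θ := by
      rw [← Real.rpow_add (by linarith)]
      congr 1
      ring
    calc 192 * C3 * Real.log x * x ^ η ≤ x ^ (θ - η) * x ^ η :=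
          mul_le_mul_of_nonneg_right (h2.trans hx) hp
      _ = x ^ θ := h3
  filter_upwards [eventually_ge_atTop (1 : ℝ), hb, hc, hd, he, hf] with x h1 h2 h3 h4 h5 h6
  exact ⟨h1, h2, h3, h4, h5, h6⟩

theorem many_good (η θ δ : ℝ) (hη : 0 < η) (hηθ : η < θ) (hθ : θ < 1) (hδ : 0 < δ) :
    ∀ᶠ N : ℕ in atTop, ∀ T0 : Finset ℕ,
      ((N / sN θ N : ℕ) : ℝ) / 2 ≤
        (((Finset.range (N / sN θ N)).filter (fun j =>
          Good N (sN θ N) (yN η N) ((Real.log N) ^ (1 - θ + δ)) T0 j)).card : ℝ) := by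
  obtain ⟨C0, hC0, H0⟩ := count_two
  obtain ⟨C1, hC1, H1⟩ := count_bad
  obtain ⟨C3, hC3, H3⟩ := cost_sum
  have hlim : Tendsto (fun N : ℕ => Real.log (N : ℝ)) atTop atTop :=
    Real.tendsto_log_atTop.comp tendsto_natCast_atTop_atTop
  filter_upwards [hlim.eventually (eventually_cond η θ δ C0 C1 C3 hη hηθ hθ hδ),
    eventually_ge_atTop 1] with N hN hN1 T0
  obtain ⟨hL1, hb, hc, hd, he, hf⟩ := hN
  set L : ℝ := Real.log N with hL
  set s : ℕ := sN θ N with hs
  set y : ℕ := yN η N with hy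
  set v : ℝ := L ^ (1 - θ + δ) with hv
  set J : ℕ := N / s with hJ
  have hL0 : 0 < L := by linarith
  have hNpos : (0 : ℝ) < N := by exact_mod_cast hN1
  have hexpL : Real.exp L = N := Real.exp_log hNpos
  -- y
  have hLη1 : 1 ≤ L ^ η := Real.one_le_rpow hL1 hη.le
  have hy2 : 2 ≤ y := by
    rw [hy, yN]
    apply Nat.le_floor
    have := Real.add_one_le_exp (L ^ η)
    push_cast
    linarith
  have hyle : (y : ℝ) ≤ Real.exp (L ^ η) := by
    rw [hy, yN]
    exact Nat.floor_le (Real.exp_pos _).le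
  have hy0 : (0 : ℝ) < y := by
    have : (2 : ℝ) ≤ y := by exact_mod_cast hy2
    linarith
  have hlogy : Real.log y ≤ L ^ η := by
    have := Real.log_le_log hy0 hyle
    rwa [Real.log_exp] at this
  have hlogy0 : 0 < Real.log y := Real.log_pos (by
    have : (2 : ℝ) ≤ y := by exact_mod_cast hy2
    linarith)
  have hy8 : y ^ 8 ≤ N := by
    have h1 : ((y : ℝ)) ^ 8 ≤ N := by
      calc ((y : ℝ)) ^ 8 ≤ (Real.exp (L ^ η)) ^ 8 := pow_le_pow_left₀ hy0.le hyle 8
        _ = Real.exp (8 * L ^ η) := by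
            rw [← Real.exp_nat_mul]
            norm_num
        _ ≤ Real.exp L := Real.exp_le_exp.2 hb
        _ = N := hexpL
    exact_mod_cast h1
  have hy4 : y ^ 4 ≤ N := (Nat.pow_le_pow_right (by omega) (by norm_num)).trans hy8
  -- s and J
  have hX1 : 1 ≤ L ^ (2 - θ) := Real.one_le_rpow hL1 (by linarith)
  have hX0 : 0 < L ^ (2 - θ) := by linarith
  have hs1 : 1 ≤ s := by
    rw [hs, sN]
    apply Nat.le_floor
    push_cast
    exact hX1
  have hsle : (s : ℝ) ≤ L ^ (2 - θ) := by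
    rw [hs, sN]
    exact Nat.floor_le hX0.le
  have hs0 : (0 : ℝ) < s := by exact_mod_cast hs1
  have hJge : (N : ℝ) / (2 * L ^ (2 - θ)) ≤ J := by
    have h1 : N < s * J + s := by
      have := Nat.lt_div_mul_add (a := N) (b := s) (by omega)
      rw [hJ]
      nlinarith
    have h2 : (N : ℝ) < s * J + s := by exact_mod_cast h1
    have h3 : 2 * (s : ℝ) ≤ N := by
      rw [← hexpL]
      linarith
    rw [div_le_iff₀ (by positivity)]
    have h4 : (s : ℝ) * J ≤ L ^ (2 - θ) * J := mul_le_mul_of_nonneg_right hsle (Nat.cast_nonneg _)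
    nlinarith
  -- the three bad sets
  set g1 : ℕ → ℝ := fun m => if ¬ (0 < p1 y m ∧ (p1 y m) ^ 8 ≤ N) then 1 else 0 with hg1
  set g3 : ℕ → ℝ := fun m => if (0 < p1 y m ∧ (p1 y m) ^ 8 ≤ N) then Real.log (p1 y m) else 0 with hg3
  have hg1nn : ∀ m, 0 ≤ g1 m := by
    intro m
    rw [hg1]
    dsimp only
    split_ifs <;> norm_num
  have hg3nn : ∀ m, 0 ≤ g3 m := by
    intro m
    rw [hg3]
    dsimp only
    split_ifs
    · exact Real.log_natCast_nonneg _
    · exact le_refl _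
  set B1 := (Finset.range J).filter (fun j => (1 : ℝ) ≤ ∑ m ∈ CW N s y T0 j, g1 m) with hB1
  set B2 := (Finset.range J).filter (fun j => v ≤ ∑ m ∈ CW N s y T0 j, (1 : ℝ)) with hB2
  set B3 := (Finset.range J).filter (fun j => L / 16 ≤ ∑ m ∈ CW N s y T0 j, g3 m) with hB3
  have M1 : (B1.card : ℝ) * 1 ≤ ∑ m ∈ Core N y T0, g1 m := markov_windows N s y J T0 g1 hg1nn 1
  have M2 : (B2.card : ℝ) * v ≤ ∑ m ∈ Core N y T0, (1 : ℝ) :=
    markov_windows N s y J T0 (fun _ => 1) (fun _ => zero_le_one) v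
  have M3 : (B3.card : ℝ) * (L / 16) ≤ ∑ m ∈ Core N y T0, g3 m :=
    markov_windows N s y J T0 g3 hg3nn (L / 16)
  -- the bounds of the sums
  have S1 : ∑ m ∈ Core N y T0, g1 m ≤ C1 * N * L ^ η / L ^ 2 := by
    have h1 : ∑ m ∈ Core N y T0, g1 m =
        (((Core N y T0).filter (fun m => ¬ (0 < p1 y m ∧ (p1 y m) ^ 8 ≤ N))).card : ℝ) := by
      rw [hg1]
      rw [← Finset.sum_filter, Finset.sum_const, nsmul_eq_mul, mul_one]
    rw [h1]
    refine (H1 N y T0 hy2 hy8).trans ?_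
    have : 0 < L ^ 2 := by positivity
    apply div_le_div_of_nonneg_right _ this.le
    exact mul_le_mul_of_nonneg_left hlogy (by positivity)
  have S2 : ∑ m ∈ Core N y T0, (1 : ℝ) ≤ C0 * N / L := by
    have h1 := H0 N y y T0 hy2 le_rfl hy4
    have h2 : (Core N y T0).filter (fun m => ∀ p ∈ PR y y, ¬ p ∣ m - 1) = Core N y T0 := by
      apply Finset.filter_true_of_mem
      intro m _ p hp
      rw [mem_PR] at hp
      omega
    rw [h2] at h1
    rw [Finset.sum_const, nsmul_eq_mul, mul_one]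
    refine h1.trans (le_of_eq ?_)
    rw [← hL]
    field_simp
  have S3 : ∑ m ∈ Core N y T0, g3 m ≤ C3 * N * L ^ η * Real.log L / L := by
    have h1 : ∑ m ∈ Core N y T0, g3 m =
        ∑ m ∈ (Core N y T0).filter (fun m => 0 < p1 y m ∧ (p1 y m) ^ 8 ≤ N), Real.log (p1 y m) := by
      rw [hg3]
      rw [← Finset.sum_filter]
    rw [h1]
    refine (H3 N y T0 hy2 hy8).trans ?_
    apply div_le_div_of_nonneg_right _ hL0.le
    have hlL : 0 ≤ Real.log L := Real.log_nonneg hL1
    apply mul_le_mul_of_nonneg_right _ hlL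
    exact mul_le_mul_of_nonneg_left hlogy (by positivity)
  -- conclusions
  have hLθ : L ^ (2 - θ) * L ^ θ = L ^ 2 := by
    rw [← Real.rpow_add hL0]
    have : (2 - θ + θ) = ((2 : ℕ) : ℝ) := by push_cast; ring
    rw [this, Real.rpow_natCast]
  have hLθ0 : 0 < L ^ θ := Real.rpow_pos_of_pos hL0 _
  have hLη0 : 0 < L ^ η := Real.rpow_pos_of_pos hL0 _
  have hLδ0 : 0 < L ^ δ := Real.rpow_pos_of_pos hL0 _
  have R1 : (B1.card : ℝ) ≤ N / (12 * L ^ (2 - θ)) := by
    rw [mul_one] at M1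
    refine (M1.trans S1).trans ?_
    rw [div_le_div_iff₀ (by positivity) (by positivity), ← hLθ]
    have : 12 * C1 * L ^ η * (N * L ^ (2 - θ)) ≤ L ^ θ * (N * L ^ (2 - θ)) :=
      mul_le_mul_of_nonneg_right hd (by positivity)
    nlinarith
  have hvL : v * L = L ^ (2 - θ) * L ^ δ := by
    rw [hv, ← Real.rpow_add hL0]
    nth_rw 2 [← Real.rpow_one L]
    rw [← Real.rpow_add hL0]
    congr 1
    ring
  have hv0 : 0 < v := Real.rpow_pos_of_pos hL0 _
  have R2 : (B2.card : ℝ) ≤ N / (12 * L ^ (2 - θ)) := by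
    have h1 : (B2.card : ℝ) * v ≤ C0 * N / L := M2.trans S2
    rw [le_div_iff₀ hL0] at h1
    have h2 : (B2.card : ℝ) * (L ^ (2 - θ) * L ^ δ) ≤ C0 * N := by
      rw [← hvL]
      linarith
    rw [le_div_iff₀ (by positivity)]
    have h3 : (B2.card : ℝ) * L ^ (2 - θ) * (12 * C0) ≤ (B2.card : ℝ) * L ^ (2 - θ) * L ^ δ :=
      mul_le_mul_of_nonneg_left he (by positivity)
    have h4 : ((B2.card : ℝ) * (12 * L ^ (2 - θ))) * C0 ≤ N * C0 := by nlinarith
    exact le_of_mul_le_mul_right h4 hC0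
  have R3 : (B3.card : ℝ) ≤ N / (12 * L ^ (2 - θ)) := by
    have h1 : (B3.card : ℝ) * (L / 16) ≤ C3 * N * L ^ η * Real.log L / L := M3.trans S3
    rw [le_div_iff₀ hL0] at h1
    have h2 : (B3.card : ℝ) * (L ^ (2 - θ) * L ^ θ) ≤ 16 * (C3 * N * L ^ η * Real.log L) := by
      rw [hLθ]
      nlinarith
    rw [le_div_iff₀ (by positivity)]
    have h3 : N * (192 * C3 * Real.log L * L ^ η) ≤ N * L ^ θ :=
      mul_le_mul_of_nonneg_left hf hNpos.le
    have h4 : ((B3.card : ℝ) * (12 * L ^ (2 - θ))) * L ^ θ ≤ N * L ^ θ := by nlinarith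
    exact le_of_mul_le_mul_right h4 hLθ0
  -- every window outside the bad sets is good
  have hcover : Finset.range J ⊆ ((Finset.range J).filter (fun j => Good N s y v T0 j)) ∪
      (B1 ∪ (B2 ∪ B3)) := by
    intro j hj
    by_cases h1 : j ∈ B1
    · simp [h1]
    by_cases h2 : j ∈ B2
    · simp [h2]
    by_cases h3 : j ∈ B3
    · simp [h3]
    rw [Finset.mem_union]
    left
    rw [Finset.mem_filter]
    refine ⟨hj, ?_⟩
    have hsmall : ∀ m ∈ CW N s y T0 j, 0 < p1 y m ∧ (p1 y m) ^ 8 ≤ N := by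
      intro m hm
      by_contra hcon
      apply h1
      rw [hB1, Finset.mem_filter]
      refine ⟨hj, ?_⟩
      calc (1 : ℝ) = g1 m := by
            rw [hg1]
            dsimp only
            rw [if_pos hcon]
        _ ≤ ∑ m ∈ CW N s y T0 j, g1 m := Finset.single_le_sum (fun i _ => hg1nn i) hm
    refine ⟨Finset.mem_range.1 hj, hsmall, ?_, ?_⟩
    · by_contra hcon
      apply h2
      rw [hB2, Finset.mem_filter]
      refine ⟨hj, ?_⟩
      rw [Finset.sum_const, nsmul_eq_mul, mul_one]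
      exact (not_le.1 hcon).le
    · by_contra hcon
      apply h3
      rw [hB3, Finset.mem_filter]
      refine ⟨hj, ?_⟩
      have heq : ∑ m ∈ CW N s y T0 j, g3 m = ∑ m ∈ CW N s y T0 j, Real.log (p1 y m) := by
        apply Finset.sum_congr rfl
        intro m hm
        rw [hg3]
        dsimp only
        rw [if_pos (hsmall m hm)]
      rw [heq]
      exact (not_le.1 hcon).le
  have hcard : (J : ℝ) ≤ (((Finset.range J).filter (fun j => Good N s y v T0 j)).card : ℝ) +
      (B1.card + (B2.card + B3.card)) := by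
    have h1 := Finset.card_le_card hcover
    rw [Finset.card_range] at h1
    have h2 := Finset.card_union_le ((Finset.range J).filter (fun j => Good N s y v T0 j))
      (B1 ∪ (B2 ∪ B3))
    have h3 := Finset.card_union_le B1 (B2 ∪ B3)
    have h4 := Finset.card_union_le B2 B3
    have h5 : J ≤ ((Finset.range J).filter (fun j => Good N s y v T0 j)).card +
      (B1.card + (B2.card + B3.card)) := by omega
    exact_mod_cast h5
  have hsum : (N : ℝ) / (12 * L ^ (2 - θ)) * 3 ≤ J / 2 := by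
    have h1 : (N : ℝ) / (12 * L ^ (2 - θ)) * 3 = (N / (2 * L ^ (2 - θ))) / 2 := by
      field_simp
      ring
    rw [h1]
    linarith
  linarith

end Pool.Agent.Helper76.OB
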