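import Pool.Agent.Helper76.OB.Defs

set_option autoImplicit false

/-!
# OB module KIL: setting the bits `VV`, not setting the bits `UU` empties the window

`z = Nat.sqrt N`, `y ≤ z`, `T0 ⊆ PR 2 y`, `T1 ⊆ PR y z`, `T = T0 ∪ T1`.
Killing: let `m ∈ W N s j`. If `¬ Sur T0 (PR 1 y) m` then some `p ≤ y` kills `m`
(`cl T p = cl T0 p` for `p ≤ y`). Otherwise, if `p ∣ m` for some `p ∈ PR y z` then `p ∈ UU`, `p ∉ T1`,
`p ∉ T0`, `cl T p = 0` and `p` kills `m`. Otherwise `m ∈ CW` (`W_sub`), `p = p1 y m ∈ VV ⊆ T1`,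
`p ∣ m - 1` (`Nat.sInf_mem`), i.e. `m ≡ 1 = cl T p`, and `p ≤ z` since `p⁸ ≤ N`.

Disjoint: if `p ∈ UU ∩ VV` then `p ∣ m` and `p ∣ m' - 1` with `m, m' ∈ W N s j`, both odd (they survive
`p = 2` with `cl T0 2 = 0`). `|m - m'| < s`, so `|m - (m' - 1)| ≤ s < p` and hence `m = m' - 1`,
contradicting parity. (Careful with natural subtraction: `m' ≥ N + 1 ≥ 1`.)
-/

open Filter Classical

namespace Pool.Agent.Helper76.OB

private lemma KIL_sqrt {N p : ℕ} (h : p ^ 8 ≤ N) : p ≤ Nat.sqrt N := by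
  rw [Nat.le_sqrt]
  rcases Nat.eq_zero_or_pos p with h0 | h0
  · subst h0; simp
  · refine le_trans ?_ h
    calc p * p = p ^ 2 := by ring
      _ ≤ p ^ 8 := Nat.pow_le_pow_right h0 (by norm_num)

private lemma KIL_p1 {y m : ℕ} (h : 0 < p1 y m) :
    (p1 y m).Prime ∧ y < p1 y m ∧ p1 y m ∣ m - 1 := by
  have hne : {p : ℕ | p.Prime ∧ y < p ∧ p ∣ m - 1}.Nonempty := by
    by_contra hc
    rw [Set.not_nonempty_iff_eq_empty] at hc
    rw [p1, hc, Nat.sInf_empty] at h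
    exact lt_irrefl _ h
  exact Nat.sInf_mem hne

private lemma KIL_mem_CW {N s y j m : ℕ} {T0 : Finset ℕ} (h : m ∈ CW N s y T0 j) :
    m ∈ W N s j ∧ Sur T0 (PR 1 y) m ∧ N < m ∧ ∀ p ∈ PR y (Nat.sqrt N), ¬ p ∣ m := by
  unfold CW Core at h
  simp only [Finset.mem_filter, Finset.mem_Ioc] at h
  exact ⟨h.2, h.1.2.1, h.1.1.1, h.1.2.2⟩

private lemma KIL_VV {N s y j p : ℕ} {v : ℝ} {T0 : Finset ℕ} (hg : Good N s y v T0 j)
    (hp : p ∈ VV N s y T0 j) : ∃ m ∈ CW N s y T0 j, p1 y m = p ∧ p.Prime ∧ y < p ∧ p ∣ m - 1 ∧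
      p ^ 8 ≤ N := by
  unfold VV at hp
  rw [Finset.mem_image] at hp
  obtain ⟨m, hm, rfl⟩ := hp
  obtain ⟨h1, h2⟩ := hg.small m hm
  obtain ⟨h3, h4, h5⟩ := KIL_p1 h1
  exact ⟨m, hm, rfl, h3, h4, h5, h2⟩

theorem kills (N s y : ℕ) (v : ℝ) (T0 T1 : Finset ℕ) (j : ℕ) (hy : 2 ≤ y) (hyz : y ≤ Nat.sqrt N)
    (hT0 : T0 ⊆ PR 2 y) (hT1 : T1 ⊆ PR y (Nat.sqrt N)) (hg : Good N s y v T0 j)
    (hV : VV N s y T0 j ⊆ T1) (hU : Disjoint (UU N s y T0 j) T1) :
    ∀ m ∈ W N s j, ¬ Sur (T0 ∪ T1) (PR 1 (Nat.sqrt N)) m := by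
  intro m hm hsur
  have hT0' : ∀ p, p ∈ T0 → p ≤ y := fun p hp => ((mem_PR.1 (hT0 hp)).1).2
  have hT1' : ∀ p, p ∈ T1 → y < p := fun p hp => ((mem_PR.1 (hT1 hp)).1).1
  by_cases h1 : Sur T0 (PR 1 y) m
  · by_cases h2 : ∃ p ∈ PR y (Nat.sqrt N), p ∣ m
    · obtain ⟨p, hp, hpm⟩ := h2
      have hpU : p ∈ UU N s y T0 j := by
        unfold UU
        rw [Finset.mem_filter]
        exact ⟨hp, m, hm, h1, hpm⟩
      have hpT1 : p ∉ T1 := Finset.disjoint_left.1 hU hpU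
      rw [mem_PR] at hp
      have hpT0 : p ∉ T0 := fun h => by
        have := hT0' p h
        omega
      refine hsur p (mem_PR.2 ⟨⟨hp.2.one_lt, hp.1.2⟩, hp.2⟩) ?_
      have hcl : cl (T0 ∪ T1) p = 0 := by
        unfold cl
        rw [if_neg]
        rw [Finset.mem_union]
        tauto
      rw [hcl]
      exact (Nat.modEq_zero_iff_dvd).2 hpm
    · push Not at h2
      have hW := W_sub hg.lt hm
      have hmCW : m ∈ CW N s y T0 j := by
        unfold CW Core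
        simp only [Finset.mem_filter, Finset.mem_Ioc]
        exact ⟨⟨hW, h1, h2⟩, hm⟩
      have hpV : p1 y m ∈ VV N s y T0 j := by
        unfold VV
        exact Finset.mem_image_of_mem _ hmCW
      obtain ⟨h3, h4⟩ := hg.small m hmCW
      obtain ⟨h5, h6, h7⟩ := KIL_p1 h3
      refine hsur (p1 y m) (mem_PR.2 ⟨⟨h5.one_lt, KIL_sqrt h4⟩, h5⟩) ?_
      have hcl : cl (T0 ∪ T1) (p1 y m) = 1 := by
        unfold cl
        rw [if_pos]
        exact Finset.mem_union_right _ (hV hpV)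
      rw [hcl]
      exact ((Nat.modEq_iff_dvd' (by omega)).2 h7).symm
  · unfold Sur at h1
    push Not at h1
    obtain ⟨p, hp, hpm⟩ := h1
    rw [mem_PR] at hp
    have hpT1 : p ∉ T1 := fun h => by
      have := hT1' p h
      omega
    refine hsur p (mem_PR.2 ⟨⟨hp.1.1, hp.1.2.trans hyz⟩, hp.2⟩) ?_
    have hcl : cl (T0 ∪ T1) p = cl T0 p := by
      unfold cl
      by_cases h : p ∈ T0
      · rw [if_pos h, if_pos (Finset.mem_union_left _ h)]
      · rw [if_neg h, if_neg]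
        rw [Finset.mem_union]
        tauto
    rw [hcl]
    exact hpm

theorem UU_subset (N s y : ℕ) (T0 : Finset ℕ) (j : ℕ) : UU N s y T0 j ⊆ PR y (Nat.sqrt N) := by
  unfold UU; exact Finset.filter_subset _ _

theorem VV_subset (N s y : ℕ) (v : ℝ) (T0 : Finset ℕ) (j : ℕ) (hg : Good N s y v T0 j) :
    VV N s y T0 j ⊆ PR y (Nat.sqrt N) := by
  intro p hp
  obtain ⟨m, _, _, h3, h4, _, h6⟩ := KIL_VV hg hp
  exact mem_PR.2 ⟨⟨h4, KIL_sqrt h6⟩, h3⟩

/-- the data needed for `sharing` -/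
theorem VV_data (N s y : ℕ) (v : ℝ) (T0 : Finset ℕ) (j : ℕ) (hg : Good N s y v T0 j) :
    (∀ p ∈ VV N s y T0 j, p.Prime ∧ y < p ∧ p ^ 8 ≤ N) ∧
    (∀ p ∈ VV N s y T0 j, ∃ n, N + j * s ≤ n ∧ n < N + (j + 1) * s ∧ p ∣ n) ∧
    (((VV N s y T0 j).card : ℝ) ≤ v) ∧
    (∏ p ∈ VV N s y T0 j, (p : ℝ) ≤ (N : ℝ) ^ ((1 : ℝ) / 16)) := by
  refine ⟨?_, ?_, ?_, ?_⟩
  · intro p hp
    obtain ⟨m, _, _, h3, h4, _, h6⟩ := KIL_VV hg hp
    exact ⟨h3, h4, h6⟩
  · intro p hp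
    obtain ⟨m, hm, _, h3, h4, h5, h6⟩ := KIL_VV hg hp
    have h7 := (KIL_mem_CW hm).1
    rw [mem_W] at h7
    exact ⟨m - 1, by omega, by omega, h5⟩
  · refine le_trans ?_ hg.card_le
    exact_mod_cast Finset.card_image_le
  · have hN : 0 < N := by
      rcases Nat.eq_zero_or_pos N with h | h
      · have := hg.lt
        rw [h, Nat.zero_div] at this
        omega
      · exact h
    have hN0 : (0 : ℝ) < N := by exact_mod_cast hN
    have hpos : ∀ p ∈ VV N s y T0 j, (0 : ℝ) < p := by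
      intro p hp
      obtain ⟨m, _, _, h3, _⟩ := KIL_VV hg hp
      exact_mod_cast h3.pos
    have h1 : Real.log (∏ p ∈ VV N s y T0 j, (p : ℝ)) = ∑ p ∈ VV N s y T0 j, Real.log (p : ℝ) :=
      Real.log_prod (fun p hp => (hpos p hp).ne')
    have h2 : ∑ p ∈ VV N s y T0 j, Real.log (p : ℝ) ≤
        ∑ m ∈ CW N s y T0 j, Real.log (p1 y m) := by
      unfold VV
      rw [← Finset.sum_fiberwise_of_maps_to (g := p1 y)
        (fun m hm => Finset.mem_image_of_mem (p1 y) hm) (fun m => Real.log (p1 y m))]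
      refine Finset.sum_le_sum (fun p hp => ?_)
      rw [Finset.mem_image] at hp
      obtain ⟨m, hm, rfl⟩ := hp
      refine Finset.single_le_sum (f := fun m' => Real.log (p1 y m' : ℝ))
        (fun m' _ => Real.log_natCast_nonneg _) (a := m) ?_
      rw [Finset.mem_filter]
      exact ⟨hm, rfl⟩
    have h3 : 0 < ∏ p ∈ VV N s y T0 j, (p : ℝ) := Finset.prod_pos hpos
    rw [← Real.log_le_log_iff h3 (Real.rpow_pos_of_pos hN0 _), Real.log_rpow hN0, h1]
    have h4 := hg.cost_le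
    linarith

theorem UV_disjoint (N s y : ℕ) (v : ℝ) (T0 : Finset ℕ) (j : ℕ) (hy : 2 ≤ y) (hsy : s ≤ y)
    (hT0 : T0 ⊆ PR 2 y) (hg : Good N s y v T0 j) :
    Disjoint (UU N s y T0 j) (VV N s y T0 j) := by
  rw [Finset.disjoint_left]
  intro p hpU hpV
  obtain ⟨m', hm', _, h3, h4, h5, h6⟩ := KIL_VV hg hpV
  unfold UU at hpU
  rw [Finset.mem_filter] at hpU
  obtain ⟨_, m, hm, hsur, hpm⟩ := hpU
  obtain ⟨h7, h8, h9, _⟩ := KIL_mem_CW hm'
  have h2T : (2 : ℕ) ∉ T0 := fun h => by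
    have := (mem_PR.1 (hT0 h)).1.1
    omega
  have hodd : ∀ a : ℕ, Sur T0 (PR 1 y) a → a % 2 = 1 := by
    intro a ha
    have h1 := ha 2 (mem_PR.2 ⟨⟨by norm_num, hy⟩, Nat.prime_two⟩)
    unfold cl at h1
    rw [if_neg h2T] at h1
    unfold Nat.ModEq at h1
    omega
  have h10 := hodd m hsur
  have h11 := hodd m' h8
  rw [mem_W] at hm h7
  have hexp : (j + 1) * s = j * s + s := by ring
  rw [hexp] at hm h7
  rcases le_total m (m' - 1) with hle | hle
  · have hd : p ∣ (m' - 1) - m := Nat.dvd_sub h5 hpm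
    rcases Nat.eq_zero_or_pos ((m' - 1) - m) with h0 | h0
    · omega
    · have := Nat.le_of_dvd h0 hd
      omega
  · have hd : p ∣ m - (m' - 1) := Nat.dvd_sub hpm h5
    rcases Nat.eq_zero_or_pos (m - (m' - 1)) with h0 | h0
    · omega
    · have := Nat.le_of_dvd h0 hd
      omega

private lemma KIL_omega {m M : ℕ} (hm : 0 < m) (hM : m ≤ M) :
    (m.primeFactors.card : ℝ) ≤ Real.log M / Real.log 2 := by
  have h1 : 2 ^ m.primeFactors.card ≤ m := by
    calc 2 ^ m.primeFactors.card = ∏ _p ∈ m.primeFactors, 2 := by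
          rw [Finset.prod_const]
      _ ≤ ∏ p ∈ m.primeFactors, p :=
          Finset.prod_le_prod' (fun p hp => (Nat.prime_of_mem_primeFactors hp).two_le)
      _ ≤ m := Nat.le_of_dvd hm (Nat.prod_primeFactors_dvd m)
  have h2 : (2 : ℝ) ^ m.primeFactors.card ≤ M := by exact_mod_cast h1.trans hM
  have h3 : 0 < Real.log 2 := Real.log_pos (by norm_num)
  rw [le_div_iff₀ h3, ← Real.log_pow]
  exact Real.log_le_log (by positivity) h2

/-- every `m ≤ 2N` has at most `log (2N)/log 2` prime factors -/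
theorem UU_card (N s y : ℕ) (T0 : Finset ℕ) (j : ℕ) (hj : j < N / s) :
    ((UU N s y T0 j).card : ℝ) ≤ s * (Real.log (2 * N) / Real.log 2) := by
  have hsub : UU N s y T0 j ⊆ (W N s j).biUnion Nat.primeFactors := by
    intro p hp
    unfold UU at hp
    rw [Finset.mem_filter] at hp
    obtain ⟨hp1, m, hm, _, hpm⟩ := hp
    rw [Finset.mem_biUnion]
    have := (W_sub hj hm).1
    exact ⟨m, hm, Nat.mem_primeFactors.2 ⟨(mem_PR.1 hp1).2, hpm, by omega⟩⟩
  have h1 : ((UU N s y T0 j).card : ℝ) ≤ ∑ m ∈ W N s j, (m.primeFactors.card : ℝ) := by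
    exact_mod_cast (Finset.card_le_card hsub).trans Finset.card_biUnion_le
  refine h1.trans ?_
  have h2 : ∑ m ∈ W N s j, (m.primeFactors.card : ℝ) ≤
      ∑ _m ∈ W N s j, Real.log (2 * N) / Real.log 2 := by
    refine Finset.sum_le_sum (fun m hm => ?_)
    have h3 := W_sub hj hm
    have h4 := KIL_omega (m := m) (M := 2 * N) (by omega) h3.2
    push_cast at h4
    exact h4
  refine h2.trans (le_of_eq ?_)
  rw [Finset.sum_const, nsmul_eq_mul]
  congr 1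
  unfold W
  rw [Nat.card_Ioc]
  have : N + (j + 1) * s - (N + j * s) = s := by
    have hexp : (j + 1) * s = j * s + s := by ring
    rw [hexp]; omega
  rw [this]

end Pool.Agent.Helper76.OB
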