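import Pool.Agent.Helper76.OB.Defs
import Pool.Agent.Helper4.ST.LS

set_option autoImplicit false

/-!
# OB module LSV: the arithmetic large sieve (Montgomery)

`S(α) = ∑_{n ≤ N} a_n e(nα)`, where `a_n` is the indicator of `M + n ∈ A`.

Step 1 (one prime). If the support of `a` meets at most `p - ω` classes mod `p`, then for every real `α`
`∑_{b=0}^{p-1} |S(α + b/p)|² = p ∑_h |Z_h|²`, `Z_h = ∑_{n = h (p)} a_n e(nα)`, and by Cauchy-Schwarz
`|S(α)|² = |∑_h Z_h|² ≤ (p - ω) ∑_h |Z_h|²`. So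
`∑_{b=1}^{p-1} |S(α + b/p)|² ≥ (p/(p-ω) - 1) |S(α)|² = ω/(p-ω) |S(α)|²`.

Step 2 (squarefree `q`). For `q = p q'`, `p ∤ q'`, the fractions `b/q` with `(b,q) = 1` are mod 1 the
numbers `b₁/p + b₂/q'`, `(b₁,p) = 1`, `(b₂,q') = 1`. Induction on the number of primes:
`∑_{(b,q)=1} |S(b/q)|² ≥ ∏_{p∣q} ω(p)/(p-ω(p)) |S(0)|²` (apply Step 1 with `α = b₂/q'`).

Step 3. Sum over squarefree `2 ≤ q ≤ X` and use `Pool.Agent.Helper4.ST.additive_large_sieve`
(`≤ (X² + 4π(N+1)) ∑|a_n|²`, `4π < 12.57`), add the term `q = 1`: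
`|S(0)|² ≤ (N+1) ∑ |a_n|²`. Here `S(0) = #A = ∑|a_n|²`. (`#A = 0` is trivial.)
-/

open Filter Classical

namespace Pool.Agent.Helper76.OB

open Pool.Agent.Helper8.ArtinLS

/-- the exponential sum -/
noncomputable def LSV_S (a : ℕ → ℂ) (N : ℕ) (t : ℝ) : ℂ :=
  ∑ n ∈ Finset.range (N + 1), a n * eC n t

lemma LSV_eC_add (n : ℕ) (t u : ℝ) : eC n (t + u) = eC n t * eC n u := by
  unfold eC
  rw [← Complex.exp_add]
  congr 1
  push_cast
  ring

lemma LSV_eC_nat (n k : ℕ) : eC n (k : ℝ) = 1 := by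
  unfold eC
  rw [Complex.exp_eq_one_iff]
  refine ⟨(n * k : ℕ), ?_⟩
  push_cast
  ring

lemma LSV_S_add_nat (a : ℕ → ℂ) (N : ℕ) (t : ℝ) (k : ℕ) :
    LSV_S a N (t + k) = LSV_S a N t := by
  unfold LSV_S
  refine Finset.sum_congr rfl fun n _ => ?_
  rw [LSV_eC_add, LSV_eC_nat, mul_one]

/-- sum over the reduced fractions with denominator `q` -/
noncomputable def LSV_Phi (a : ℕ → ℂ) (N q : ℕ) (t : ℝ) : ℝ :=
  ∑ b ∈ (Finset.range q).filter (fun b => Nat.Coprime b q), ‖LSV_S a N (t + (b : ℝ) / q)‖ ^ 2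

theorem LSV_one (p : ℕ) [hp : Fact p.Prime] (a : ℕ → ℂ) (N w : ℕ) (hw : w < p)
    (hsupp : (((Finset.range (N + 1)).filter (fun n => a n ≠ 0)).image
      (fun n : ℕ => (n : ZMod p))).card + w ≤ p) (t : ℝ) :
    (w : ℝ) / ((p : ℝ) - w) * ‖LSV_S a N t‖ ^ 2 ≤ LSV_Phi a N p t := by
  set a' : ℕ → ℂ := fun n => a n * eC n t with ha'
  set Z : ZMod p → ℂ := fun x =>
    ∑ n ∈ (Finset.range (N + 1)).filter (fun n : ℕ => (n : ZMod p) = x), a' n with hZ
  have h0 : ∀ F : ZMod p → ℂ, ∑ n ∈ Finset.range (N + 1), a' n * F (n : ZMod p) =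
      ∑ x : ZMod p, F x * Z x := by
    intro F
    rw [← Finset.sum_fiberwise_of_maps_to (s := Finset.range (N + 1)) (t := Finset.univ)
      (g := fun n : ℕ => (n : ZMod p)) (fun _ _ => Finset.mem_univ _)]
    refine Finset.sum_congr rfl fun x _ => ?_
    rw [hZ]
    simp only
    rw [Finset.mul_sum]
    refine Finset.sum_congr rfl fun n hn => ?_
    rw [(Finset.mem_filter.mp hn).2]
    ring
  have hS : ∀ b : ℕ, LSV_S a N (t + (b : ℝ) / p) =
      ∑ x : ZMod p, ZMod.stdAddChar ((b : ZMod p) * x) * Z x := by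
    intro b
    rw [← h0 (fun x => (ZMod.stdAddChar ((b : ZMod p) * x) : ℂ))]
    unfold LSV_S
    refine Finset.sum_congr rfl fun n _ => ?_
    rw [LSV_eC_add, ha']
    simp only
    rw [mul_assoc]
    congr 2
    have h4 : ((b : ZMod p) * (n : ZMod p)) = (((b * n : ℕ) : ℤ) : ZMod p) := by push_cast; rfl
    rw [h4, ZMod.stdAddChar_coe]
    unfold eC
    congr 1
    push_cast
    ring
  have hPars := add_parseval Z
  have hsum : ∑ b : ZMod p, ‖∑ x : ZMod p, ZMod.stdAddChar (b * x) * Z x‖ ^ 2 =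
      ∑ b ∈ Finset.range p, ‖LSV_S a N (t + (b : ℝ) / p)‖ ^ 2 := by
    symm
    refine Finset.sum_bij' (fun b _ => (b : ZMod p)) (fun x _ => x.val) ?_ ?_ ?_ ?_ ?_
    · intro b _
      exact Finset.mem_univ _
    · intro x _
      exact Finset.mem_range.2 (ZMod.val_lt x)
    · intro b hb
      exact ZMod.val_cast_of_lt (Finset.mem_range.1 hb)
    · intro x _
      exact ZMod.natCast_zmod_val x
    · intro b _
      rw [hS]
  have hppos : 0 < p := hp.out.pos
  have hsplit : ∑ b ∈ Finset.range p, ‖LSV_S a N (t + (b : ℝ) / p)‖ ^ 2 =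
      ‖LSV_S a N t‖ ^ 2 + LSV_Phi a N p t := by
    have h1 : (Finset.range p).filter (fun b => Nat.Coprime b p) = (Finset.range p).erase 0 := by
      ext b
      rw [Finset.mem_filter, Finset.mem_erase, Finset.mem_range]
      constructor
      · rintro ⟨h1, h2⟩
        refine ⟨?_, h1⟩
        rintro rfl
        rw [Nat.coprime_zero_left] at h2
        exact hp.out.one_lt.ne' h2
      · rintro ⟨h1, h2⟩
        exact ⟨h2, (Nat.coprime_of_lt_prime h1 h2 hp.out).symm⟩
    unfold LSV_Phi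
    rw [h1, ← Finset.add_sum_erase _ _ (Finset.mem_range.2 hppos)]
    simp
  -- Cauchy-Schwarz
  have hCS : ‖LSV_S a N t‖ ^ 2 ≤ ((p : ℝ) - w) * ∑ x : ZMod p, ‖Z x‖ ^ 2 := by
    set I := ((Finset.range (N + 1)).filter (fun n => a n ≠ 0)).image
      (fun n : ℕ => (n : ZMod p)) with hI
    have h1 : LSV_S a N t = ∑ x ∈ I, Z x := by
      have h2 := hS 0
      simp only [Nat.cast_zero, zero_div, add_zero, zero_mul, AddChar.map_zero_eq_one,
        one_mul] at h2
      rw [h2]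
      symm
      apply Finset.sum_subset (Finset.subset_univ _)
      intro x _ hx
      rw [hZ]
      simp only
      refine Finset.sum_eq_zero fun n hn => ?_
      rw [Finset.mem_filter] at hn
      by_contra hne
      apply hx
      rw [hI, Finset.mem_image]
      refine ⟨n, Finset.mem_filter.2 ⟨hn.1, ?_⟩, hn.2⟩
      intro h3
      apply hne
      rw [ha']
      simp only
      rw [h3, zero_mul]
    have hcard : ((I.card : ℕ) : ℝ) ≤ (p : ℝ) - w := by
      rw [le_sub_iff_add_le]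
      exact_mod_cast hsupp
    have h2 : ‖LSV_S a N t‖ ≤ ∑ x ∈ I, ‖Z x‖ := by
      rw [h1]
      exact norm_sum_le _ _
    calc ‖LSV_S a N t‖ ^ 2 ≤ (∑ x ∈ I, ‖Z x‖) ^ 2 := pow_le_pow_left₀ (norm_nonneg _) h2 2
      _ ≤ (I.card : ℝ) * ∑ x ∈ I, ‖Z x‖ ^ 2 := sq_sum_le_card_mul_sum_sq
      _ ≤ ((p : ℝ) - w) * ∑ x : ZMod p, ‖Z x‖ ^ 2 := by
          apply mul_le_mul hcard _ (Finset.sum_nonneg fun x _ => by positivity)
          · rw [sub_nonneg]
            exact_mod_cast hw.le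
          · exact Finset.sum_le_sum_of_subset_of_nonneg (Finset.subset_univ _)
              fun x _ _ => by positivity
  have hd : (0 : ℝ) < (p : ℝ) - w := by
    rw [sub_pos]
    exact_mod_cast hw
  have h5 : (p : ℝ) * ∑ x : ZMod p, ‖Z x‖ ^ 2 = ‖LSV_S a N t‖ ^ 2 + LSV_Phi a N p t := by
    rw [← hPars, hsum, hsplit]
  set V := ∑ x : ZMod p, ‖Z x‖ ^ 2 with hV
  rw [div_mul_eq_mul_div, div_le_iff₀ hd]
  have hp0 : (0 : ℝ) < p := by exact_mod_cast hppos
  nlinarith [mul_le_mul_of_nonneg_left hCS hp0.le]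

theorem LSV_mul (a : ℕ → ℂ) (N : ℕ) (p q : ℕ) (hp : 0 < p) (hq : 0 < q) (hpq : Nat.Coprime p q)
    (t : ℝ) : ∑ b ∈ (Finset.range q).filter (fun b => Nat.Coprime b q),
      LSV_Phi a N p (t + (b : ℝ) / q) ≤ LSV_Phi a N (p * q) t := by
  unfold LSV_Phi
  rw [← Finset.sum_product']
  have hp' : (p : ℝ) ≠ 0 := by exact_mod_cast hp.ne'
  have hq' : (q : ℝ) ≠ 0 := by exact_mod_cast hq.ne'
  set g : ℕ × ℕ → ℕ := fun x => (x.2 * q + x.1 * p) % (p * q) with hg
  set D := ((Finset.range q).filter (fun b => Nat.Coprime b q)) ×ˢ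
    ((Finset.range p).filter (fun b => Nat.Coprime b p)) with hD
  have hmodp : ∀ x : ℕ × ℕ, g x ≡ x.2 * q [MOD p] := by
    intro x
    have h1 : g x ≡ x.2 * q + x.1 * p [MOD p * q] := Nat.mod_modEq _ _
    refine (h1.of_mul_right q).trans ?_
    have h2 : x.2 * q + x.1 * p ≡ x.2 * q + 0 [MOD p] := by
      apply Nat.ModEq.add_left
      exact (Nat.modEq_zero_iff_dvd).2 (Dvd.intro_left _ rfl)
    simpa using h2
  have hmodq : ∀ x : ℕ × ℕ, g x ≡ x.1 * p [MOD q] := by
    intro x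
    have h1 : g x ≡ x.2 * q + x.1 * p [MOD p * q] := Nat.mod_modEq _ _
    refine (h1.of_mul_left p).trans ?_
    have h2 : x.2 * q + x.1 * p ≡ 0 + x.1 * p [MOD q] := by
      apply Nat.ModEq.add_right
      exact (Nat.modEq_zero_iff_dvd).2 (Dvd.intro_left _ rfl)
    simpa using h2
  have hinj : Set.InjOn g (D : Set (ℕ × ℕ)) := by
    intro x hx y hy h
    rw [Finset.mem_coe, hD, Finset.mem_product, Finset.mem_filter, Finset.mem_filter,
      Finset.mem_range, Finset.mem_range] at hx hy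
    have h1 : x.2 * q ≡ y.2 * q [MOD p] := (hmodp x).symm.trans (h ▸ hmodp y)
    have h2 : x.1 * p ≡ y.1 * p [MOD q] := (hmodq x).symm.trans (h ▸ hmodq y)
    have h3 : x.2 ≡ y.2 [MOD p] := Nat.ModEq.cancel_right_of_coprime (by
      rw [Nat.coprime_iff_gcd_eq_one.symm.symm] at hpq
      exact hpq) h1
    have h4 : x.1 ≡ y.1 [MOD q] := Nat.ModEq.cancel_right_of_coprime (by
      have := hpq.symm
      exact this) h2
    have h5 : x.2 = y.2 := Nat.ModEq.eq_of_lt_of_lt h3 hx.2.1 hy.2.1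
    have h6 : x.1 = y.1 := Nat.ModEq.eq_of_lt_of_lt h4 hx.1.1 hy.1.1
    exact Prod.ext h6 h5
  have hval : ∀ x ∈ D, ‖LSV_S a N (t + (x.1 : ℝ) / q + (x.2 : ℝ) / p)‖ ^ 2 =
      ‖LSV_S a N (t + ((g x : ℕ) : ℝ) / ((p * q : ℕ) : ℝ))‖ ^ 2 := by
    intro x _
    have h1 := Nat.mod_add_div (x.2 * q + x.1 * p) (p * q)
    have h2 : ((x.2 : ℝ) * q + x.1 * p) = (g x : ℝ) +
        (p * q : ℕ) * (((x.2 * q + x.1 * p) / (p * q) : ℕ) : ℝ) := by
      rw [hg]
      simp only
      exact_mod_cast h1.symm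
    have h3 : t + (x.1 : ℝ) / q + (x.2 : ℝ) / p =
        t + ((g x : ℕ) : ℝ) / ((p * q : ℕ) : ℝ) +
          (((x.2 * q + x.1 * p) / (p * q) : ℕ) : ℝ) := by
      have h4 : (x.1 : ℝ) / q + (x.2 : ℝ) / p = ((x.2 : ℝ) * q + x.1 * p) / ((p * q : ℕ) : ℝ) := by
        push_cast
        field_simp
        ring
      rw [add_assoc, h4, h2]
      have h5 : ((p * q : ℕ) : ℝ) ≠ 0 := by
        push_cast
        exact mul_ne_zero hp' hq'
      field_simp
      ring
    rw [h3, LSV_S_add_nat]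
  rw [Finset.sum_congr rfl hval,
    ← Finset.sum_image (f := fun n : ℕ => ‖LSV_S a N (t + (n : ℝ) / ((p * q : ℕ) : ℝ))‖ ^ 2) hinj]
  apply Finset.sum_le_sum_of_subset_of_nonneg
  · intro n hn
    obtain ⟨x, hx, rfl⟩ := Finset.mem_image.1 hn
    rw [hD, Finset.mem_product, Finset.mem_filter, Finset.mem_filter] at hx
    rw [Finset.mem_filter, Finset.mem_range]
    refine ⟨Nat.mod_lt _ (Nat.mul_pos hp hq), ?_⟩
    apply Nat.Coprime.mul_right
    · have h1 : Nat.Coprime (x.2 * q) p := Nat.Coprime.mul_left hx.2.2 hpq.symm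
      exact ((hmodp x).gcd_eq.trans h1)
    · have h1 : Nat.Coprime (x.1 * p) q := Nat.Coprime.mul_left hx.1.2 hpq
      exact ((hmodq x).gcd_eq.trans h1)
  · intro n _ _
    positivity

theorem LSV_prod (a : ℕ → ℂ) (N : ℕ) (ω : ℕ → ℕ) (s : Finset ℕ)
    (h1 : ∀ p ∈ s, p.Prime ∧ ω p < p)
    (h2 : ∀ p ∈ s, (((Finset.range (N + 1)).filter (fun n => a n ≠ 0)).image
      (fun n : ℕ => (n : ZMod p))).card + ω p ≤ p) (t : ℝ) :
    (∏ p ∈ s, (ω p : ℝ) / ((p : ℝ) - ω p)) * ‖LSV_S a N t‖ ^ 2 ≤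
      LSV_Phi a N (∏ p ∈ s, p) t := by
  induction s using Finset.induction_on generalizing t with
  | empty =>
    unfold LSV_Phi
    simp
  | insert p s hps ih =>
    have hp := h1 p (Finset.mem_insert_self _ _)
    haveI : Fact p.Prime := ⟨hp.1⟩
    rw [Finset.prod_insert hps, Finset.prod_insert hps]
    have hpos : 0 < ∏ p ∈ s, p :=
      Finset.prod_pos fun q hq => (h1 q (Finset.mem_insert_of_mem hq)).1.pos
    have hcop : Nat.Coprime p (∏ p ∈ s, p) := by
      apply Nat.Coprime.prod_right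
      intro q hq
      rw [Nat.coprime_primes hp.1 (h1 q (Finset.mem_insert_of_mem hq)).1]
      rintro rfl
      exact hps hq
    refine le_trans ?_ (LSV_mul a N p _ hp.1.pos hpos hcop t)
    have hd : (0 : ℝ) ≤ (ω p : ℝ) / ((p : ℝ) - ω p) := by
      apply div_nonneg (by positivity)
      rw [sub_nonneg]
      exact_mod_cast hp.2.le
    have h3 := ih (fun q hq => h1 q (Finset.mem_insert_of_mem hq))
      (fun q hq => h2 q (Finset.mem_insert_of_mem hq)) t
    calc (ω p : ℝ) / ((p : ℝ) - ω p) * (∏ p ∈ s, (ω p : ℝ) / ((p : ℝ) - ω p)) *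
          ‖LSV_S a N t‖ ^ 2
        = (ω p : ℝ) / ((p : ℝ) - ω p) * ((∏ p ∈ s, (ω p : ℝ) / ((p : ℝ) - ω p)) *
          ‖LSV_S a N t‖ ^ 2) := by ring
      _ ≤ (ω p : ℝ) / ((p : ℝ) - ω p) * LSV_Phi a N (∏ p ∈ s, p) t :=
          mul_le_mul_of_nonneg_left h3 hd
      _ = ∑ b ∈ (Finset.range (∏ p ∈ s, p)).filter (fun b => Nat.Coprime b (∏ p ∈ s, p)),
          (ω p : ℝ) / ((p : ℝ) - ω p) *
            ‖LSV_S a N (t + (b : ℝ) / ((∏ p ∈ s, p : ℕ) : ℝ))‖ ^ 2 := by
          unfold LSV_Phi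
          rw [Finset.mul_sum]
      _ ≤ _ := Finset.sum_le_sum fun b _ => LSV_one p a N (ω p) hp.2
          (h2 p (Finset.mem_insert_self _ _)) _

theorem arith_large_sieve (X M N : ℕ) (A : Finset ℕ) (hA : A ⊆ Finset.Icc M (M + N)) (ω : ℕ → ℕ)
    (h1 : ∀ p : ℕ, p.Prime → p ≤ X → ω p < p)
    (h2 : ∀ p : ℕ, p.Prime → p ≤ X → (A.image (fun n => n % p)).card + ω p ≤ p) :
    (A.card : ℝ) * LS ω X ≤ (X : ℝ) ^ 2 + 14 * (N + 1) := by
  have hLS0 : 0 ≤ (X : ℝ) ^ 2 + 14 * (N + 1) := by positivity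
  rcases Nat.eq_zero_or_pos A.card with hA0 | hA0
  · rw [hA0]
    simpa using hLS0
  set a : ℕ → ℂ := fun n => if M + n ∈ A then 1 else 0 with ha
  have hcard : ((Finset.range (N + 1)).filter (fun n => M + n ∈ A)).card = A.card := by
    refine Finset.card_bij (fun n _ => M + n) ?_ ?_ ?_
    · intro n hn
      exact (Finset.mem_filter.1 hn).2
    · intro n _ m _ h
      simpa using h
    · intro m hm
      have h3 := Finset.mem_Icc.1 (hA hm)
      refine ⟨m - M, ?_, by omega⟩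
      rw [Finset.mem_filter, Finset.mem_range]
      refine ⟨by omega, ?_⟩
      have h4 : M + (m - M) = m := by omega
      rw [h4]
      exact hm
  have hsq : ∑ n ∈ Finset.range (N + 1), ‖a n‖ ^ 2 = (A.card : ℝ) := by
    rw [← hcard, Finset.card_filter]
    push_cast
    refine Finset.sum_congr rfl fun n _ => ?_
    rw [ha]
    simp only
    split_ifs <;> simp
  have hS0 : LSV_S a N 0 = (A.card : ℂ) := by
    unfold LSV_S
    rw [← hcard, Finset.card_filter]
    push_cast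
    refine Finset.sum_congr rfl fun n _ => ?_
    rw [ha]
    simp only
    unfold eC
    split_ifs <;> simp
  have hnS0 : ‖LSV_S a N 0‖ = (A.card : ℝ) := by
    rw [hS0, Complex.norm_natCast]
  have hsuppX : ∀ p : ℕ, p.Prime → p ≤ X →
      (((Finset.range (N + 1)).filter (fun n => a n ≠ 0)).image
        (fun n : ℕ => (n : ZMod p))).card + ω p ≤ p := by
    intro p hp hpX
    refine le_trans ?_ (h2 p hp hpX)
    apply Nat.add_le_add_right
    haveI : NeZero p := ⟨hp.ne_zero⟩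
    refine Finset.card_le_card_of_injOn (fun x : ZMod p => (x + (M : ZMod p)).val) ?_ ?_
    · intro x hx
      rw [Finset.mem_coe] at hx
      obtain ⟨n, hn, rfl⟩ := Finset.mem_image.1 hx
      rw [Finset.mem_filter] at hn
      rw [Finset.mem_coe, Finset.mem_image]
      have h3 : M + n ∈ A := by
        by_contra h4
        apply hn.2
        rw [ha]
        simp only
        rw [if_neg h4]
      refine ⟨M + n, h3, ?_⟩
      have h5 : ((n : ZMod p) + (M : ZMod p)) = ((M + n : ℕ) : ZMod p) := by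
        push_cast
        ring
      simp only
      rw [h5, ZMod.val_natCast]
    · intro x _ y _ h
      have h3 := ZMod.val_injective p h
      exact add_right_cancel h3
  have hterm : ∀ q ∈ (Finset.Icc 1 X).filter Squarefree,
      (∏ p ∈ q.primeFactors, (ω p : ℝ) / ((p : ℝ) - ω p)) * (A.card : ℝ) ^ 2 ≤
        LSV_Phi a N q 0 := by
    intro q hq
    rw [Finset.mem_filter, Finset.mem_Icc] at hq
    have hple : ∀ p ∈ q.primeFactors, p.Prime ∧ p ≤ X := by
      intro p hp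
      have h3 := Nat.prime_of_mem_primeFactors hp
      have h4 := Nat.le_of_dvd (by omega) (Nat.dvd_of_mem_primeFactors hp)
      exact ⟨h3, by omega⟩
    have h3 := LSV_prod a N ω q.primeFactors
      (fun p hp => ⟨(hple p hp).1, h1 p (hple p hp).1 (hple p hp).2⟩)
      (fun p hp => hsuppX p (hple p hp).1 (hple p hp).2) 0
    rwa [Nat.prod_primeFactors_of_squarefree hq.2, hnS0] at h3
  have hPhi : ∀ q ∈ Finset.Icc 2 X, LSV_Phi a N q 0 =
      ∑ b ∈ (Finset.Icc 1 (q - 1)).filter (fun b => b.Coprime q),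
        ‖∑ n ∈ Finset.range (N + 1), a n * eC n ((b : ℝ) / q)‖ ^ 2 := by
    intro q hq
    rw [Finset.mem_Icc] at hq
    unfold LSV_Phi LSV_S
    have h3 : (Finset.range q).filter (fun b => Nat.Coprime b q) =
        (Finset.Icc 1 (q - 1)).filter (fun b => b.Coprime q) := by
      ext b
      rw [Finset.mem_filter, Finset.mem_filter, Finset.mem_range, Finset.mem_Icc]
      constructor
      · rintro ⟨h4, h5⟩
        refine ⟨⟨?_, by omega⟩, h5⟩
        rcases Nat.eq_zero_or_pos b with rfl | hb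
        · rw [Nat.coprime_zero_left] at h5
          omega
        · exact hb
      · rintro ⟨h4, h5⟩
        exact ⟨by omega, h5⟩
    rw [h3]
    refine Finset.sum_congr rfl fun b _ => ?_
    rw [zero_add]
  have hLSV := Pool.Agent.Helper4.ST.additive_large_sieve X N a
  rw [← Finset.sum_congr rfl hPhi, hsq] at hLSV
  have hPhi0 : ∀ q, 0 ≤ LSV_Phi a N q 0 := fun q => by
    unfold LSV_Phi
    exact Finset.sum_nonneg fun b _ => by positivity
  have hPhi1 : LSV_Phi a N 1 0 ≤ (N + 1) * (A.card : ℝ) := by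
    have h3 : LSV_Phi a N 1 0 = (A.card : ℝ) ^ 2 := by
      unfold LSV_Phi
      simp [hnS0]
    rw [h3, pow_two]
    apply mul_le_mul_of_nonneg_right _ (by positivity)
    have h4 : A.card ≤ N + 1 := by
      rw [← hcard]
      refine (Finset.card_filter_le _ _).trans ?_
      rw [Finset.card_range]
    exact_mod_cast h4
  have hsumq : ∑ q ∈ (Finset.Icc 1 X).filter Squarefree, LSV_Phi a N q 0 ≤
      LSV_Phi a N 1 0 + ∑ q ∈ Finset.Icc 2 X, LSV_Phi a N q 0 := by
    have h3 : (Finset.Icc 1 X).filter Squarefree ⊆ insert 1 (Finset.Icc 2 X) := by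
      intro q hq
      rw [Finset.mem_filter, Finset.mem_Icc] at hq
      rw [Finset.mem_insert, Finset.mem_Icc]
      omega
    refine (Finset.sum_le_sum_of_subset_of_nonneg h3 fun q _ _ => hPhi0 q).trans ?_
    rw [Finset.sum_insert (by
      rw [Finset.mem_Icc]
      omega)]
  have hA0' : (0 : ℝ) < A.card := by exact_mod_cast hA0
  have hpi : 4 * Real.pi ≤ 13 := by
    have := Real.pi_lt_d2
    linarith
  have htot : LS ω X * (A.card : ℝ) ^ 2 ≤ ((X : ℝ) ^ 2 + 14 * (N + 1)) * A.card := by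
    unfold LS
    rw [Finset.sum_mul]
    refine (Finset.sum_le_sum hterm).trans (hsumq.trans ?_)
    have h3 : 4 * Real.pi * ((N : ℝ) + 1) ≤ 13 * ((N : ℝ) + 1) :=
      mul_le_mul_of_nonneg_right hpi (by positivity)
    have h4 : ((X : ℝ) ^ 2 + 4 * Real.pi * (N + 1)) * A.card ≤
        ((X : ℝ) ^ 2 + 13 * (N + 1)) * A.card :=
      mul_le_mul_of_nonneg_right (by linarith) hA0'.le
    linarith [hPhi1, hLSV, h4]
  have h5 : ((A.card : ℝ) * LS ω X) * A.card ≤ ((X : ℝ) ^ 2 + 14 * (N + 1)) * A.card := by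
    calc ((A.card : ℝ) * LS ω X) * A.card = LS ω X * (A.card : ℝ) ^ 2 := by ring
      _ ≤ _ := htot
  exact le_of_mul_le_mul_right h5 hA0'

end Pool.Agent.Helper76.OB
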