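import Pool.Agent.Helper76.OB.Defs

set_option autoImplicit false

/-!
# OB module SHR: windows sharing primes

Fix `i`, `V = V i`, `J = N/s`. For `j ≠ i`: `∏_{p∈V∩V_j} ε_p⁻¹ - 1 ≤ ∑_{∅≠I⊆V, I⊆V_j} ∏_{p∈I} ε_p⁻¹`
(`∏_{p ∈ S} x_p ≤ ∏_{p ∈ S} (1 + x_p) = ∑_{I ⊆ S} ∏_I x_p`, where the term `I = ∅` is `1`). Sum over `j`:
`∑_j ≤ ∑_{∅≠I⊆V} ∏_I ε_p⁻¹ #{j < J : I ⊆ V_j}`.
If `I ⊆ V_j` then for each `p ∈ I` there is an offset `h_p ∈ [0,s)` with `p ∣ N + j s + h_p`; for a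
given vector `(h_p)` the `j` lie in one residue class mod `Π = ∏_{p∈I} p` (`p > s`, so `s` is invertible
mod each `p`, pairwise coprime), at most `J/Π + 1 ≤ 2J/Π` of them as `Π ≤ ∏_{p∈V} p ≤ J`. So
`#{j < J : I ⊆ V_j} ≤ s^{#I} 2J/Π` and the sum is
`≤ 2J ∑_{∅≠I⊆V} ∏_I (s ε_p⁻¹/p) ≤ 2J (∏_{p∈V} (1 + s b) - 1) ≤ 2J (exp(s b #V) - 1)`.
-/

open Filter Classical

namespace Pool.Agent.Helper76.OB

/-- counting windows which contain multiples of given primes -/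
theorem shr_count (N s J : ℕ) (hs : 1 ≤ s) (I : Finset ℕ) (hI : ∀ p ∈ I, p.Prime ∧ s < p)
    (S : Finset ℕ) (hS : ∀ j ∈ S, j < J)
    (hSd : ∀ j ∈ S, ∀ p ∈ I, ∃ h, h < s ∧ p ∣ N + j * s + h) :
    S.card ≤ (J / (∏ p ∈ I, p) + 1) * s ^ I.card := by
  have h1 : ∀ j : ℕ, ∃ f : I → Fin s, j ∈ S → ∀ p : I, (p : ℕ) ∣ N + j * s + (f p : ℕ) := by
    intro j
    by_cases hj : j ∈ S
    · choose h hh using fun p : I => hSd j hj p p.2
      exact ⟨fun p => ⟨h p, (hh p).1⟩, fun _ p => (hh p).2⟩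
    · exact ⟨fun _ => ⟨0, hs⟩, fun h => absurd h hj⟩
  choose f hf using h1
  have hq : 0 < ∏ p ∈ I, p := Finset.prod_pos fun p hp => (hI p hp).1.pos
  have hle : ∀ j ∈ S, ∀ k ∈ S, f j = f k → j ≤ k → j ≡ k [MOD ∏ p ∈ I, p] := by
    intro j hj k hk hjk hle
    rw [Nat.modEq_iff_dvd' hle]
    refine Finset.prod_primes_dvd _ (fun p hp => (hI p hp).1.prime) fun p hp => ?_
    have h1 := hf j hj ⟨p, hp⟩
    have h2 := hf k hk ⟨p, hp⟩
    rw [← hjk] at h2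
    have h3 := Nat.dvd_sub h2 h1
    have h4 : N + k * s + (f j ⟨p, hp⟩ : ℕ) - (N + j * s + (f j ⟨p, hp⟩ : ℕ)) = (k - j) * s := by
      rw [Nat.sub_mul]
      have : j * s ≤ k * s := Nat.mul_le_mul_right s hle
      omega
    rw [h4] at h3
    rcases (Nat.Prime.dvd_mul (hI p hp).1).1 h3 with h5 | h5
    · exact h5
    · exact absurd (Nat.le_of_dvd hs h5) (not_le.2 (hI p hp).2)
  have hcong : ∀ j ∈ S, ∀ k ∈ S, f j = f k → j ≡ k [MOD ∏ p ∈ I, p] := by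
    intro j hj k hk hjk
    rcases le_total j k with h | h
    · exact hle j hj k hk hjk h
    · exact (hle k hk j hj hjk.symm h).symm
  have hfib : ∀ a ∈ S.image f, (S.filter (fun j => f j = a)).card ≤ J / (∏ p ∈ I, p) + 1 := by
    intro a _
    rw [← Finset.card_range (J / (∏ p ∈ I, p) + 1)]
    refine Finset.card_le_card_of_injOn (fun j => j / ∏ p ∈ I, p) ?_ ?_
    · intro j hj
      rw [Finset.mem_coe, Finset.mem_filter] at hj
      rw [Finset.mem_coe, Finset.mem_range, Nat.lt_succ_iff]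
      exact Nat.div_le_div_right (hS j hj.1).le
    · intro j hj k hk hjk
      rw [Finset.mem_coe, Finset.mem_filter] at hj hk
      have h2 : j % (∏ p ∈ I, p) = k % (∏ p ∈ I, p) :=
        hcong j hj.1 k hk.1 (hj.2.trans hk.2.symm)
      have h3 : j / (∏ p ∈ I, p) = k / (∏ p ∈ I, p) := hjk
      rw [← Nat.div_add_mod j (∏ p ∈ I, p), ← Nat.div_add_mod k (∏ p ∈ I, p), h2, h3]
  refine (Finset.card_le_mul_card_image S _ hfib).trans (Nat.mul_le_mul_left _ ?_)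
  refine (Finset.card_le_univ _).trans (le_of_eq ?_)
  rw [Fintype.card_fun, Fintype.card_fin, Fintype.card_coe]

theorem sharing (N s : ℕ) (hs : 1 ≤ s) (ε : ℕ → ℝ) (b : ℝ) (hb : 0 ≤ b) (V : ℕ → Finset ℕ) (G : Finset ℕ)
    (hG : ∀ j ∈ G, j < N / s)
    (hVp : ∀ j ∈ G, ∀ p ∈ V j, p.Prime ∧ s < p ∧ 0 < ε p ∧ (ε p)⁻¹ ≤ b * p)
    (hVd : ∀ j ∈ G, ∀ p ∈ V j, ∃ n, N + j * s ≤ n ∧ n < N + (j + 1) * s ∧ p ∣ n)
    (i : ℕ) (hi : i ∈ G) (hprod : ∏ p ∈ V i, p ≤ N / s) :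
    ∑ j ∈ G.erase i, ((∏ p ∈ V i ∩ V j, (ε p)⁻¹) - 1) ≤
      2 * ((N / s : ℕ) : ℝ) * (Real.exp (s * b * ((V i).card : ℝ)) - 1) := by
  have hx : ∀ p ∈ V i, 0 < (ε p)⁻¹ := fun p hp => inv_pos.2 (hVp i hi p hp).2.2.1
  set J : ℕ := N / s with hJ
  -- step 1
  have h1 : ∀ j ∈ G.erase i, (∏ p ∈ V i ∩ V j, (ε p)⁻¹) - 1 ≤
      ∑ I ∈ (V i).powerset.erase ∅, (if I ⊆ V j then ∏ p ∈ I, (ε p)⁻¹ else 0) := by
    intro j _
    have h2 : ∏ p ∈ V i ∩ V j, (ε p)⁻¹ ≤ ∏ p ∈ V i ∩ V j, (1 + (ε p)⁻¹) :=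
      Finset.prod_le_prod (fun p hp => (hx p (Finset.mem_inter.1 hp).1).le) fun p _ => by linarith
    rw [Finset.prod_one_add, ← Finset.insert_erase (Finset.empty_mem_powerset (V i ∩ V j)),
      Finset.sum_insert (Finset.notMem_erase _ _), Finset.prod_empty] at h2
    rw [← Finset.sum_filter]
    have h3 : ((V i).powerset.erase ∅).filter (fun I => I ⊆ V j) = (V i ∩ V j).powerset.erase ∅ := by
      ext I
      simp only [Finset.mem_filter, Finset.mem_erase, Finset.mem_powerset, Finset.subset_inter_iff]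
      tauto
    rw [h3]
    linarith
  refine (Finset.sum_le_sum h1).trans ?_
  rw [Finset.sum_comm]
  -- step 2
  have h2 : ∀ I ∈ (V i).powerset.erase ∅,
      ∑ j ∈ G.erase i, (if I ⊆ V j then ∏ p ∈ I, (ε p)⁻¹ else 0) ≤
        2 * (J : ℝ) * ∏ p ∈ I, ((s : ℝ) * b) := by
    intro I hI
    have hIV : I ⊆ V i := Finset.mem_powerset.1 (Finset.mem_of_mem_erase hI)
    rw [← Finset.sum_filter, Finset.sum_const, nsmul_eq_mul]
    have hcard := shr_count N s J hs I (fun p hp => ⟨(hVp i hi p (hIV hp)).1, (hVp i hi p (hIV hp)).2.1⟩)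
      ((G.erase i).filter (fun j => I ⊆ V j))
      (fun j hj => hG j (Finset.mem_of_mem_erase (Finset.mem_filter.1 hj).1))
      (fun j hj p hp => by
        have hj' := Finset.mem_filter.1 hj
        obtain ⟨n, hn1, hn2, hn3⟩ := hVd j (Finset.mem_of_mem_erase hj'.1) p (hj'.2 hp)
        refine ⟨n - (N + j * s), ?_, ?_⟩
        · rw [Nat.add_mul, one_mul] at hn2
          omega
        · rwa [Nat.add_sub_cancel' hn1])
    have hq : 0 < ∏ p ∈ I, p := Finset.prod_pos fun p hp => (hVp i hi p (hIV hp)).1.pos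
    have hqJ : ∏ p ∈ I, p ≤ J := (Finset.prod_le_prod_of_subset_of_one_le' hIV fun p hp _ =>
      (hVp i hi p hp).1.one_le).trans hprod
    have hq' : (0 : ℝ) < ∏ p ∈ I, (p : ℝ) := by
      rw [← Nat.cast_prod]
      exact_mod_cast hq
    have hcard2 : ((((G.erase i).filter (fun j => I ⊆ V j)).card : ℕ) : ℝ) ≤
        2 * (J : ℝ) / (∏ p ∈ I, (p : ℝ)) * (s : ℝ) ^ I.card := by
      refine (Nat.cast_le.2 hcard).trans ?_
      rw [Nat.cast_mul, Nat.cast_pow]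
      refine mul_le_mul_of_nonneg_right ?_ (by positivity)
      rw [Nat.cast_add, Nat.cast_one, two_mul, add_div]
      refine add_le_add ?_ ?_
      · refine Nat.cast_div_le.trans ?_
        rw [Nat.cast_prod]
      · rw [le_div_iff₀ hq', one_mul, ← Nat.cast_prod]
        exact_mod_cast hqJ
    have hxI : 0 ≤ ∏ p ∈ I, (ε p)⁻¹ := Finset.prod_nonneg fun p hp => (hx p (hIV hp)).le
    refine (mul_le_mul_of_nonneg_right hcard2 hxI).trans ?_
    have h4 : ∏ p ∈ I, (ε p)⁻¹ ≤ ∏ p ∈ I, (b * (p : ℝ)) :=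
      Finset.prod_le_prod (fun p hp => (hx p (hIV hp)).le) fun p hp => (hVp i hi p (hIV hp)).2.2.2
    refine (mul_le_mul_of_nonneg_left h4 (by positivity)).trans (le_of_eq ?_)
    rw [Finset.prod_mul_distrib, Finset.prod_const, Finset.prod_const, mul_pow]
    field_simp
  refine (Finset.sum_le_sum h2).trans ?_
  rw [← Finset.mul_sum]
  refine mul_le_mul_of_nonneg_left ?_ (by positivity)
  -- step 3
  have h5 : ∑ I ∈ (V i).powerset.erase ∅, ∏ p ∈ I, ((s : ℝ) * b) =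
      (∏ p ∈ V i, (1 + (s : ℝ) * b)) - 1 := by
    rw [Finset.prod_one_add, ← Finset.insert_erase (Finset.empty_mem_powerset (V i)),
      Finset.sum_insert (Finset.notMem_erase _ _), Finset.prod_empty,
      Finset.insert_erase (Finset.empty_mem_powerset (V i))]
    ring
  rw [h5, Finset.prod_const]
  refine sub_le_sub_right ?_ _
  have h6 : 1 + (s : ℝ) * b ≤ Real.exp ((s : ℝ) * b) := by
    have := Real.add_one_le_exp ((s : ℝ) * b)
    linarith
  refine (pow_le_pow_left₀ (by positivity) h6 _).trans (le_of_eq ?_)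
  rw [← Real.exp_nat_mul, mul_comm]

end Pool.Agent.Helper76.OB
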