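import Pool.Agent.Helper76.OB.GOO
import Pool.Agent.Helper76.OB.CYL
import Pool.Agent.Helper76.OB.SHR
import Pool.Agent.Helper76.OB.KIL

set_option autoImplicit false

/-!
# OB module MOM: the probability that no window is emptied, small bits fixed

`L = log N`, `s = sN θ N`, `y = yN η N`, `z = √N`, `v = L^(1-θ+δ)`, `J = N/s`,
`G` = good windows, `K = #G ≥ J/2` (`many_good`), `U = UU`, `V = VV`, `P = PR y z`.
`kills`: if no window is empty then for every `j ∈ G` not `(V_j ⊆ T1 ∧ Disjoint (U_j) T1)`; so by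
`second_moment` the probability is at most `K⁻² ∑_{i,j∈G} (R_ij - 1)`.
-/

open Filter Classical

namespace Pool.Agent.Helper76.OB

lemma wt_nonneg (ε : ℕ → ℝ) (P T : Finset ℕ) (h : ∀ p ∈ P, 0 ≤ ε p ∧ ε p ≤ 1) : 0 ≤ wt ε P T := by
  unfold wt
  apply Finset.prod_nonneg
  intro p hp
  split_ifs
  · exact (h p hp).1
  · linarith [(h p hp).2]

lemma PT_mono (ε : ℕ → ℝ) (P : Finset ℕ) (h : ∀ p ∈ P, 0 ≤ ε p ∧ ε p ≤ 1) (A A' : Finset ℕ → Prop)
    (hA : ∀ T, T ⊆ P → A T → A' T) : PT ε P A ≤ PT ε P A' := by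
  unfold PT
  apply Finset.sum_le_sum_of_subset_of_nonneg
  · intro T hT
    rw [Finset.mem_filter, Finset.mem_powerset] at hT ⊢
    exact ⟨hT.1, hA T hT.1 hT.2⟩
  · intro T _ _
    exact wt_nonneg ε P T h

lemma yN_lt {η : ℝ} {N p : ℕ} (hp : yN η N < p) : (Real.log N) ^ η < Real.log p := by
  have h1 : Real.exp ((Real.log N) ^ η) < (yN η N : ℝ) + 1 := Nat.lt_floor_add_one _
  have h2 : (yN η N : ℝ) + 1 ≤ p := by exact_mod_cast hp
  rw [Real.lt_log_iff_exp_lt (by exact_mod_cast (by omega : 0 < p))]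
  linarith

lemma algebra_step {p K J a e τ : ℝ} (hJ : 0 < J) (hK : J / 2 ≤ K) (_hτ : 0 ≤ τ) (hτ1 : τ ≤ 1)
    (ha : 0 ≤ a) (he : 0 ≤ e)
    (h : p * K ^ 2 ≤ K * ((1 + τ) * a + (1 + τ) * (2 * J * e) + τ * K)) :
    p ≤ 4 * a / J + 8 * e + τ := by
  have hK0 : 0 < K := by linarith
  have h1 : p * K ≤ (1 + τ) * a + (1 + τ) * (2 * J * e) + τ * K := by
    have h2 : K * (p * K) ≤ K * ((1 + τ) * a + (1 + τ) * (2 * J * e) + τ * K) := by
      calc K * (p * K) = p * K ^ 2 := by ring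
        _ ≤ _ := h
    exact le_of_mul_le_mul_left h2 hK0
  have h3 : (1 + τ) * a + (1 + τ) * (2 * J * e) + τ * K ≤ 2 * a + 4 * J * e + τ * K := by
    have h4 : (1 + τ) * a ≤ 2 * a := by nlinarith
    have h5 : 0 ≤ 2 * J * e := by positivity
    have h6 : (1 + τ) * (2 * J * e) ≤ 2 * (2 * J * e) := by nlinarith
    linarith
  have h7 : 2 * a ≤ (4 * a / J) * K := by
    have h8 : (4 * a / J) * (J / 2) ≤ (4 * a / J) * K := by
      apply mul_le_mul_of_nonneg_left hK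
      positivity
    have h9 : (4 * a / J) * (J / 2) = 2 * a := by
      field_simp
      ring
    linarith
  have h10 : 4 * J * e ≤ 8 * e * K := by nlinarith
  have h11 : p * K ≤ (4 * a / J + 8 * e + τ) * K := by
    calc p * K ≤ 2 * a + 4 * J * e + τ * K := h1.trans h3
      _ ≤ (4 * a / J) * K + 8 * e * K + τ * K := by linarith
      _ = _ := by ring
  exact le_of_mul_le_mul_right h11 hK0

lemma inv_one_sub_le {x : ℝ} (h0 : 0 ≤ x) (h1 : x ≤ 1 / 2) : (1 - x)⁻¹ ≤ Real.exp (2 * x) := by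
  have h2 : 1 - 2 * x + 2 * x ≤ 1 := by linarith
  rw [inv_le_comm₀ (by linarith) (Real.exp_pos _), ← Real.exp_neg]
  have h3 : Real.exp (-(2 * x)) ≤ 1 - x := by
    -- `exp(-u) ≤ 1/(1+u)`, `u = 2x`, and `1/(1+2x) ≤ 1 - x`
    have h4 : 1 + 2 * x ≤ Real.exp (2 * x) := by
      have := Real.add_one_le_exp (2 * x); linarith
    rw [Real.exp_neg, inv_le_comm₀ (Real.exp_pos _) (by linarith)]
    refine le_trans ?_ h4
    rw [inv_le_iff_one_le_mul₀ (by linarith)]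
    nlinarith
  exact h3

/-- the combinatorial core for one `N` -/
theorem fail_bound_at (N s y : ℕ) (v b τ : ℝ) (ε : ℕ → ℝ) (T0 : Finset ℕ)
    (hy : 2 ≤ y) (hyz : y ≤ Nat.sqrt N) (hs : 1 ≤ s) (hsy : s ≤ y) (hT0 : T0 ⊆ PR 2 y)
    (hε : ∀ p ∈ PR y (Nat.sqrt N), 0 < ε p ∧ ε p < 1)
    (hεb : ∀ p ∈ PR y (Nat.sqrt N), (ε p)⁻¹ ≤ b * p) (hb : 0 ≤ b) (hb1 : b ≤ 1)
    (hτ : 0 ≤ τ) (hτ1 : τ ≤ 1)
    (hτU : ∀ j < N / s, ∏ p ∈ UU N s y T0 j, (1 - ε p)⁻¹ ≤ 1 + τ)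
    (hJ : (N : ℝ) ^ ((1 : ℝ) / 16) ≤ ((N / s : ℕ) : ℝ)) (hv : 0 ≤ v)
    (hgood : ((N / s : ℕ) : ℝ) / 2 ≤
        (((Finset.range (N / s)).filter (fun j => Good N s y v T0 j)).card : ℝ)) :
    PT ε (PR y (Nat.sqrt N)) (fun T1 => ¬ Emp N s (T0 ∪ T1)) ≤
      4 * (N : ℝ) ^ ((1 : ℝ) / 16) / ((N / s : ℕ) : ℝ) + 8 * (Real.exp (s * b * v) - 1) + τ := by
  set P := PR y (Nat.sqrt N) with hP
  set G := (Finset.range (N / s)).filter (fun j => Good N s y v T0 j) with hG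
  have hGood : ∀ j ∈ G, Good N s y v T0 j := fun j hj => (Finset.mem_filter.1 hj).2
  set U := fun j => UU N s y T0 j with hU
  set V := fun j => VV N s y T0 j with hV
  have hN0 : 0 < N := by
    rcases Nat.eq_zero_or_pos N with rfl | h
    · simp at hyz; omega
    · exact h
  have hNr : (0 : ℝ) < N := by exact_mod_cast hN0
  have hUP : ∀ j, U j ⊆ P := fun j => UU_subset N s y T0 j
  have hVP : ∀ j ∈ G, V j ⊆ P := fun j hj => VV_subset N s y v T0 j (hGood j hj)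
  have hε' : ∀ p ∈ P, 0 ≤ ε p ∧ ε p ≤ 1 := fun p hp => ⟨(hε p hp).1.le, (hε p hp).2.le⟩
  -- Step 1
  have h1 : PT ε P (fun T1 => ¬ Emp N s (T0 ∪ T1)) ≤
      PT ε P (fun T => ∀ j ∈ G, ¬ (V j ⊆ T ∧ Disjoint (U j) T)) := by
    apply PT_mono ε P hε'
    intro T hT hE j hj hcon
    apply hE
    have hg := hGood j hj
    exact ⟨j, hg.lt, kills N s y v T0 T j hy hyz hT0 hT hg hcon.1 hcon.2⟩
  refine h1.trans ?_
  have h2 := second_moment ε P hε G U V (fun j _ => hUP j) hVP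
    (fun j hj => UV_disjoint N s y v T0 j hy hsy hT0 (hGood j hj))
  set K : ℝ := (G.card : ℝ) with hK
  set J : ℝ := ((N / s : ℕ) : ℝ) with hJdef
  have hN16 : 0 < (N : ℝ) ^ ((1 : ℝ) / 16) := Real.rpow_pos_of_pos hNr _
  have hJ0 : 0 < J := lt_of_lt_of_le hN16 hJ
  have hsb0 : 0 ≤ (s : ℝ) * b := by positivity
  -- bounds for the products
  have hu1 : ∀ i ∈ G, ∀ j, ∏ p ∈ U i ∩ U j, (1 - ε p)⁻¹ ≤ 1 + τ := by
    intro i hi j
    refine le_trans ?_ (hτU i (hGood i hi).lt)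
    apply Finset.prod_le_prod_of_subset_of_one_le Finset.inter_subset_left
    · intro p hp
      have := (hε p (hUP i (Finset.mem_inter.1 hp).1)).2
      exact inv_nonneg.2 (by linarith)
    · intro p hp _
      have h3 := hε p (hUP i hp)
      exact (one_le_inv₀ (by linarith [h3.2])).2 (by linarith [h3.1])
  have hu0 : ∀ i ∈ G, ∀ j, 0 ≤ ∏ p ∈ U i ∩ U j, (1 - ε p)⁻¹ := by
    intro i hi j
    apply Finset.prod_nonneg
    intro p hp
    have := (hε p (hUP i (Finset.mem_inter.1 hp).1)).2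
    exact inv_nonneg.2 (by linarith)
  have hρ1 : ∀ i ∈ G, ∀ j, 1 ≤ ∏ p ∈ V i ∩ V j, (ε p)⁻¹ := by
    intro i hi j
    apply Finset.one_le_prod
    intro p hp
    have h3 := hε p (hVP i hi (Finset.mem_inter.1 hp).1)
    exact (one_le_inv₀ h3.1).2 h3.2.le
  have hρi : ∀ i ∈ G, ∏ p ∈ V i ∩ V i, (ε p)⁻¹ ≤ (N : ℝ) ^ ((1 : ℝ) / 16) := by
    intro i hi
    rw [Finset.inter_self]
    refine le_trans ?_ (VV_data N s y v T0 i (hGood i hi)).2.2.2
    apply Finset.prod_le_prod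
    · intro p hp
      exact inv_nonneg.2 (hε p (hVP i hi hp)).1.le
    · intro p hp
      refine (hεb p (hVP i hi hp)).trans ?_
      have : (0:ℝ) ≤ p := Nat.cast_nonneg p
      nlinarith
  -- one row
  have hrow : ∀ i ∈ G, ∑ j ∈ G, ((∏ p ∈ V i ∩ V j, (ε p)⁻¹) * (∏ p ∈ U i ∩ U j, (1 - ε p)⁻¹) - 1) ≤
      (1 + τ) * (N : ℝ) ^ ((1 : ℝ) / 16) + (1 + τ) * (2 * J * (Real.exp (s * b * v) - 1)) + τ * K := by
    intro i hi
    rw [← Finset.add_sum_erase G _ hi]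
    have hdata := VV_data N s y v T0 i (hGood i hi)
    have hprod : ∏ p ∈ V i, p ≤ N / s := by
      have h3 : ((∏ p ∈ V i, p : ℕ) : ℝ) ≤ ((N / s : ℕ) : ℝ) := by
        push_cast
        exact hdata.2.2.2.trans hJ
      exact_mod_cast h3
    have hsh := sharing N s hs ε b hb V G (fun j hj => (hGood j hj).lt)
      (by
        intro j hj p hp
        have hd := (VV_data N s y v T0 j (hGood j hj)).1 p hp
        have hpP := hVP j hj hp
        exact ⟨hd.1, by omega, (hε p hpP).1, hεb p hpP⟩)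
      (fun j hj => (VV_data N s y v T0 j (hGood j hj)).2.1) i hi hprod
    have hdiag : (∏ p ∈ V i ∩ V i, (ε p)⁻¹) * (∏ p ∈ U i ∩ U i, (1 - ε p)⁻¹) - 1 ≤
        (1 + τ) * (N : ℝ) ^ ((1 : ℝ) / 16) := by
      have h3 : (∏ p ∈ V i ∩ V i, (ε p)⁻¹) * (∏ p ∈ U i ∩ U i, (1 - ε p)⁻¹) ≤
          (N : ℝ) ^ ((1 : ℝ) / 16) * (1 + τ) :=
        mul_le_mul (hρi i hi) (hu1 i hi i) (hu0 i hi i) hN16.le
      linarith
    have hoff : ∑ j ∈ G.erase i,
        ((∏ p ∈ V i ∩ V j, (ε p)⁻¹) * (∏ p ∈ U i ∩ U j, (1 - ε p)⁻¹) - 1) ≤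
        (1 + τ) * (2 * J * (Real.exp (s * b * v) - 1)) + τ * K := by
      have h3 : ∀ j ∈ G.erase i,
          (∏ p ∈ V i ∩ V j, (ε p)⁻¹) * (∏ p ∈ U i ∩ U j, (1 - ε p)⁻¹) - 1 ≤
            (1 + τ) * ((∏ p ∈ V i ∩ V j, (ε p)⁻¹) - 1) + τ := by
        intro j _
        have h4 := hu1 i hi j
        have h5 := hρ1 i hi j
        have h6 : (∏ p ∈ V i ∩ V j, (ε p)⁻¹) * (∏ p ∈ U i ∩ U j, (1 - ε p)⁻¹) ≤
            (∏ p ∈ V i ∩ V j, (ε p)⁻¹) * (1 + τ) :=
          mul_le_mul_of_nonneg_left h4 (by linarith)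
        linarith
      refine (Finset.sum_le_sum h3).trans ?_
      rw [Finset.sum_add_distrib, ← Finset.mul_sum, Finset.sum_const, nsmul_eq_mul]
      have h7 : ((G.erase i).card : ℝ) ≤ K := by
        rw [hK]
        exact_mod_cast Finset.card_erase_le
      have h8 : ∑ j ∈ G.erase i, ((∏ p ∈ V i ∩ V j, (ε p)⁻¹) - 1) ≤
          2 * J * (Real.exp (s * b * v) - 1) := by
        refine hsh.trans ?_
        apply mul_le_mul_of_nonneg_left _ (by positivity)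
        have h9 : Real.exp (s * b * ((V i).card : ℝ)) ≤ Real.exp (s * b * v) := by
          apply Real.exp_le_exp.2
          exact mul_le_mul_of_nonneg_left hdata.2.2.1 hsb0
        linarith
      have h10 : (1 + τ) * ∑ j ∈ G.erase i, ((∏ p ∈ V i ∩ V j, (ε p)⁻¹) - 1) ≤
          (1 + τ) * (2 * J * (Real.exp (s * b * v) - 1)) :=
        mul_le_mul_of_nonneg_left h8 (by linarith)
      have h11 : ((G.erase i).card : ℝ) * τ ≤ τ * K := by
        rw [mul_comm]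
        exact mul_le_mul_of_nonneg_left h7 hτ
      linarith
    linarith
  have h3 : PT ε P (fun T => ∀ j ∈ G, ¬ (V j ⊆ T ∧ Disjoint (U j) T)) * K ^ 2 ≤
      K * ((1 + τ) * (N : ℝ) ^ ((1 : ℝ) / 16) + (1 + τ) * (2 * J * (Real.exp (s * b * v) - 1)) +
        τ * K) := by
    refine h2.trans ((Finset.sum_le_sum hrow).trans ?_)
    rw [Finset.sum_const, nsmul_eq_mul]
  have he : 0 ≤ Real.exp (s * b * v) - 1 := by
    have := Real.one_le_exp (show 0 ≤ (s : ℝ) * b * v by positivity)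
    linarith
  exact algebra_step hJ0 hgood hτ hτ1 hN16.le he h3

theorem fail_bound (η θ δ B c : ℝ) (hη : 0 < η) (hηθ : η < θ) (hθ : θ < 1) (hδ : 0 < δ) (hB : 0 < B)
    (hc : 0 < c) (h : 3 - 2 * θ + δ < η * B) (ε : ℕ → ℝ)
    (hε : ∀ᶠ p : ℕ in atTop, p.Prime → (Real.log p) ^ B / p ≤ ε p ∧ ε p ≤ (p : ℝ) ^ (-c)) :
    ∃ κ : ℝ, 0 < κ ∧ ∀ᶠ N : ℕ in atTop, yN η N ≤ Nat.sqrt N ∧ 2 ≤ yN η N ∧
      ∀ T0 : Finset ℕ, T0 ⊆ PR 2 (yN η N) →
        PT ε (PR (yN η N) (Nat.sqrt N)) (fun T1 => ¬ Emp N (sN θ N) (T0 ∪ T1)) ≤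
          (Real.log N) ^ (-κ) := by
  set κ0 : ℝ := η * B - (3 - 2 * θ + δ) with hκ0
  have hκ0pos : 0 < κ0 := by linarith
  set κ : ℝ := min 1 κ0 / 2 with hκ
  have hκpos : 0 < κ := by
    have : 0 < min 1 κ0 := lt_min one_pos hκ0pos
    positivity
  have hκ1 : 2 * κ ≤ 1 := by
    have : min 1 κ0 ≤ 1 := min_le_left _ _
    linarith
  have hκ2 : 2 * κ ≤ κ0 := by
    have : min 1 κ0 ≤ κ0 := min_le_right _ _
    linarith
  refine ⟨κ, hκpos, ?_⟩
  have hL : Tendsto (fun N : ℕ => Real.log (N : ℝ)) atTop atTop :=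
    Real.tendsto_log_atTop.comp tendsto_natCast_atTop_atTop
  obtain ⟨p0, hp0⟩ := eventually_atTop.1 hε
  -- asymptotic facts
  have hxη : Tendsto (fun x : ℝ => x ^ η) atTop atTop := tendsto_rpow_atTop hη
  have r1 : ∀ᶠ x : ℝ in atTop, 1 ≤ x := eventually_ge_atTop 1
  have r2 : ∀ᶠ x : ℝ in atTop, x ^ η ≤ x / 2 := by
    have h1 : ∀ᶠ x : ℝ in atTop, (2 : ℝ) ≤ x ^ (1 - η) :=
      (tendsto_rpow_atTop (by linarith : 0 < 1 - η)).eventually_ge_atTop 2
    filter_upwards [h1, eventually_ge_atTop 1] with x h2 h3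
    have hx : 0 < x := by linarith
    have h4 : x = x ^ η * x ^ (1 - η) := by
      rw [← Real.rpow_add hx]; simp
    have h5 : 0 < x ^ η := Real.rpow_pos_of_pos hx _
    nlinarith
  have rexp : ∀ (k : ℝ) (a : ℝ), 0 < a → ∀ (C : ℝ), ∀ᶠ x : ℝ in atTop, C * x ^ k ≤ Real.exp (a * x ^ η) := by
    intro k a ha C
    have h1 := isLittleO_rpow_exp_pos_mul_atTop (k / η) ha
    have h2 := h1.def (c := 1 / (|C| + 1)) (by positivity)
    have h3 := hxη.eventually h2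
    filter_upwards [h3, eventually_ge_atTop 1] with x h4 h5
    have hx : 0 < x := by linarith
    rw [Real.norm_eq_abs, Real.norm_eq_abs, Real.abs_exp, ← Real.rpow_mul hx.le,
      mul_div_cancel₀ _ hη.ne', abs_of_pos (Real.rpow_pos_of_pos hx _)] at h4
    have h6 : 0 < x ^ k := Real.rpow_pos_of_pos hx _
    have h7 : (|C| + 1) * x ^ k ≤ Real.exp (a * x ^ η) := by
      have h8 : 0 < |C| + 1 := by positivity
      calc (|C| + 1) * x ^ k ≤ (|C| + 1) * (1 / (|C| + 1) * Real.exp (a * x ^ η)) := by gcongr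
        _ = _ := by field_simp
    have h9 : C ≤ |C| + 1 := by linarith [le_abs_self C]
    calc C * x ^ k ≤ (|C| + 1) * x ^ k := by gcongr
      _ ≤ _ := h7
  have r3 := rexp (2 - θ) 1 one_pos 1
  have r4 : ∀ᶠ x : ℝ in atTop, (p0 : ℝ) ≤ Real.exp (x ^ η) :=
    (Real.tendsto_exp_atTop.comp hxη).eventually_ge_atTop _
  have r5 : ∀ᶠ x : ℝ in atTop, 5 * x ^ 3 ≤ Real.exp (x / 2) := by
    have h1 := isLittleO_rpow_exp_pos_mul_atTop 3 (by norm_num : (0:ℝ) < 1 / 2)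
    have h2 := h1.def (c := 1 / 5) (by positivity)
    filter_upwards [h2, eventually_ge_atTop 1] with x h4 h5
    have hx : 0 < x := by linarith
    rw [Real.norm_eq_abs, Real.norm_eq_abs, Real.abs_exp,
      abs_of_pos (Real.rpow_pos_of_pos hx _)] at h4
    have h6 : x ^ (3 : ℝ) = x ^ 3 := by exact_mod_cast Real.rpow_natCast x 3
    rw [h6] at h4
    have h7 : (1 : ℝ) / 2 * x = x / 2 := by ring
    rw [h7] at h4
    linarith
  have r6 := rexp 4 c hc 16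
  have r7 : ∀ᶠ x : ℝ in atTop, (18 : ℝ) ≤ x ^ κ := (tendsto_rpow_atTop hκpos).eventually_ge_atTop 18
  filter_upwards [hL.eventually r1, hL.eventually r2, hL.eventually r3, hL.eventually r4,
    hL.eventually r5, hL.eventually r6, hL.eventually r7, many_good η θ δ hη hηθ hθ hδ,
    eventually_ge_atTop 1] with N e1 e2 e3 e4 e5 e6 e7 hgood hN1
  set L : ℝ := Real.log (N : ℝ) with hLdef
  have hNr : (0 : ℝ) < N := by exact_mod_cast (by omega : 0 < N)
  have hNL : (N : ℝ) = Real.exp L := by rw [hLdef, Real.exp_log hNr]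
  have hL0 : 0 < L := by linarith
  set y := yN η N with hy
  set s := sN θ N with hs
  set z := Nat.sqrt N with hz
  have hLη1 : 1 ≤ L ^ η := Real.one_le_rpow e1 hη.le
  have hy2 : 2 ≤ y := by
    rw [hy]
    apply Nat.le_floor
    have h1 : Real.exp 1 ≤ Real.exp (L ^ η) := Real.exp_le_exp.2 hLη1
    have h2 := Real.exp_one_gt_d9
    push_cast
    linarith
  have hyR : (y : ℝ) ≤ Real.exp (L ^ η) := Nat.floor_le (Real.exp_pos _).le
  have hyz : y ≤ z := by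
    rw [hz, Nat.le_sqrt']
    have h1 : (y : ℝ) ^ 2 ≤ N := by
      calc (y : ℝ) ^ 2 ≤ (Real.exp (L ^ η)) ^ 2 := by gcongr
        _ = Real.exp (2 * L ^ η) := by rw [← Real.exp_nat_mul]; norm_num
        _ ≤ Real.exp L := Real.exp_le_exp.2 (by linarith)
        _ = N := hNL.symm
    exact_mod_cast h1
  have hsR : (s : ℝ) ≤ L ^ (2 - θ) := Nat.floor_le (by positivity)
  have hs1 : 1 ≤ s := by
    rw [hs]
    apply Nat.le_floor
    push_cast
    exact Real.one_le_rpow e1 (by linarith)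
  have hsy : s ≤ y := by
    rw [hy, hs]
    apply Nat.floor_le_floor
    have := e3
    rw [one_mul, one_mul] at this
    exact this
  have hsL2 : (s : ℝ) ≤ L ^ 2 := by
    refine hsR.trans ?_
    have h1 : L ^ (2 - θ) ≤ L ^ (2 : ℝ) := Real.rpow_le_rpow_of_exponent_le e1 (by linarith)
    have h2 : L ^ (2 : ℝ) = L ^ 2 := by exact_mod_cast Real.rpow_natCast L 2
    rwa [h2] at h1
  have hyp0 : p0 ≤ y := by
    rw [hy]
    exact Nat.le_floor e4
  -- bounds for `ε`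
  set e0 : ℝ := Real.exp (-(c * L ^ η)) with he0
  have he0pos : 0 < e0 := Real.exp_pos _
  have he0' : 16 * L ^ 4 * e0 ≤ 1 := by
    have h1 : L ^ (4 : ℝ) = L ^ 4 := by exact_mod_cast Real.rpow_natCast L 4
    rw [h1] at e6
    rw [he0, Real.exp_neg, ← div_eq_mul_inv, div_le_one (Real.exp_pos _)]
    exact e6
  have hL4 : 1 ≤ L ^ 4 := one_le_pow₀ e1
  have he0half : e0 ≤ 1 / 2 := by nlinarith
  have hP : ∀ p ∈ PR y z, p.Prime ∧ L ^ η < Real.log p ∧ 0 < (p : ℝ) ∧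
      (Real.log p) ^ B / p ≤ ε p ∧ ε p ≤ (p : ℝ) ^ (-c) := by
    intro p hp
    rw [mem_PR] at hp
    have h1 := hp0 p (by omega) hp.2
    exact ⟨hp.2, yN_lt hp.1.1, by exact_mod_cast hp.2.pos, h1.1, h1.2⟩
  have hεe : ∀ p ∈ PR y z, ε p ≤ e0 := by
    intro p hp
    obtain ⟨h1, h2, h3, h4, h5⟩ := hP p hp
    refine h5.trans ?_
    rw [Real.rpow_def_of_pos h3, he0]
    apply Real.exp_le_exp.2
    nlinarith
  have hlogB : ∀ p ∈ PR y z, L ^ (η * B) ≤ (Real.log p) ^ B := by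
    intro p hp
    obtain ⟨h1, h2, h3, h4, h5⟩ := hP p hp
    rw [Real.rpow_mul hL0.le]
    exact Real.rpow_le_rpow (by positivity) h2.le hB.le
  have hεpos : ∀ p ∈ PR y z, 0 < ε p := by
    intro p hp
    obtain ⟨h1, h2, h3, h4, h5⟩ := hP p hp
    refine lt_of_lt_of_le ?_ h4
    have h6 : 0 < Real.log p := by linarith
    positivity
  have hε1 : ∀ p ∈ PR y z, 0 < ε p ∧ ε p < 1 := fun p hp =>
    ⟨hεpos p hp, by linarith [hεe p hp]⟩
  set b : ℝ := (L ^ (η * B))⁻¹ with hb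
  have hLηB : 1 ≤ L ^ (η * B) := Real.one_le_rpow e1 (by positivity)
  have hb0 : 0 ≤ b := by positivity
  have hb1 : b ≤ 1 := inv_le_one_of_one_le₀ hLηB
  have hεb : ∀ p ∈ PR y z, (ε p)⁻¹ ≤ b * p := by
    intro p hp
    obtain ⟨h1, h2, h3, h4, h5⟩ := hP p hp
    have h6 : L ^ (η * B) / p ≤ ε p := (by gcongr; exact hlogB p hp : L ^ (η * B) / p ≤ (Real.log p) ^ B / p).trans h4
    have h7 : 0 < L ^ (η * B) / p := by positivity
    calc (ε p)⁻¹ ≤ (L ^ (η * B) / p)⁻¹ := inv_anti₀ h7 h6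
      _ = b * p := by rw [inv_div, hb, div_eq_mul_inv, mul_comm]
  -- `τ`
  have hτU : ∀ T0 : Finset ℕ, ∀ j < N / s, ∏ p ∈ UU N s y T0 j, (1 - ε p)⁻¹ ≤ 1 + L⁻¹ := by
    intro T0 j hj
    have hsub := UU_subset N s y T0 j
    have h1 : ∏ p ∈ UU N s y T0 j, (1 - ε p)⁻¹ ≤ ∏ _p ∈ UU N s y T0 j, Real.exp (2 * e0) := by
      apply Finset.prod_le_prod
      · intro p hp
        have := (hε1 p (hsub hp)).2
        exact inv_nonneg.2 (by linarith)
      · intro p hp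
        have h2 := hεe p (hsub hp)
        have h3 := (hεpos p (hsub hp)).le
        refine (inv_one_sub_le h3 (by linarith)).trans ?_
        apply Real.exp_le_exp.2
        linarith
    rw [Finset.prod_const, ← Real.exp_nat_mul] at h1
    have h2 := UU_card N s y T0 j hj
    have h3 : Real.log (2 * N) / Real.log 2 ≤ 4 * L := by
      rw [Real.log_mul (by norm_num) hNr.ne', div_le_iff₀ (Real.log_pos (by norm_num))]
      have h4 := Real.log_two_gt_d9
      have h5 := Real.log_two_lt_d9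
      have h6 : Real.log (N : ℝ) = L := rfl
      rw [h6]
      nlinarith
    have h4 : ((UU N s y T0 j).card : ℝ) ≤ 4 * L ^ 3 := by
      calc ((UU N s y T0 j).card : ℝ) ≤ s * (Real.log (2 * N) / Real.log 2) := h2
        _ ≤ L ^ 2 * (4 * L) := by
            apply mul_le_mul hsL2 h3 _ (by positivity)
            apply div_nonneg
            · apply Real.log_nonneg
              have : (1:ℝ) ≤ N := by exact_mod_cast hN1
              linarith
            · exact (Real.log_pos (by norm_num)).le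
        _ = 4 * L ^ 3 := by ring
    set u : ℝ := ((UU N s y T0 j).card : ℝ) * (2 * e0) with hu
    have hu0 : 0 ≤ u := mul_nonneg (Nat.cast_nonneg _) (by linarith)
    have hu1 : u * (2 * L) ≤ 1 := by
      calc u * (2 * L) ≤ (4 * L ^ 3 * (2 * e0)) * (2 * L) := by
            rw [hu]; gcongr
        _ = 16 * L ^ 4 * e0 := by ring
        _ ≤ 1 := he0'
    have hu2 : u ≤ 1 := by nlinarith
    have hu3 : 2 * u ≤ L⁻¹ := by
      rw [← one_div, le_div_iff₀ hL0]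
      linarith
    have h5 := Real.abs_exp_sub_one_le (x := u) (by rw [abs_of_nonneg hu0]; exact hu2)
    rw [abs_of_nonneg hu0] at h5
    have h6 := le_abs_self (Real.exp u - 1)
    linarith
  -- `J`
  set J : ℝ := ((N / s : ℕ) : ℝ) with hJ
  have hJbig : 4 * L * Real.exp (L / 2) ≤ J := by
    have h1 : N < s * (N / s + 1) := Nat.lt_mul_div_succ N hs1
    have h2 : (N : ℝ) < s * (J + 1) := by rw [hJ]; exact_mod_cast h1
    have hJ0 : 0 ≤ J := Nat.cast_nonneg _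
    have h3 : (N : ℝ) < L ^ 2 * (J + 1) := by
      refine h2.trans_le ?_
      gcongr
    have h4 : (N : ℝ) = Real.exp (L / 2) * Real.exp (L / 2) := by
      rw [← Real.exp_add, hNL]; congr 1; ring
    have hE : 0 < Real.exp (L / 2) := Real.exp_pos _
    have h5 : 5 * L ^ 3 * Real.exp (L / 2) ≤ N := by
      rw [h4]; gcongr
    have h6 : L ^ 2 * (5 * L * Real.exp (L / 2)) < L ^ 2 * (J + 1) := by
      calc L ^ 2 * (5 * L * Real.exp (L / 2)) = 5 * L ^ 3 * Real.exp (L / 2) := by ring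
        _ ≤ (N : ℝ) := h5
        _ < L ^ 2 * (J + 1) := h3
    have h7 : 5 * L * Real.exp (L / 2) < J + 1 := lt_of_mul_lt_mul_left h6 (by positivity)
    have h8 : 1 ≤ Real.exp (L / 2) := Real.one_le_exp (by positivity)
    have h9 : 1 ≤ L * Real.exp (L / 2) := by nlinarith
    nlinarith
  have hN16 : (N : ℝ) ^ ((1 : ℝ) / 16) ≤ Real.exp (L / 2) := by
    rw [Real.rpow_def_of_pos hNr]
    apply Real.exp_le_exp.2
    have h6 : Real.log (N : ℝ) = L := rfl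
    rw [h6]
    linarith
  have hN16pos : 0 < (N : ℝ) ^ ((1 : ℝ) / 16) := Real.rpow_pos_of_pos hNr _
  have hJ16 : 4 * L * (N : ℝ) ^ ((1 : ℝ) / 16) ≤ J := by
    refine le_trans ?_ hJbig
    gcongr
  have hJ1 : (N : ℝ) ^ ((1 : ℝ) / 16) ≤ J := by nlinarith
  have hJ0 : 0 < J := lt_of_lt_of_le hN16pos hJ1
  set v : ℝ := L ^ (1 - θ + δ) with hv
  refine ⟨hyz, hy2, fun T0 hT0 => ?_⟩
  have hmain := fail_bound_at N s y v b (L⁻¹) ε T0 hy2 hyz hs1 hsy hT0 hε1 hεb hb0 hb1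
    (by positivity) (inv_le_one_of_one_le₀ e1) (hτU T0) hJ1 (by positivity) (hgood T0)
  refine hmain.trans ?_
  -- final numerics
  have hterm1 : 4 * (N : ℝ) ^ ((1 : ℝ) / 16) / J ≤ L⁻¹ := by
    rw [div_le_iff₀ hJ0, ← div_eq_inv_mul, le_div_iff₀ hL0]
    linarith
  have hsbv : (s : ℝ) * b * v ≤ L ^ (-κ0) := by
    calc (s : ℝ) * b * v ≤ L ^ (2 - θ) * b * v := by gcongr
      _ = L ^ (-κ0) := by
          rw [hb, hv, ← Real.rpow_neg hL0.le, ← Real.rpow_add hL0, ← Real.rpow_add hL0]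
          congr 1
          rw [hκ0]; ring
  have hsbv0 : 0 ≤ (s : ℝ) * b * v := by positivity
  have hLκ0 : L ^ (-κ0) ≤ 1 := Real.rpow_le_one_of_one_le_of_nonpos e1 (by linarith)
  have hterm2 : Real.exp ((s : ℝ) * b * v) - 1 ≤ 2 * L ^ (-κ0) := by
    have h5 := Real.abs_exp_sub_one_le (x := (s : ℝ) * b * v)
      (by rw [abs_of_nonneg hsbv0]; linarith)
    rw [abs_of_nonneg hsbv0] at h5
    have h6 := le_abs_self (Real.exp ((s : ℝ) * b * v) - 1)
    linarith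
  have h1 : L⁻¹ ≤ L ^ (-(2 * κ)) := by
    rw [← Real.rpow_neg_one]
    exact Real.rpow_le_rpow_of_exponent_le e1 (by linarith)
  have h2 : L ^ (-κ0) ≤ L ^ (-(2 * κ)) := Real.rpow_le_rpow_of_exponent_le e1 (by linarith)
  have h3 : 18 * L ^ (-(2 * κ)) ≤ L ^ (-κ) := by
    have h4 : L ^ (-κ) = L ^ κ * L ^ (-(2 * κ)) := by
      rw [← Real.rpow_add hL0]; congr 1; ring
    rw [h4]
    exact mul_le_mul_of_nonneg_right e7 (by positivity)
  linarith

end Pool.Agent.Helper76.OB
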