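import Pool.Agent.Helper76.OB.Defs

set_option autoImplicit false

/-!
# OB: the hypotheses of the theorem are satisfiable

Independent events with arbitrary probabilities `ε p ∈ [0,1]`, in particular
`ε p = (log p)^2 / p` or `p^(-1/2)` for large `p`.
-/

open Filter MeasureTheory ProbabilityTheory

namespace Pool.Agent.Helper76.OB

theorem exists_events (ε : ℕ → ℝ) (hε : ∀ p, 0 ≤ ε p ∧ ε p ≤ 1) :
    ∃ (Ω : Type) (_ : MeasurableSpace Ω) (μ : Measure Ω) (_ : IsProbabilityMeasure μ)
      (E : ℕ → Set Ω), (∀ p, MeasurableSet (E p)) ∧ iIndepSet E μ ∧ ∀ p, μ.real (E p) = ε p := by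
  set ν : Measure ℝ := volume.restrict (Set.Icc 0 1) with hν
  haveI : IsProbabilityMeasure ν := ⟨by rw [hν, Measure.restrict_apply_univ, Real.volume_Icc]; simp⟩
  set μ : Measure (ℕ → ℝ) := Measure.infinitePi (fun _ : ℕ => ν) with hμ
  set E : ℕ → Set (ℕ → ℝ) := fun p => (fun ω => ω p) ⁻¹' Set.Iio (ε p) with hE
  have hEm : ∀ p, MeasurableSet (E p) := fun p => (measurable_pi_apply p) measurableSet_Iio
  have hind : iIndepFun (fun (i : ℕ) (ω : ℕ → ℝ) => ω i) μ :=
    iIndepFun_infinitePi (P := fun _ : ℕ => ν) (X := fun _ x => x) (fun _ => measurable_id)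
  have hval : ∀ p, μ (E p) = ENNReal.ofReal (ε p) := by
    intro p
    have h1 : μ (E p) = ν (Set.Iio (ε p)) := by
      rw [← Measure.infinitePi_map_eval (fun _ : ℕ => ν) p,
        Measure.map_apply (measurable_pi_apply p) measurableSet_Iio]
    rw [h1, hν, Measure.restrict_apply measurableSet_Iio]
    have h2 : Set.Iio (ε p) ∩ Set.Icc 0 1 = Set.Ico 0 (ε p) := by
      ext x
      simp only [Set.mem_inter_iff, Set.mem_Iio, Set.mem_Icc, Set.mem_Ico]
      constructor
      · rintro ⟨h3, h4, h5⟩; exact ⟨h4, h3⟩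
      · rintro ⟨h3, h4⟩; exact ⟨h4, h3, h4.le.trans (hε p).2⟩
    rw [h2, Real.volume_Ico, sub_zero]
  refine ⟨ℕ → ℝ, inferInstance, μ, inferInstance, E, hEm, ?_, ?_⟩
  · rw [iIndepSet_iff_meas_biInter hEm]
    intro s
    exact hind.measure_inter_preimage_eq_mul s (fun i _ => measurableSet_Iio)
  · intro p
    rw [Measure.real, hval p, ENNReal.toReal_ofReal (hε p).1]

end Pool.Agent.Helper76.OB
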